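import Pool.Agent.Lib.MP_4eed4e_an_XA.AFun

set_option autoImplicit false

/-!
Project X, block MA, module AMov: moving the parts of a function.
-/

namespace Pool.Agent.MP4eed4eX

open MeasureTheory Set Filter Topology Metric Pool.Agent.MP4eed4eP Pool.Agent.MP4eed4eP.PG

/-- The linear map which translates the part of a function in `Ω c` by `τ c`. -/
noncomputable def mv {ι : Type*} (C : Finset ι) (Ω : ι → Set P) (τ : ι → P) :
    (P → ℝ) →ₗ[ℝ] (P → ℝ) where
  toFun f x := ∑ c ∈ C, (Ω c).indicator f (x - τ c)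
  map_add' f g := by
    funext x
    simp only [Set.indicator_add', Pi.add_apply, Finset.sum_add_distrib]
  map_smul' r f := by
    funext x
    simp only [RingHom.id_apply, Pi.smul_apply, smul_eq_mul, Finset.mul_sum]
    refine Finset.sum_congr rfl fun c _ => ?_
    by_cases hx : x - τ c ∈ Ω c
    · rw [Set.indicator_of_mem hx, Set.indicator_of_mem hx]; rfl
    · rw [Set.indicator_of_notMem hx, Set.indicator_of_notMem hx, mul_zero]

/-- Proof. For `c ∈ C` no point `x` of `frontier (Ω c)` is in `tsupport f`: it would be in some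
`Ω c'`; `c' = c` is impossible since `Ω c` is open, and for `c' ≠ c` the open set `Ω c'` is a
neighbourhood of `x ∈ closure (Ω c)`, so it meets `Ω c`. By `lipC_ind`, `en_ind` the functions
`g c = (Ω c).indicator f` are in `LipC (Ω c)`, with `tsupport (g c) ⊆ tsupport f ∩ Ω c`,
`en (g c) = ∫_{Ω c} |∇ f|²`. `lipC_trans`, `en_trans`: the translates. `lipC_sum_disj` with
`hdis`, `hin`. The sum of the integrals over the disjoint `Ω c` is the integral over the union
(`integral_biUnion_finset`), which is the whole integral, because `f` and its derivatives vanish off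
`tsupport f` (`setIntegral_eq_integral_of_forall_compl_eq_zero`). -/
theorem mv_spec {ι : Type*} {C : Finset ι} {Ω : ι → Set P} {τ : ι → P} {f : P → ℝ} {D' : Set P}
    (hO : ∀ c ∈ C, IsOpen (Ω c)) (hd : ∀ c ∈ C, ∀ c' ∈ C, c ≠ c' → Disjoint (Ω c) (Ω c'))
    (hf : LipC (⋃ c ∈ C, Ω c) f)
    (hin : ∀ c ∈ C, ∀ x ∈ tsupport f, x ∈ Ω c → x + τ c ∈ D')
    (hdis : ∀ c ∈ C, ∀ c' ∈ C, c ≠ c' → ∀ x ∈ tsupport f, ∀ x' ∈ tsupport f, x ∈ Ω c → x' ∈ Ω c' →
      x + τ c ≠ x' + τ c') :
    LipC D' (mv C Ω τ f) ∧ en (mv C Ω τ f) = en f ∧ l2 (mv C Ω τ f) = l2 f := by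
  have hfU : LipC univ f := ⟨hf.1, hf.2.1, subset_univ _⟩
  have hfr : ∀ c ∈ C, ∀ x ∈ frontier (Ω c), x ∉ tsupport f := by
    intro c hc x hx hxs
    obtain ⟨c', hc', hx'⟩ := mem_iUnion₂.1 (hf.2.2 hxs)
    by_cases he : c' = c
    · subst he
      exact Set.disjoint_left.mp (disjoint_frontier_iff_isOpen.2 (hO c' hc)) hx hx'
    · obtain ⟨y, hy, hy'⟩ := mem_closure_iff.1 hx.1 (Ω c') (hO c' hc') hx'
      exact Set.disjoint_left.mp (hd c' hc' c hc he) hy hy'
  have hI : ∀ c ∈ C, LipC (Ω c) ((Ω c).indicator f) ∧ tsupport ((Ω c).indicator f) ⊆ tsupport f :=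
    fun c hc => ⟨(lipC_ind (hO c hc) hfU (hfr c hc)).1, (lipC_ind (hO c hc) hfU (hfr c hc)).2.1⟩
  have hT : ∀ c ∈ C, LipC {x | x - τ c ∈ Ω c} (fun x => (Ω c).indicator f (x - τ c)) ∧
      tsupport (fun x => (Ω c).indicator f (x - τ c)) =
        {x | x - τ c ∈ tsupport ((Ω c).indicator f)} :=
    fun c hc => lipC_trans (hI c hc).1 (τ c)
  have hL : ∀ c ∈ C, LipC D' (fun x => (Ω c).indicator f (x - τ c)) := by
    intro c hc
    refine ⟨(hT c hc).1.1, (hT c hc).1.2.1, ?_⟩
    intro x hx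
    rw [(hT c hc).2] at hx
    have h1 := hin c hc (x - τ c) ((hI c hc).2 hx) ((hI c hc).1.2.2 hx)
    rwa [sub_add_cancel] at h1
  have hD : ∀ c ∈ C, ∀ c' ∈ C, c ≠ c' →
      Disjoint (tsupport fun x => (Ω c).indicator f (x - τ c))
        (tsupport fun x => (Ω c').indicator f (x - τ c')) := by
    intro c hc c' hc' hne
    rw [Set.disjoint_left]
    intro x hx hx'
    rw [(hT c hc).2] at hx
    rw [(hT c' hc').2] at hx'
    refine hdis c hc c' hc' hne (x - τ c) ((hI c hc).2 hx) (x - τ c') ((hI c' hc').2 hx')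
      ((hI c hc).1.2.2 hx) ((hI c' hc').1.2.2 hx') ?_
    rw [sub_add_cancel, sub_add_cancel]
  obtain ⟨h1, h2, h3⟩ := lipC_sum_disj C (fun c x => (Ω c).indicator f (x - τ c)) hL hD
  have hm : ∀ c ∈ C, MeasurableSet (Ω c) := fun c hc => (hO c hc).measurableSet
  have hpd : (C : Set ι).Pairwise (Function.onFun Disjoint Ω) := by
    intro c hc c' hc' hne
    exact hd c hc c' hc' hne
  refine ⟨h1, ?_, ?_⟩
  · have h4 : en (mv C Ω τ f) = ∑ c ∈ C, en (fun x => (Ω c).indicator f (x - τ c)) := h2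
    rw [h4]
    have h5 : ∀ c ∈ C, en (fun x => (Ω c).indicator f (x - τ c)) =
        ∫ x in Ω c, (d1 f x ^ 2 + d2 f x ^ 2) := by
      intro c hc
      rw [(en_trans ((Ω c).indicator f) (τ c)).1, (en_ind (hO c hc) hfU (hfr c hc)).1]
    rw [Finset.sum_congr rfl h5, ← integral_biUnion_finset C hm hpd
      fun c _ => (LipC.integrable_en hfU).integrableOn]
    refine setIntegral_eq_integral_of_forall_compl_eq_zero fun x hx => ?_
    have h6 : x ∉ tsupport f := fun h7 => hx (hf.2.2 h7)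
    rw [d1_zero_off x h6, d2_zero_off x h6]
    ring
  · have h4 : l2 (mv C Ω τ f) = ∑ c ∈ C, l2 (fun x => (Ω c).indicator f (x - τ c)) := h3
    rw [h4]
    have h5 : ∀ c ∈ C, l2 (fun x => (Ω c).indicator f (x - τ c)) = ∫ x in Ω c, f x ^ 2 := by
      intro c hc
      rw [(en_trans ((Ω c).indicator f) (τ c)).2, (en_ind (hO c hc) hfU (hfr c hc)).2]
    rw [Finset.sum_congr rfl h5, ← integral_biUnion_finset C hm hpd
      fun c _ => (LipC.integrable_sq hfU).integrableOn]
    refine setIntegral_eq_integral_of_forall_compl_eq_zero fun x hx => ?_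
    have h6 : x ∉ tsupport f := fun h7 => hx (hf.2.2 h7)
    rw [image_eq_zero_of_notMem_tsupport h6]
    ring

end Pool.Agent.MP4eed4eX
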