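import Pool.Agent.Lib.MP_4eed4e_an_XA.AMap
import Pool.Agent.Lib.MP_4eed4e_an_XA.AMov

set_option autoImplicit false

/-!
Project X, block MA, module ASpl: the eigenvalues do not change if one of two separated parts is
moved.
-/

namespace Pool.Agent.MP4eed4eX

open MeasureTheory Set Filter Topology Metric Pool.Agent.MP4eed4eP Pool.Agent.MP4eed4eP.PG

private theorem ASpl_aux {D D' : Set P} {s1 s2 τ : ℝ} (h12 : s1 ≤ s2) (hs : s1 ≤ s2 + τ)
    (hD : ∀ x ∈ D, x.1 < s1 ∨ s2 < x.1) (h1 : ∀ x ∈ D, x.1 < s1 → x ∈ D')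
    (h2 : ∀ x ∈ D, s2 < x.1 → x + ((τ, 0) : P) ∈ D') {k : ℕ} {r : ℝ} (hr : r ∈ RS D k) :
    r ∈ RS D' k := by
  let Ω : Bool → Set P := fun b => if b then {x | s2 < x.1} else {x | x.1 < s1}
  let t : Bool → P := fun b => if b then (τ, 0) else 0
  refine RS_iso (mv Finset.univ Ω t) (fun u hu => ?_) hr
  refine mv_spec ?_ ?_ ?_ ?_ ?_
  · intro c _
    cases c
    · exact isOpen_lt continuous_fst continuous_const
    · exact isOpen_lt continuous_const continuous_fst
  · intro c _ c' _ hcc
    rw [Set.disjoint_left]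
    cases c <;> cases c'
    · exact absurd rfl hcc
    · intro x hx hx'
      have h3 : x.1 < s1 := hx
      have h4 : s2 < x.1 := hx'
      linarith
    · intro x hx hx'
      have h3 : s2 < x.1 := hx
      have h4 : x.1 < s1 := hx'
      linarith
    · exact absurd rfl hcc
  · refine ⟨hu.1, hu.2.1, fun x hx => ?_⟩
    rcases hD x (hu.2.2 hx) with h | h
    · exact mem_iUnion₂.2 ⟨false, Finset.mem_univ _, h⟩
    · exact mem_iUnion₂.2 ⟨true, Finset.mem_univ _, h⟩
  · intro c _ x hx hxc
    cases c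
    · have h3 := h1 x (hu.2.2 hx) hxc
      have h4 : x + t false = x := add_zero x
      rw [h4]
      exact h3
    · exact h2 x (hu.2.2 hx) hxc
  · intro c _ c' _ hcc x hx x' hx' hxc hxc' he
    have he1 : (x + t c).1 = (x' + t c').1 := by rw [he]
    cases c <;> cases c'
    · exact hcc rfl
    · have h3 : x.1 < s1 := hxc
      have h4 : s2 < x'.1 := hxc'
      have h5 : x.1 + 0 = x'.1 + τ := he1
      linarith
    · have h3 : s2 < x.1 := hxc
      have h4 : x'.1 < s1 := hxc'
      have h5 : x.1 + τ = x'.1 + 0 := he1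
      linarith
    · exact hcc rfl

/-- Proof. `RS (D1 ∪ (· + (t, 0)) '' D2) k = RS (D1 ∪ D2) k` by `RS_iso` in both directions; then
`lamL_def`. The maps: `mv` (index type `Bool` or `Fin 2`) with the open sets `{x | x.1 < s}` and
`{x | s < x.1}` (for the other direction `{x | x.1 < s}` and `{x | s + t < x.1}`) and the
translations `0` and `(t, 0)` (`-(t, 0)`). `mv_spec`: the supports are in `D1 ∪ D2`,
`D1 ⊆ {x.1 < s}`, `D2 ⊆ {s < x.1}`. -/
theorem lamL_split' {D1 D2 : Set P} (h1 : IsOpen D1) (h2 : IsOpen D2) {s : ℝ}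
    (hs1 : ∀ x ∈ closure D1, x.1 < s) (hs2 : ∀ x ∈ closure D2, s < x.1) {t : ℝ} (ht : 0 ≤ t)
    (k : ℕ) : lamL (D1 ∪ (fun x => x + (t, 0)) '' D2) k = lamL (D1 ∪ D2) k := by
  have k1 : ∀ x ∈ D1, x.1 < s := fun x hx => hs1 x (subset_closure hx)
  have k2 : ∀ x ∈ D2, s < x.1 := fun x hx => hs2 x (subset_closure hx)
  rw [lamL_def, lamL_def]
  congr 1
  refine Set.Subset.antisymm (fun r hr => ?_) (fun r hr => ?_)
  · refine ASpl_aux (s1 := s) (s2 := s + t) (τ := -t) (by linarith) (by linarith) ?_ ?_ ?_ hr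
    · rintro x (hx | ⟨y, hy, rfl⟩)
      · exact Or.inl (k1 x hx)
      · right
        have h3 := k2 y hy
        show s + t < y.1 + t
        linarith
    · rintro x (hx | ⟨y, hy, rfl⟩) hxs
      · exact Or.inl hx
      · exfalso
        have h3 := k2 y hy
        have h4 : y.1 + t < s := hxs
        linarith
    · rintro x (hx | ⟨y, hy, rfl⟩) hxs
      · exfalso
        have h3 := k1 x hx
        linarith
      · right
        have h4 : y + ((t, 0) : P) + ((-t, 0) : P) = y := by
          refine Prod.ext ?_ ?_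
          · show y.1 + t + -t = y.1
            ring
          · show y.2 + 0 + 0 = y.2
            ring
        show y + ((t, 0) : P) + ((-t, 0) : P) ∈ D2
        rw [h4]
        exact hy
  · refine ASpl_aux (s1 := s) (s2 := s) (τ := t) le_rfl (by linarith) ?_ ?_ ?_ hr
    · rintro x (hx | hx)
      · exact Or.inl (k1 x hx)
      · exact Or.inr (k2 x hx)
    · rintro x (hx | hx) hxs
      · exact Or.inl hx
      · exfalso
        have h3 := k2 x hx
        linarith
    · rintro x (hx | hx) hxs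
      · exfalso
        have h3 := k1 x hx
        linarith
      · exact Or.inr ⟨x, hx, rfl⟩

end Pool.Agent.MP4eed4eX
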