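import Pool.Agent.Lib.MP_4eed4e_an_PG.GClose

set_option autoImplicit false

/-!
Project X, block MA, module AMap: comparison of min-max values by linear maps.
Tools: `RS D k` (GConf) is the set of which `lamL D k` is the infimum (`lamL_def`), `LipC.l2_pos`,
`RS_lower`, `RS_bddBelow`, `RS_nonempty`, `lamL_zero`, `en_nonneg`, `l2_nonneg` (block G of P).
-/

namespace Pool.Agent.MP4eed4eX

open MeasureTheory Set Filter Topology Metric Pool.Agent.MP4eed4eP Pool.Agent.MP4eed4eP.PG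

/-- Proof. Take `V' = V.map T`. For `f' ∈ V'`, `f' = T f`, `f ∈ V`: if `f = 0` then
`f' = 0` (`LipC.zero`, both integrals vanish), otherwise `hT`. The restriction of `T` to `V` is
injective (`hT` for `f - g ∈ V` if `T f = T g`), so `finrank V' = finrank V`
(`LinearMap.finrank_range_of_inj` for `T.domRestrict V`, `LinearMap.range_domRestrict`). -/
theorem RS_of_space {D' : Set P} {k : ℕ} {r' : ℝ} (V : Submodule ℝ (P → ℝ))
    (hV : Module.finrank ℝ V = k) (T : (P → ℝ) →ₗ[ℝ] (P → ℝ))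
    (hT : ∀ u ∈ V, u ≠ 0 → LipC D' (T u) ∧ en (T u) ≤ r' * l2 (T u) ∧ T u ≠ 0) :
    r' ∈ RS D' k := by
  refine ⟨V.map T, ?_, ?_⟩
  · have hinj : Function.Injective (T.domRestrict V) := by
      rw [← LinearMap.ker_eq_bot, LinearMap.ker_eq_bot']
      rintro ⟨u, hu⟩ h0
      by_contra hne
      have hu0 : u ≠ 0 := fun h => hne (Subtype.ext h)
      exact (hT u hu hu0).2.2 h0
    rw [← LinearMap.range_domRestrict, LinearMap.finrank_range_of_inj hinj, hV]
  · rintro f' ⟨f, hf, rfl⟩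
    by_cases h0 : f = 0
    · subst h0
      rw [map_zero]
      refine ⟨LipC.zero D', ?_⟩
      simp [en, l2, d1, d2]
    · exact ⟨(hT f hf h0).1, (hT f hf h0).2.1⟩

/-- Proof. `RS_of_space` for the space `V` of `hr`. -/
theorem RS_map {D D' : Set P} {k : ℕ} {r r' : ℝ} (T : (P → ℝ) →ₗ[ℝ] (P → ℝ))
    (hT : ∀ u, LipC D u → en u ≤ r * l2 u → u ≠ 0 →
      LipC D' (T u) ∧ en (T u) ≤ r' * l2 (T u) ∧ T u ≠ 0)
    (hr : r ∈ RS D k) : r' ∈ RS D' k := by
  obtain ⟨V, hV, hVf⟩ := hr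
  exact RS_of_space V hV T fun u hu hu0 => hT u (hVf u hu).1 (hVf u hu).2 hu0

/-- Proof. `RS_map`: for `u ≠ 0`, `en u ≤ r l2 u`: `l2 (T u) ≥ (1 - ε - ε r) l2 u > 0` (so
`T u ≠ 0`) and `en (T u) ≤ ((1 + ε) r + ε) l2 u ≤ (((1 + ε) r + ε) / (1 - ε - ε r)) l2 (T u)`. -/
theorem RS_cmp {D D' : Set P} {k : ℕ} {r ε : ℝ} (hε : 0 ≤ ε) (hr0 : 0 ≤ r)
    (hsmall : ε * (1 + r) < 1) (T : (P → ℝ) →ₗ[ℝ] (P → ℝ))
    (hT : ∀ u, LipC D u → LipC D' (T u) ∧ en (T u) ≤ (1 + ε) * en u + ε * l2 u ∧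
      (1 - ε) * l2 u - ε * en u ≤ l2 (T u))
    (hr : r ∈ RS D k) : ((1 + ε) * r + ε) / (1 - ε - ε * r) ∈ RS D' k := by
  have hden : 0 < 1 - ε - ε * r := by nlinarith
  refine RS_map T (fun u hu he hu0 => ?_) hr
  obtain ⟨h1, h2, h3⟩ := hT u hu
  have hpos := LipC.l2_pos hu hu0
  have h4 : (1 - ε - ε * r) * l2 u ≤ l2 (T u) := by nlinarith
  refine ⟨h1, ?_, ?_⟩
  · have h5 : en (T u) ≤ ((1 + ε) * r + ε) * l2 u := by nlinarith
    have h6 : 0 ≤ (1 + ε) * r + ε := by positivity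
    calc en (T u) ≤ ((1 + ε) * r + ε) * l2 u := h5
      _ = ((1 + ε) * r + ε) / (1 - ε - ε * r) * ((1 - ε - ε * r) * l2 u) := by
          field_simp
      _ ≤ _ := mul_le_mul_of_nonneg_left h4 (div_nonneg h6 hden.le)
  · intro h0
    rw [h0] at h4
    have h5 : l2 (0 : P → ℝ) = 0 := by simp [l2]
    rw [h5] at h4
    have := mul_pos hden hpos
    linarith

/-- Proof. `k = 0`: both sides are `0` (`lamL_zero`). `k = j + 1`: for `r ∈ RS D k` we have `0 ≤ r`
(`RS_lower`) and `a * b * r ∈ RS D' k` by `RS_map` (`en (T u) ≤ a en u ≤ a r l2 u ≤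
a r b l2 (T u)`; `l2 (T u) ≥ l2 u / b > 0`), so `lamL D' k ≤ a * b * r` (`csInf_le`,
`RS_bddBelow`). Take the infimum over `r` (`le_csInf` for `lamL D' k / (a * b)`, `RS_nonempty`). -/
theorem lamL_le_of_map {D D' : Set P} (hD : IsOpen D) (hne : D.Nonempty) {a b : ℝ} (ha : 0 < a)
    (hb : 0 < b) (T : (P → ℝ) →ₗ[ℝ] (P → ℝ))
    (hT : ∀ u, LipC D u → LipC D' (T u) ∧ en (T u) ≤ a * en u ∧ l2 u ≤ b * l2 (T u)) (k : ℕ) :
    lamL D' k ≤ a * b * lamL D k := by
  rcases Nat.eq_zero_or_pos k with h0 | h0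
  · subst h0
    rw [lamL_zero, lamL_zero, mul_zero]
  · obtain ⟨j, rfl⟩ : ∃ j, k = j + 1 := ⟨k - 1, by omega⟩
    have hab : 0 < a * b := mul_pos ha hb
    have h1 : ∀ r ∈ RS D (j + 1), lamL D' (j + 1) / (a * b) ≤ r := by
      intro r hr
      have hr0 := (RS_lower hr).1
      have h2 : a * b * r ∈ RS D' (j + 1) := by
        refine RS_map T (fun u hu he hu0 => ?_) hr
        obtain ⟨h3, h4, h5⟩ := hT u hu
        have hpos := LipC.l2_pos hu hu0
        refine ⟨h3, ?_, ?_⟩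
        · calc en (T u) ≤ a * en u := h4
            _ ≤ a * (r * l2 u) := mul_le_mul_of_nonneg_left he ha.le
            _ ≤ a * (r * (b * l2 (T u))) := by gcongr
            _ = _ := by ring
        · intro h6
          rw [h6] at h5
          have h7 : l2 (0 : P → ℝ) = 0 := by simp [l2]
          rw [h7, mul_zero] at h5
          linarith
      rw [div_le_iff₀ hab]
      have h8 : lamL D' (j + 1) ≤ a * b * r := csInf_le (RS_bddBelow D' j) h2
      linarith
    have h9 : lamL D' (j + 1) / (a * b) ≤ lamL D (j + 1) :=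
      le_csInf (RS_nonempty hD hne _) h1
    rw [div_le_iff₀ hab] at h9
    linarith

/-- Proof. `RS_map`, `l2 (T u) = l2 u > 0`. -/
theorem RS_iso {D D' : Set P} {k : ℕ} {r : ℝ} (T : (P → ℝ) →ₗ[ℝ] (P → ℝ))
    (hT : ∀ u, LipC D u → LipC D' (T u) ∧ en (T u) = en u ∧ l2 (T u) = l2 u)
    (hr : r ∈ RS D k) : r ∈ RS D' k := by
  refine RS_map T (fun u hu he hu0 => ?_) hr
  obtain ⟨h1, h2, h3⟩ := hT u hu
  have hpos := LipC.l2_pos hu hu0
  refine ⟨h1, by rw [h2, h3]; exact he, fun h4 => ?_⟩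
  rw [h4] at h3
  have h5 : l2 (0 : P → ℝ) = 0 := by simp [l2]
  rw [h5] at h3
  linarith

/-- The supports of the functions of a finite-dimensional space are in one compact set.
Proof. For `k + 1`: `V` is finite-dimensional (`Module.finite_of_finrank_pos`), take a basis `b`
(`Module.finBasis`), `K = ⋃ i, tsupport (b i)`; a linear combination vanishes outside the closed
set `K` (`closure_minimal`). -/
theorem RS_compact {D : Set P} {k : ℕ} {r : ℝ} (hr : r ∈ RS D (k + 1)) :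
    ∃ (K : Set P) (V : Submodule ℝ (P → ℝ)), IsCompact K ∧ K ⊆ D ∧
      Module.finrank ℝ V = k + 1 ∧ ∀ f ∈ V, LipC D f ∧ en f ≤ r * l2 f ∧ tsupport f ⊆ K := by
  obtain ⟨V, hV, hVf⟩ := hr
  have : Module.Finite ℝ V := Module.finite_of_finrank_pos (by omega)
  have hc : IsCompact (⋃ i, tsupport ((Module.finBasis ℝ V i : V) : P → ℝ)) :=
    isCompact_iUnion fun i => (hVf _ (Module.finBasis ℝ V i).2).1.2.1
  refine ⟨⋃ i, tsupport ((Module.finBasis ℝ V i : V) : P → ℝ), V, hc,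
    iUnion_subset fun i => (hVf _ (Module.finBasis ℝ V i).2).1.2.2, hV, fun f hf =>
      ⟨(hVf f hf).1, (hVf f hf).2, ?_⟩⟩
  refine closure_minimal (fun x hx => ?_) hc.isClosed
  by_contra hxK
  have h1 : ∀ i, ((Module.finBasis ℝ V i : V) : P → ℝ) x = 0 := fun i =>
    image_eq_zero_of_notMem_tsupport fun h => hxK (mem_iUnion.2 ⟨i, h⟩)
  have h2 := (Module.finBasis ℝ V).sum_repr ⟨f, hf⟩
  have h3 : (∑ i, (Module.finBasis ℝ V).repr ⟨f, hf⟩ i •
      ((Module.finBasis ℝ V i : V) : P → ℝ)) = f := by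
    have := congrArg Subtype.val h2
    rw [Submodule.coe_sum] at this
    exact this
  apply hx
  rw [← h3, Finset.sum_apply]
  exact Finset.sum_eq_zero fun i _ => by rw [Pi.smul_apply, h1 i, smul_zero]

end Pool.Agent.MP4eed4eX
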