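import Pool.Agent.Lib.MP_4eed4e_an_P.PBase

set_option autoImplicit false

/-!
Project X, block MA: what the geometric part (MG) of the limit theorem hands to the analytic part.
-/

namespace Pool.Agent.MP4eed4eX

open MeasureTheory Set Filter Topology Metric Pool.Agent.MP4eed4eP

/-- `C` = representatives of the clusters of vertices, `O c` = local limit set at the centres
`p k c`, `W c` = limit points of the vertices at `p k c`. -/
structure LimData {n : ℕ} (U : Filter ℕ) (D : ℕ → Set P) (p : ℕ → Fin n → P)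
    (C : Finset (Fin n)) (O : Fin n → Set P) (W : Fin n → Finset P) : Prop where
  op : ∀ c ∈ C, IsOpen (O c)
  bdd : ∀ c ∈ C, Bornology.IsBounded (O c)
  /-- Compact subsets of `O c` are in `D k`. -/
  inn : ∀ c ∈ C, ∀ K : Set P, IsCompact K → K ⊆ O c → ∀ᶠ k in U, ∀ y ∈ K, p k c + y ∈ D k
  /-- Outside `O c`, up to a set of small measure, there is a neighbourhood free of `D k`. -/
  out : ∀ c ∈ C, ∀ R μ : ℝ, 0 < μ → ∃ K : Set P, IsCompact K ∧
    volume ((closedBall 0 R \ O c) \ K) ≤ ENNReal.ofReal μ ∧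
    ∃ r : ℝ, 0 < r ∧ ∀ᶠ k in U, ∀ y ∈ K, ∀ z, dist z y ≤ r → p k c + z ∉ D k
  /-- Maps close to the identity which move the boundary of `O c` out of `D k` (M10). -/
  map : ∀ c ∈ C, ∀ r : ℝ, 0 < r → ∀ κ : NNReal, 0 < κ → ∀ᶠ k in U, ∃ v : P → P,
    LipschitzWith κ v ∧ (∀ y, ‖v y‖ ≤ κ) ∧
    ∀ y ∈ frontier (O c), (∀ w ∈ W c, r ≤ dist y w) → p k c + y + v y ∉ D k
  /-- Thinness far from the vertices (M6). -/
  thin : ∀ δ : ℝ, 0 < δ → ∃ R : ℝ, ∀ᶠ k in U, ∀ x, (∀ i, R ≤ dist x (p k i)) →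
    ¬ ball x δ ⊆ D k
  /-- Different clusters are far apart. -/
  far : ∀ c ∈ C, ∀ c' ∈ C, c ≠ c' → Tendsto (fun k => dist (p k c) (p k c')) U atTop
  /-- Every vertex belongs to a cluster. -/
  near : ∀ i, ∃ c ∈ C, ∃ R : ℝ, ∀ᶠ k in U, dist (p k i) (p k c) ≤ R

/-- The limit domain: the union of the sets `O c + s c`. -/
def Dlim {n : ℕ} (C : Finset (Fin n)) (O : Fin n → Set P) (s : Fin n → P) : Set P :=
  {x | ∃ c ∈ C, x - s c ∈ O c}

end Pool.Agent.MP4eed4eX
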