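import Pool.Agent.Lib.MP_4eed4e_an_XA.AMap
import Pool.Agent.Lib.MP_4eed4e_an_XA.AMov
import Pool.Agent.Lib.MP_4eed4e_an_XA.ADefs

set_option autoImplicit false

/-!
Project X, block MA, module AUp: test functions in the limit domain are moved to `D k`.
-/

namespace Pool.Agent.MP4eed4eX

open MeasureTheory Set Filter Topology Metric Pool.Agent.MP4eed4eP Pool.Agent.MP4eed4eP.PG

/-- Proof. `j = 0`: `RS (D k) 0` contains everything (`V = ⊥`). `j = i + 1`: `RS_compact` gives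
`K`, `V`. `Ω c = {x | x - s c ∈ O c}` for `c ∈ C` are open and pairwise disjoint (`hs`), `Dlim C O
s = ⋃ c ∈ C, Ω c`. `K ∩ Ω c` is compact: it is closed in `K`, because it is `K` minus the union of
the other `Ω c'`. So `{y | y + s c ∈ K, y ∈ O c}` is compact and contained in `O c`; by `h.inn`
eventually `p k c + y ∈ D k` for all its `y`. The compact sets are bounded, in `ball 0 R`; by
`h.far` eventually `dist (p k c) (p k c') > 2 R` for all `c ≠ c'` in `C`
(`Filter.eventually_all_finset`). For such `k` the map `mv C Ω τ`, `τ c = p k c - s c`, satisfies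
the assumptions of `mv_spec` for all `f ∈ V`: `x ∈ tsupport f ⊆ K`, `x ∈ Ω c`: `x + τ c = p k c +
(x - s c) ∈ D k`; and `p k c + y = p k c' + y'` is impossible for `|y|, |y'| < R`. `RS_of_space`
with `V` and `T = mv C Ω τ` gives the claim (`en (T f) = en f ≤ r l2 f = r l2 (T f)`, `l2 (T f) =
l2 f > 0`). -/
theorem RS_up {n : ℕ} {U : Filter ℕ} {D : ℕ → Set P} {p : ℕ → Fin n → P} {C : Finset (Fin n)}
    {O : Fin n → Set P} {W : Fin n → Finset P} (h : LimData U D p C O W) {s : Fin n → P}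
    (hs : ∀ c ∈ C, ∀ c' ∈ C, c ≠ c' → ∀ x, x - s c ∈ O c → x - s c' ∉ O c') {j : ℕ} {r : ℝ}
    (hr : r ∈ RS (Dlim C O s) j) : ∀ᶠ k in U, r ∈ RS (D k) j := by
  rcases Nat.eq_zero_or_pos j with h0 | h0
  · subst h0
    refine Eventually.of_forall fun k => ⟨⊥, finrank_bot ℝ _, fun f hf => ?_⟩
    rw [Submodule.mem_bot] at hf
    subst hf
    refine ⟨LipC.zero _, ?_⟩
    simp [en, l2, d1, d2]
  obtain ⟨i, rfl⟩ : ∃ i, j = i + 1 := ⟨j - 1, by omega⟩
  obtain ⟨K, V, hK, hKD, hV, hVf⟩ := RS_compact hr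
  set Ω : Fin n → Set P := fun c => {x | x - s c ∈ O c} with hΩ
  have hO : ∀ c ∈ C, IsOpen (Ω c) := fun c hc =>
    (h.op c hc).preimage (continuous_id.sub continuous_const)
  have hd : ∀ c ∈ C, ∀ c' ∈ C, c ≠ c' → Disjoint (Ω c) (Ω c') := by
    intro c hc c' hc' hne
    rw [Set.disjoint_left]
    intro x hx hx'
    exact hs c hc c' hc' hne x hx hx'
  have hDl : Dlim C O s = ⋃ c ∈ C, Ω c := by
    ext x
    simp [Dlim, hΩ]
  have hcomp : ∀ c ∈ C, IsCompact (K ∩ Ω c) := by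
    intro c hc
    have he : K ∩ Ω c = K \ ⋃ c' ∈ C.erase c, Ω c' := by
      ext x
      constructor
      · rintro ⟨hx, hx'⟩
        refine ⟨hx, fun hx2 => ?_⟩
        obtain ⟨c', hc', hx3⟩ := mem_iUnion₂.1 hx2
        rw [Finset.mem_erase] at hc'
        exact Set.disjoint_left.mp (hd c' hc'.2 c hc hc'.1) hx3 hx'
      · rintro ⟨hx, hx'⟩
        refine ⟨hx, ?_⟩
        have h1 := hKD hx
        rw [hDl] at h1
        obtain ⟨c', hc', hx3⟩ := mem_iUnion₂.1 h1
        by_cases hcc : c' = c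
        · subst hcc
          exact hx3
        · exact absurd (mem_iUnion₂.2 ⟨c', Finset.mem_erase.2 ⟨hcc, hc'⟩, hx3⟩) hx'
    rw [he]
    refine hK.diff (isOpen_biUnion fun c' hc' => hO c' (Finset.mem_of_mem_erase hc'))
  set Y : Fin n → Set P := fun c => (fun x => x - s c) '' (K ∩ Ω c) with hY
  have hYc : ∀ c ∈ C, IsCompact (Y c) := fun c hc =>
    (hcomp c hc).image (continuous_id.sub continuous_const)
  have hYO : ∀ c ∈ C, Y c ⊆ O c := by
    rintro c hc _ ⟨x, hx, rfl⟩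
    exact hx.2
  have hbd : Bornology.IsBounded (⋃ c ∈ C, Y c) :=
    (C.isCompact_biUnion hYc).isBounded
  obtain ⟨R, hR⟩ := hbd.subset_closedBall (0 : P)
  have e1 : ∀ᶠ k in U, ∀ c ∈ C, ∀ y ∈ Y c, p k c + y ∈ D k := by
    rw [Filter.eventually_all_finset]
    exact fun c hc => h.inn c hc (Y c) (hYc c hc) (hYO c hc)
  have e2 : ∀ᶠ k in U, ∀ c ∈ C, ∀ c' ∈ C, c ≠ c' → 2 * R < dist (p k c) (p k c') := by
    rw [Filter.eventually_all_finset]
    intro c hc
    rw [Filter.eventually_all_finset]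
    intro c' hc'
    by_cases hcc : c = c'
    · exact Eventually.of_forall fun k h1 => absurd hcc h1
    · filter_upwards [(h.far c hc c' hc' hcc).eventually_gt_atTop (2 * R)] with k hk _
      exact hk
  filter_upwards [e1, e2] with k h1 h2
  refine RS_of_space V hV (mv C Ω fun c => p k c - s c) fun u hu hu0 => ?_
  obtain ⟨hL, hen, hsup⟩ := hVf u hu
  have hL' : LipC (⋃ c ∈ C, Ω c) u := by
    rw [← hDl]
    exact hL
  have hmem : ∀ c ∈ C, ∀ x ∈ tsupport u, x ∈ Ω c → x - s c ∈ Y c := fun c hc x hx hx' =>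
    ⟨x, ⟨hsup hx, hx'⟩, rfl⟩
  have hin : ∀ c ∈ C, ∀ x ∈ tsupport u, x ∈ Ω c → x + (p k c - s c) ∈ D k := by
    intro c hc x hx hx'
    have h3 := h1 c hc _ (hmem c hc x hx hx')
    have h4 : x + (p k c - s c) = p k c + (x - s c) := by abel
    rw [h4]
    exact h3
  have hdis : ∀ c ∈ C, ∀ c' ∈ C, c ≠ c' → ∀ x ∈ tsupport u, ∀ x' ∈ tsupport u, x ∈ Ω c →
      x' ∈ Ω c' → x + (p k c - s c) ≠ x' + (p k c' - s c') := by
    intro c hc c' hc' hne x hx x' hx' hxc hxc' heq
    have h3 := hR (mem_iUnion₂.2 ⟨c, hc, hmem c hc x hx hxc⟩)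
    have h4 := hR (mem_iUnion₂.2 ⟨c', hc', hmem c' hc' x' hx' hxc'⟩)
    rw [mem_closedBall_zero_iff] at h3 h4
    have h5 := h2 c hc c' hc' hne
    have h6 : p k c - p k c' = (x' - s c') - (x - s c) := by
      have h7 : p k c - s c = x' + (p k c' - s c') - x := by
        rw [← heq]
        abel
      have h8 : p k c = x' + (p k c' - s c') - x + s c := by
        rw [← h7]
        abel
      rw [h8]
      abel
    rw [dist_eq_norm, h6] at h5
    have h7 := norm_sub_le (x' - s c') (x - s c)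
    linarith
  obtain ⟨g1, g2, g3⟩ := mv_spec hO hd hL' hin hdis
  refine ⟨g1, ?_, ?_⟩
  · rw [g2, g3]
    exact hen
  · intro h3
    have h4 := LipC.l2_pos hL hu0
    rw [← g3, h3] at h4
    simp [l2] at h4

end Pool.Agent.MP4eed4eX
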