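import Pool.Agent.Lib.MP_4eed4e_an_XA.ALow
import Pool.Agent.Lib.MP_4eed4e_an_XA.AUp
import Pool.Agent.Lib.MP_4eed4e_an_XA.AMap

set_option autoImplicit false

/-!
Project X, block MA: output of the block.
-/

namespace Pool.Agent.MP4eed4eX

open MeasureTheory Set Filter Topology Metric Pool.Agent.MP4eed4eP Pool.Agent.MP4eed4eP.PG

private theorem RS_up_closed {D : Set P} {k : ℕ} {r r' : ℝ} (hr : r ∈ RS D k) (h : r ≤ r') :
    r' ∈ RS D k := by
  obtain ⟨V, hV, hVf⟩ := hr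
  refine ⟨V, hV, fun f hf => ⟨(hVf f hf).1, (hVf f hf).2.trans ?_⟩⟩
  exact mul_le_mul_of_nonneg_right h (l2_nonneg f)

/-- Proof. `RS ∅ (j + 1) = ∅` (a function in `LipC ∅` vanishes, so every `V` is `⊥`, of rank `0`),
`sInf ∅ = 0`. -/
theorem lamL_empty (j : ℕ) : lamL ∅ j = 0 := by
  rcases Nat.eq_zero_or_pos j with h0 | h0
  · subst h0; exact lamL_zero _
  · rw [lamL_def]
    have h : RS ∅ j = ∅ := by
      rw [Set.eq_empty_iff_forall_notMem]
      rintro r ⟨V, hV, hVf⟩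
      have hbot : V = ⊥ := by
        rw [Submodule.eq_bot_iff]
        intro f hf
        obtain ⟨-, -, hs⟩ := (hVf f hf).1
        funext x
        have hx : x ∉ tsupport f := fun h => hs h
        exact image_eq_zero_of_notMem_tsupport hx
      rw [hbot, finrank_bot] at hV
      omega
    rw [h, Real.sInf_empty]

/-- Proof. `l j ≥ 1` for some `j` (`hinf`), so eventually `lamL (D k) j > 0`; `lamL_empty`. -/
theorem ev_nonempty {U : Filter ℕ} {D : ℕ → Set P} {l : ℕ → ℝ}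
    (hl : ∀ j, Tendsto (fun k => lamL (D k) j) U (𝓝 (l j)))
    (hinf : Tendsto l atTop atTop) : ∀ᶠ k in U, (D k).Nonempty := by
  obtain ⟨j, hj⟩ := (hinf.eventually_ge_atTop 1).exists
  have h1 : ∀ᶠ k in U, 0 < lamL (D k) j :=
    (hl j).eventually (lt_mem_nhds (by linarith))
  filter_upwards [h1] with k hk
  by_contra hcon
  rw [Set.not_nonempty_iff_eq_empty] at hcon
  rw [hcon, lamL_empty] at hk
  exact lt_irrefl _ hk

/-- Proof. Let `r > l (j + 1)`, so `r > 0` (`lamL_nonneg`, `ge_of_tendsto`), and `0 < ε ≤ 1`,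
`ε * (1 + r) < 1`. Eventually `lamL (D k) (j + 1) < r`, `D k` is nonempty (and open, `hF`), and
`T` of `T_exists` exists; take such a `k` (`U.NeBot`). `r ∈ RS (D k) (j + 1)`: some element of
`RS (D k) (j + 1)` is smaller than `r` (`exists_lt_of_csInf_lt`, `RS_nonempty`) and `RS` is
upward closed. `RS_cmp`. -/
theorem RS_Dlim {n : ℕ} {U : Filter ℕ} [U.NeBot] {D : ℕ → Set P} {p : ℕ → Fin n → P}
    {E : Finset (Fin n × Fin n)} {C : Finset (Fin n)} {O : Fin n → Set P} {W : Fin n → Finset P}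
    (hF : ∀ k, Fig (D k) (p k) E) (h : LimData U D p C O W) {s : Fin n → P}
    (hs : ∀ c ∈ C, ∀ c' ∈ C, c ≠ c' → ∀ x, x - s c ∈ O c → x - s c' ∉ O c')
    {l : ℕ → ℝ} (hl : ∀ j, Tendsto (fun k => lamL (D k) j) U (𝓝 (l j)))
    (hinf : Tendsto l atTop atTop) {j : ℕ} {r ε : ℝ} (hr : l (j + 1) < r) (hε : 0 < ε)
    (hε1 : ε ≤ 1) (hsmall : ε * (1 + r) < 1) :
    ((1 + ε) * r + ε) / (1 - ε - ε * r) ∈ RS (Dlim C O s) (j + 1) := by
  have hl0 : 0 ≤ l (j + 1) :=
    ge_of_tendsto (hl (j + 1)) (Eventually.of_forall fun k => lamL_nonneg _ _)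
  have h1 : ∀ᶠ k in U, lamL (D k) (j + 1) < r := (hl (j + 1)).eventually (gt_mem_nhds hr)
  obtain ⟨k, hk1, hk2, T, hT⟩ :=
    (h1.and ((ev_nonempty hl hinf).and (T_exists hF h hs hε hε1))).exists
  have hne := RS_nonempty (hF k).op hk2 (j + 1)
  rw [lamL_def] at hk1
  obtain ⟨r', hr', hlt⟩ := exists_lt_of_csInf_lt hne hk1
  exact RS_cmp hε.le (hl0.trans hr.le) hsmall T hT (RS_up_closed hr' hlt.le)

/-- The eigenvalues of the limit domain.
Proof. `j = 0`: `lamL_zero` on both sides (`tendsto_nhds_unique`). `j + 1`: `≤`: by `RS_Dlim` and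
`RS_bddBelow`, `lamL (Dlim C O s) (j + 1) ≤ ((1 + ε) r + ε) / (1 - ε - ε r)` for all small
`ε > 0`; let `ε → 0` (`ge_of_tendsto` with `𝓝[>] 0`, the right side is continuous in `ε` at `0`),
then `r → l (j + 1)` (`le_of_forall_gt_imp_ge_of_dense`). `≥`: let
`r > lamL (Dlim C O s) (j + 1)`. `RS (Dlim C O s) (j + 1)` is nonempty by `RS_Dlim`, so `r` is in
it (upward closed), so by `RS_up` eventually `r ∈ RS (D k) (j + 1)`, `lamL (D k) (j + 1) ≤ r`
(`csInf_le`, `RS_bddBelow`), `l (j + 1) ≤ r` (`le_of_tendsto`). -/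
theorem lamL_Dlim {n : ℕ} {U : Filter ℕ} [U.NeBot] {D : ℕ → Set P} {p : ℕ → Fin n → P}
    {E : Finset (Fin n × Fin n)} {C : Finset (Fin n)} {O : Fin n → Set P} {W : Fin n → Finset P}
    (hF : ∀ k, Fig (D k) (p k) E) (h : LimData U D p C O W) {s : Fin n → P}
    (hs : ∀ c ∈ C, ∀ c' ∈ C, c ≠ c' → ∀ x, x - s c ∈ O c → x - s c' ∉ O c')
    {l : ℕ → ℝ} (hl : ∀ j, Tendsto (fun k => lamL (D k) j) U (𝓝 (l j)))
    (hinf : Tendsto l atTop atTop) (j : ℕ) : lamL (Dlim C O s) j = l j := by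
  rcases Nat.eq_zero_or_pos j with h0 | h0
  · subst h0
    rw [lamL_zero]
    refine tendsto_nhds_unique ?_ (hl 0)
    simp only [lamL_zero]
    exact tendsto_const_nhds
  · obtain ⟨i, rfl⟩ : ∃ i, j = i + 1 := ⟨j - 1, by omega⟩
    have hl0 : 0 ≤ l (i + 1) :=
      ge_of_tendsto (hl (i + 1)) (Eventually.of_forall fun k => lamL_nonneg _ _)
    have hev : ∀ r : ℝ, 0 ≤ r → ∀ᶠ ε : ℝ in 𝓝[>] 0, 0 < ε ∧ ε ≤ 1 ∧ ε * (1 + r) < 1 := by
      intro r hr
      have h1 : ∀ᶠ ε : ℝ in 𝓝[>] 0, 0 < ε := eventually_mem_nhdsWithin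
      have h2 : ∀ᶠ ε : ℝ in 𝓝[>] 0, ε < 1 := by
        apply eventually_nhdsWithin_of_eventually_nhds
        exact gt_mem_nhds one_pos
      have h3 : ∀ᶠ ε : ℝ in 𝓝[>] 0, ε * (1 + r) < 1 := by
        apply eventually_nhdsWithin_of_eventually_nhds
        have hc : Tendsto (fun ε : ℝ => ε * (1 + r)) (𝓝 0) (𝓝 (0 * (1 + r))) :=
          (continuous_id.mul continuous_const).tendsto 0
        rw [zero_mul] at hc
        exact hc.eventually (gt_mem_nhds one_pos)
      filter_upwards [h1, h2, h3] with ε e1 e2 e3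
      exact ⟨e1, e2.le, e3⟩
    apply le_antisymm
    · apply le_of_forall_gt_imp_ge_of_dense
      intro r hr
      have hr0 : 0 ≤ r := hl0.trans (le_of_lt hr)
      have hlim : Tendsto (fun ε : ℝ => ((1 + ε) * r + ε) / (1 - ε - ε * r)) (𝓝[>] 0)
          (𝓝 r) := by
        have hc : ContinuousAt (fun ε : ℝ => ((1 + ε) * r + ε) / (1 - ε - ε * r)) 0 := by
          apply ContinuousAt.div
          · fun_prop
          · fun_prop
          · norm_num
        have h2 := hc.tendsto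
        simp only [add_zero, one_mul, sub_zero, zero_mul, div_one] at h2
        exact h2.mono_left nhdsWithin_le_nhds
      refine ge_of_tendsto hlim ?_
      filter_upwards [hev r hr0] with ε hε
      exact csInf_le (RS_bddBelow _ _) (RS_Dlim hF h hs hl hinf hr hε.1 hε.2.1 hε.2.2)
    · apply le_of_forall_gt_imp_ge_of_dense
      intro r hr
      have hne : (RS (Dlim C O s) (i + 1)).Nonempty := by
        obtain ⟨ε, hε⟩ := (hev (l (i + 1) + 1) (by linarith)).exists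
        exact ⟨_, RS_Dlim hF h hs hl hinf (lt_add_one _) hε.1 hε.2.1 hε.2.2⟩
      rw [lamL_def] at hr
      obtain ⟨r', hr', hlt⟩ := exists_lt_of_csInf_lt hne hr
      have h1 := RS_up h hs (RS_up_closed hr' hlt.le)
      refine le_of_tendsto (hl (i + 1)) ?_
      filter_upwards [h1] with k hk
      exact csInf_le (RS_bddBelow _ _) hk

end Pool.Agent.MP4eed4eX
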