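import Pool.Agent.Lib.MP_4eed4e_an_PG.GClose

set_option autoImplicit false

/-!
Project X, block MA, module AFun: products, restrictions, translations, disjoint sums.
Tools of block G of P: `LipC.cont`, `LipC.add`, `fderiv_zero_off`, `d1_zero_off`, `fderiv_bound`,
`LipC.integrable_sq`, `LipC.integrable_en`, `en_comp_cf`, `l2_comp_cf`, `LipC_comp_cf`.
-/

namespace Pool.Agent.MP4eed4eX

open MeasureTheory Set Filter Topology Metric Pool.Agent.MP4eed4eP Pool.Agent.MP4eed4eP.PG

/-- Proof. `u` is bounded by some `M` (`HasCompactSupport.exists_bound_of_continuous`);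
`|η x u x - η y u y| ≤ |η x| |u x - u y| + |u y| |η x - η y|`. `tsupport (η u) ⊆ tsupport u`
(`tsupport_mul_subset_right`). -/
theorem lipC_mul {D : Set P} {u η : P → ℝ} (hu : LipC D u) (hη : ∃ K, LipschitzWith K η)
    (h1 : ∀ x, |η x| ≤ 1) : LipC D (fun x => η x * u x) := by
  obtain ⟨⟨K, hK⟩, hc, hs⟩ := hu
  obtain ⟨K', hK'⟩ := hη
  obtain ⟨M, hM⟩ := hc.exists_bound_of_continuous hK.continuous
  have hM' : ∀ x, |u x| ≤ M := fun x => by rw [← Real.norm_eq_abs]; exact hM x
  have hM0 : 0 ≤ M := le_trans (abs_nonneg _) (hM' 0)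
  refine ⟨⟨Real.toNNReal (K + M * K'), LipschitzWith.of_dist_le_mul fun x y => ?_⟩, ?_, ?_⟩
  · rw [Real.coe_toNNReal _ (by positivity), Real.dist_eq]
    have e : η x * u x - η y * u y = η x * (u x - u y) + u y * (η x - η y) := by ring
    have b1 : |u x - u y| ≤ K * dist x y := by
      rw [← Real.dist_eq]; exact hK.dist_le_mul x y
    have b2 : |η x - η y| ≤ K' * dist x y := by
      rw [← Real.dist_eq]; exact hK'.dist_le_mul x y
    have b3 : |η x * (u x - u y)| ≤ K * dist x y := by
      rw [abs_mul]
      calc |η x| * |u x - u y| ≤ 1 * |u x - u y| :=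
            mul_le_mul_of_nonneg_right (h1 x) (abs_nonneg _)
        _ = |u x - u y| := one_mul _
        _ ≤ K * dist x y := b1
    have b4 : |u y * (η x - η y)| ≤ M * (K' * dist x y) := by
      rw [abs_mul]
      exact mul_le_mul (hM' y) b2 (abs_nonneg _) hM0
    rw [e]
    calc |η x * (u x - u y) + u y * (η x - η y)|
        ≤ |η x * (u x - u y)| + |u y * (η x - η y)| := abs_add_le _ _
      _ ≤ K * dist x y + M * (K' * dist x y) := add_le_add b3 b4
      _ = (K + M * K') * dist x y := by ring
  · exact hc.mul_left
  · exact (tsupport_mul_subset_right (f := η) (g := u)).trans hs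

/-- Restriction of a function to an open set, if the function vanishes near the boundary.
Proof. Support: `tsupport (O.indicator f) ⊆ tsupport f ∩ closure O` and a point of `closure O`
which is not in `O` is in the frontier, so it is not in `tsupport f`. Lipschitz with the constant of
`f`: for `x ∈ O`, `y ∉ O` the segment from `x` to `y` meets the frontier in a point `z`
(`IsPreconnected` of the segment, or sup of the parameters), `f z = 0`, `|f x - 0| = |f x - f z| ≤
K dist x z ≤ K dist x y`. Derivatives: near `x ∈ O` the functions `f` and `O.indicator f` agree; near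
`x ∉ closure O` the function `O.indicator f` vanishes; near a point of the frontier both vanish
(`notMem_tsupport_iff_eventuallyEq`). -/
theorem lipC_ind {O : Set P} (hO : IsOpen O) {f : P → ℝ} (hf : LipC univ f)
    (hfr : ∀ x ∈ frontier O, x ∉ tsupport f) :
    LipC O (O.indicator f) ∧ tsupport (O.indicator f) ⊆ tsupport f ∧
    (∀ x, d1 (O.indicator f) x = O.indicator (d1 f) x) ∧
    ∀ x, d2 (O.indicator f) x = O.indicator (d2 f) x := by
  have hcl : closure O ∩ tsupport f ⊆ O := by
    rintro x ⟨h1, h2⟩
    by_contra h3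
    exact hfr x ⟨h1, by rwa [hO.interior_eq]⟩ h2
  have hsup : Function.support (O.indicator f) ⊆ O ∩ Function.support f := by
    rw [Set.support_indicator]
  have hts : tsupport (O.indicator f) ⊆ closure O ∩ tsupport f :=
    subset_inter (closure_mono (hsup.trans inter_subset_left))
      (closure_mono (hsup.trans inter_subset_right))
  have hts2 : tsupport (O.indicator f) ⊆ O := hts.trans hcl
  have hts3 : tsupport (O.indicator f) ⊆ tsupport f := hts.trans inter_subset_right
  obtain ⟨⟨K, hK⟩, hc, -⟩ := hf
  have key : ∀ x y : P, x ∈ O → y ∉ O → |f x| ≤ K * dist x y := by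
    intro x y hx hy
    obtain ⟨z, hz, hzf⟩ : ∃ z ∈ segment ℝ x y, z ∈ frontier O := by
      by_contra hcon
      push Not at hcon
      have h1 : segment ℝ x y ⊆ O ∪ (closure O)ᶜ := by
        intro z hz
        by_cases h2 : z ∈ O
        · exact Or.inl h2
        · refine Or.inr fun h3 => hcon z hz ⟨h3, ?_⟩
          rwa [hO.interior_eq]
      have h4 : Disjoint O (closure O)ᶜ :=
        Set.disjoint_left.2 fun w hw hw' => hw' (subset_closure hw)
      have h5 := IsPreconnected.subset_left_of_subset_union hO isClosed_closure.isOpen_compl h4 h1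
        ⟨x, left_mem_segment ℝ x y, hx⟩ (convex_segment x y).isPreconnected
      exact hy (h5 (right_mem_segment ℝ x y))
    have hf0 : f z = 0 := image_eq_zero_of_notMem_tsupport (hfr z hzf)
    have h6 : |f x - f z| ≤ K * dist x z := by
      rw [← Real.dist_eq]; exact hK.dist_le_mul x z
    rw [hf0, sub_zero] at h6
    have h7 : dist x z ≤ dist x y := by
      have h8 := dist_add_dist_of_mem_segment hz
      linarith [dist_nonneg (x := z) (y := y)]
    exact h6.trans (mul_le_mul_of_nonneg_left h7 K.coe_nonneg)
  have hlip : LipschitzWith K (O.indicator f) := by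
    refine LipschitzWith.of_dist_le_mul fun x y => ?_
    by_cases hx : x ∈ O
    · by_cases hy : y ∈ O
      · rw [indicator_of_mem hx, indicator_of_mem hy]
        exact hK.dist_le_mul x y
      · rw [indicator_of_mem hx, indicator_of_notMem hy, Real.dist_eq, sub_zero]
        exact key x y hx hy
    · by_cases hy : y ∈ O
      · rw [indicator_of_notMem hx, indicator_of_mem hy, Real.dist_eq, zero_sub, abs_neg,
          dist_comm]
        exact key y x hy hx
      · rw [indicator_of_notMem hx, indicator_of_notMem hy, dist_self]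
        positivity
  have hfd : ∀ x ∈ O, fderiv ℝ (O.indicator f) x = fderiv ℝ f x := by
    intro x hx
    refine Filter.EventuallyEq.fderiv_eq ?_
    filter_upwards [hO.mem_nhds hx] with y hy
    exact indicator_of_mem hy f
  refine ⟨⟨⟨K, hlip⟩, hc.of_isClosed_subset (isClosed_tsupport _) hts3, hts2⟩, hts3, ?_, ?_⟩
  · intro x
    by_cases hx : x ∈ O
    · rw [indicator_of_mem hx]
      unfold d1
      rw [hfd x hx]
    · rw [indicator_of_notMem hx]
      exact d1_zero_off x fun h => hx (hts2 h)
  · intro x
    by_cases hx : x ∈ O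
    · rw [indicator_of_mem hx]
      unfold d2
      rw [hfd x hx]
    · rw [indicator_of_notMem hx]
      exact d2_zero_off x fun h => hx (hts2 h)

/-- Proof. From `lipC_ind` and `integral_indicator`. -/
theorem en_ind {O : Set P} (hO : IsOpen O) {f : P → ℝ} (hf : LipC univ f)
    (hfr : ∀ x ∈ frontier O, x ∉ tsupport f) :
    en (O.indicator f) = (∫ x in O, (d1 f x ^ 2 + d2 f x ^ 2)) ∧
    l2 (O.indicator f) = ∫ x in O, f x ^ 2 := by
  obtain ⟨-, -, h1, h2⟩ := lipC_ind hO hf hfr
  constructor
  · unfold en
    rw [← integral_indicator hO.measurableSet]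
    congr 1
    funext x
    rw [h1, h2]
    by_cases hx : x ∈ O
    · rw [indicator_of_mem hx, indicator_of_mem hx, indicator_of_mem hx]
    · rw [indicator_of_notMem hx, indicator_of_notMem hx, indicator_of_notMem hx]
      norm_num
  · unfold l2
    rw [← integral_indicator hO.measurableSet]
    congr 1
    funext x
    by_cases hx : x ∈ O
    · rw [indicator_of_mem hx, indicator_of_mem hx]
    · rw [indicator_of_notMem hx, indicator_of_notMem hx]
      norm_num

/-- Proof. `fderiv_comp_sub`-type lemma (`fderiv_comp_add_right`), or `cf 1 0 (-s)`. -/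
theorem d_trans (f : P → ℝ) (s x : P) :
    d1 (fun x => f (x - s)) x = d1 f (x - s) ∧ d2 (fun x => f (x - s)) x = d2 f (x - s) := by
  constructor
  · unfold d1
    rw [fderiv_comp_sub]
  · unfold d2
    rw [fderiv_comp_sub]

/-- Proof. `d_trans`, `integral_sub_right_eq_self`. -/
theorem en_trans (f : P → ℝ) (s : P) :
    en (fun x => f (x - s)) = en f ∧ l2 (fun x => f (x - s)) = l2 f := by
  constructor
  · unfold en
    simp only [(d_trans f s _).1, (d_trans f s _).2]
    exact integral_sub_right_eq_self (fun x => d1 f x ^ 2 + d2 f x ^ 2) s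
  · unfold l2
    exact integral_sub_right_eq_self (fun x => f x ^ 2) s

/-- Proof. The support is the translated support (`tsupport_comp_eq_preimage` for the
homeomorphism `x ↦ x - s`). -/
theorem lipC_trans {D : Set P} {f : P → ℝ} (hf : LipC D f) (s : P) :
    LipC {x | x - s ∈ D} (fun x => f (x - s)) ∧
    tsupport (fun x => f (x - s)) = {x | x - s ∈ tsupport f} := by
  obtain ⟨⟨K, hK⟩, hc, hs⟩ := hf
  have e1 : (fun x => f (x - s)) = f ∘ (Homeomorph.subRight s) := rfl
  have e2 : tsupport (fun x => f (x - s)) = {x | x - s ∈ tsupport f} := by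
    rw [e1, tsupport_comp_eq_preimage]
    rfl
  refine ⟨⟨⟨K, LipschitzWith.of_dist_le_mul fun x y => ?_⟩, ?_, ?_⟩, e2⟩
  · have h1 := hK.dist_le_mul (x - s) (y - s)
    rwa [dist_sub_right] at h1
  · rw [e1]
    exact hc.comp_homeomorph _
  · rw [e2]
    exact fun x hx => hs hx

private theorem fderiv_two {u v : P → ℝ} {x : P} (hx : x ∉ tsupport u) :
    fderiv ℝ (fun y => u y + v y) x = fderiv ℝ v x := by
  have h1 : u =ᶠ[𝓝 x] fun _ => 0 := notMem_tsupport_iff_eventuallyEq.1 hx
  refine Filter.EventuallyEq.fderiv_eq ?_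
  filter_upwards [h1] with y hy
  rw [hy, zero_add]

private theorem lipC_two {D : Set P} {u v : P → ℝ} (hu : LipC D u) (hv : LipC D v)
    (h : Disjoint (tsupport u) (tsupport v)) :
    LipC D (fun x => u x + v x) ∧ en (fun x => u x + v x) = en u + en v ∧
      l2 (fun x => u x + v x) = l2 u + l2 v := by
  have hu0 : ∀ x, x ∉ tsupport u → u x = 0 := fun x hx => image_eq_zero_of_notMem_tsupport hx
  have hv0 : ∀ x, x ∉ tsupport v → v x = 0 := fun x hx => image_eq_zero_of_notMem_tsupport hx
  have hor : ∀ x, x ∉ tsupport u ∨ x ∉ tsupport v := fun x => by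
    by_cases hx : x ∈ tsupport u
    · exact Or.inr (Set.disjoint_left.1 h hx)
    · exact Or.inl hx
  have fd1 : ∀ x, x ∉ tsupport u → fderiv ℝ (fun y => u y + v y) x = fderiv ℝ v x :=
    fun x hx => fderiv_two hx
  have fd2 : ∀ x, x ∉ tsupport v → fderiv ℝ (fun y => u y + v y) x = fderiv ℝ u x := by
    intro x hx
    have e : (fun y => u y + v y) = fun y => v y + u y := by
      funext y
      exact add_comm _ _
    rw [e]
    exact fderiv_two hx
  refine ⟨LipC.add hu hv, ?_, ?_⟩
  · unfold en
    rw [← integral_add (LipC.integrable_en hu) (LipC.integrable_en hv)]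
    congr 1
    funext x
    rcases hor x with hx | hx
    · have z1 := d1_zero_off x hx
      have z2 := d2_zero_off x hx
      have z3 : d1 (fun y => u y + v y) x = d1 v x := by
        unfold d1
        rw [fd1 x hx]
      have z4 : d2 (fun y => u y + v y) x = d2 v x := by
        unfold d2
        rw [fd1 x hx]
      rw [z1, z2, z3, z4]
      ring
    · have z1 := d1_zero_off x hx
      have z2 := d2_zero_off x hx
      have z3 : d1 (fun y => u y + v y) x = d1 u x := by
        unfold d1
        rw [fd2 x hx]
      have z4 : d2 (fun y => u y + v y) x = d2 u x := by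
        unfold d2
        rw [fd2 x hx]
      rw [z1, z2, z3, z4]
      ring
  · unfold l2
    rw [← integral_add (LipC.integrable_sq hu) (LipC.integrable_sq hv)]
    congr 1
    funext x
    rcases hor x with hx | hx
    · have z := hu0 x hx
      dsimp only
      rw [z]
      ring
    · have z := hv0 x hx
      dsimp only
      rw [z]
      ring

/-- Sums of functions with disjoint supports. Proof. `LipC`: induction with `LipC.add`. For the
integrals: at every point `x` at most one `c ∈ C` has `x ∈ tsupport (f c)`, and `fderiv` of the sum at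
`x` is the sum of the `fderiv (f c) x` (near `x` the sum is equal to this `f c`, or to `0`), so
`(∑ d1 (f c) x)² = ∑ (d1 (f c) x)²` etc. pointwise. Then `integral_finset_sum`. (Or induction on
`C`, the case of two functions.) -/
theorem lipC_sum_disj {ι : Type*} {D : Set P} (C : Finset ι) (f : ι → P → ℝ)
    (hf : ∀ c ∈ C, LipC D (f c))
    (hd : ∀ c ∈ C, ∀ c' ∈ C, c ≠ c' → Disjoint (tsupport (f c)) (tsupport (f c'))) :
    LipC D (fun x => ∑ c ∈ C, f c x) ∧ en (fun x => ∑ c ∈ C, f c x) = ∑ c ∈ C, en (f c) ∧
    l2 (fun x => ∑ c ∈ C, f c x) = ∑ c ∈ C, l2 (f c) := by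
  classical
  have key : ∀ S : Finset ι, S ⊆ C → LipC D (fun x => ∑ c ∈ S, f c x) ∧
      en (fun x => ∑ c ∈ S, f c x) = ∑ c ∈ S, en (f c) ∧
      l2 (fun x => ∑ c ∈ S, f c x) = ∑ c ∈ S, l2 (f c) ∧
      tsupport (fun x => ∑ c ∈ S, f c x) ⊆ ⋃ c ∈ S, tsupport (f c) := by
    intro S
    induction S using Finset.induction_on with
    | empty =>
      intro _
      have e0 : (fun x : P => ∑ c ∈ (∅ : Finset ι), f c x) = 0 := by
        funext x
        rw [Finset.sum_empty]
        rfl
      rw [e0]
      refine ⟨LipC.zero D, ?_, ?_, ?_⟩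
      · rw [Finset.sum_empty]
        unfold en d1 d2
        simp
      · rw [Finset.sum_empty]
        unfold l2
        simp
      · simp [tsupport]
    | insert a S ha ih =>
      intro hS
      obtain ⟨i1, i2, i3, i4⟩ := ih ((Finset.subset_insert a S).trans hS)
      have haC : a ∈ C := hS (Finset.mem_insert_self a S)
      have e0 : (fun x : P => ∑ c ∈ insert a S, f c x) = fun x => f a x + ∑ c ∈ S, f c x := by
        funext x
        rw [Finset.sum_insert ha]
      have hdis : Disjoint (tsupport (f a)) (tsupport (fun x => ∑ c ∈ S, f c x)) := by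
        refine Disjoint.mono_right i4 ?_
        rw [Set.disjoint_iUnion₂_right]
        intro c hc
        refine hd a haC c (hS (Finset.mem_insert_of_mem hc)) ?_
        rintro rfl
        exact ha hc
      obtain ⟨j1, j2, j3⟩ := lipC_two (hf a haC) i1 hdis
      rw [e0]
      refine ⟨j1, ?_, ?_, ?_⟩
      · rw [j2, i2, Finset.sum_insert ha]
      · rw [j3, i3, Finset.sum_insert ha]
      · refine (tsupport_add (f a) (fun x => ∑ c ∈ S, f c x)).trans ?_
        rw [Finset.set_biUnion_insert]
        exact union_subset_union_right _ i4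
  obtain ⟨k1, k2, k3, -⟩ := key C (Finset.Subset.refl C)
  exact ⟨k1, k2, k3⟩

end Pool.Agent.MP4eed4eX
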