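import Pool.Agent.Lib.MP_4eed4e_an_XA.AHar
import Pool.Agent.Lib.MP_4eed4e_an_XA.AFun

set_option autoImplicit false

/-!
Project X, block MA, module ACut (M9): cutoff functions at points (points have capacity zero).
-/

namespace Pool.Agent.MP4eed4eX

open MeasureTheory Set Filter Topology Metric Pool.Agent.MP4eed4eP Pool.Agent.MP4eed4eP.PG

/-- The unclamped cutoff. -/
private noncomputable def psi (a A H : ℝ) (v y : P) : ℝ := (A - Real.log (vL a (y - v))) / H

/-- The clamped cutoff. -/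
private noncomputable def cutf (a A H : ℝ) (v y : P) : ℝ := max 0 (min 1 (psi a A H v y))

private theorem psi_lip {a : ℝ} (ha : 0 < a) (A : ℝ) {H : ℝ} (hH : 0 < H) (v : P) :
    ∃ K, LipschitzWith K (psi a A H v) := by
  obtain ⟨K, hK⟩ := logL_lip ha
  refine ⟨Real.toNNReal (K / H), LipschitzWith.of_dist_le_mul fun x y => ?_⟩
  rw [Real.coe_toNNReal _ (by positivity), Real.dist_eq]
  have e : psi a A H v x - psi a A H v y =
      -(Real.log (vL a (x - v)) - Real.log (vL a (y - v))) / H := by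
    unfold psi; ring
  rw [e, abs_div, abs_neg, abs_of_pos hH, div_mul_eq_mul_div]
  have h1 := hK.dist_le_mul (x - v) (y - v)
  rw [Real.dist_eq, dist_sub_right] at h1
  gcongr

private theorem cutf_lip {a : ℝ} (ha : 0 < a) (A : ℝ) {H : ℝ} (hH : 0 < H) (v : P) :
    ∃ K, LipschitzWith K (cutf a A H v) := by
  obtain ⟨K, hK⟩ := psi_lip ha A hH v
  exact ⟨K, (hK.const_min 1).const_max 0⟩

private theorem cutf_mem (a A H : ℝ) (v x : P) : 0 ≤ cutf a A H v x ∧ cutf a A H v x ≤ 1 :=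
  ⟨le_max_left _ _, max_le zero_le_one (min_le_left _ _)⟩

private theorem psi_grad {a : ℝ} (ha : 0 < a) (A : ℝ) {H : ℝ} (hH : 0 < H) (v x : P) :
    d1 (psi a A H v) x ^ 2 + d2 (psi a A H v) x ^ 2 ≤
      4 / H ^ 2 * (X1 a (x - v) ^ 2 + X2 a (x - v) ^ 2) := by
  obtain ⟨hd, hb⟩ := logL_grad ha (x - v)
  have hd' : DifferentiableAt ℝ (fun y : P => Real.log (vL a (y - v))) x := by
    have h2 : DifferentiableAt ℝ (fun y : P => y - v) x := differentiableAt_id.sub_const v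
    exact DifferentiableAt.comp x hd h2
  have h3 : HasFDerivAt (psi a A H v)
      ((-H⁻¹) • fderiv ℝ (fun y : P => Real.log (vL a (y - v))) x) x := by
    have h4 := (hd'.hasFDerivAt.const_mul (-H⁻¹)).const_add (A * H⁻¹)
    have e : psi a A H v = fun y => A * H⁻¹ + -H⁻¹ * Real.log (vL a (y - v)) := by
      funext y; unfold psi; ring
    rw [e]
    exact h4
  obtain ⟨e1, e2⟩ := d_trans (fun y => Real.log (vL a y)) v x
  have f1 : d1 (psi a A H v) x = -H⁻¹ * d1 (fun y => Real.log (vL a y)) (x - v) := by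
    rw [← e1]; unfold d1; rw [h3.fderiv]; rfl
  have f2 : d2 (psi a A H v) x = -H⁻¹ * d2 (fun y => Real.log (vL a y)) (x - v) := by
    rw [← e2]; unfold d2; rw [h3.fderiv]; rfl
  rw [f1, f2]
  have e3 : (-H⁻¹ * d1 (fun y => Real.log (vL a y)) (x - v)) ^ 2 +
      (-H⁻¹ * d2 (fun y => Real.log (vL a y)) (x - v)) ^ 2 =
      (H ^ 2)⁻¹ * (d1 (fun y => Real.log (vL a y)) (x - v) ^ 2 +
        d2 (fun y => Real.log (vL a y)) (x - v) ^ 2) := by
    rw [← inv_pow]; ring
  rw [e3]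
  calc (H ^ 2)⁻¹ * (d1 (fun y => Real.log (vL a y)) (x - v) ^ 2 +
        d2 (fun y => Real.log (vL a y)) (x - v) ^ 2) ≤
        (H ^ 2)⁻¹ * (4 * (X1 a (x - v) ^ 2 + X2 a (x - v) ^ 2)) := by gcongr
    _ = 4 / H ^ 2 * (X1 a (x - v) ^ 2 + X2 a (x - v) ^ 2) := by ring

private theorem cutf_grad {a : ℝ} (ha : 0 < a) (A : ℝ) {H : ℝ} (hH : 0 < H) (v x : P) :
    d1 (cutf a A H v) x ^ 2 + d2 (cutf a A H v) x ^ 2 ≤
      4 / H ^ 2 * (X1 a (x - v) ^ 2 + X2 a (x - v) ^ 2) := by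
  have hnn : 0 ≤ 4 / H ^ 2 * (X1 a (x - v) ^ 2 + X2 a (x - v) ^ 2) := by positivity
  have hz : fderiv ℝ (cutf a A H v) x = 0 →
      d1 (cutf a A H v) x ^ 2 + d2 (cutf a A H v) x ^ 2 ≤
        4 / H ^ 2 * (X1 a (x - v) ^ 2 + X2 a (x - v) ^ 2) := by
    intro h
    have f1 : d1 (cutf a A H v) x = 0 := by unfold d1; rw [h]; rfl
    have f2 : d2 (cutf a A H v) x = 0 := by unfold d2; rw [h]; rfl
    rw [f1, f2]
    simpa using hnn
  rcases le_or_gt (psi a A H v x) 0 with h0 | h0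
  · apply hz
    have hm : IsLocalMin (cutf a A H v) x := by
      refine Eventually.of_forall fun y => ?_
      have h1 : cutf a A H v x = 0 :=
        max_eq_left ((min_le_right _ _).trans h0)
      rw [h1]
      exact (cutf_mem a A H v y).1
    exact hm.fderiv_eq_zero
  rcases le_or_gt 1 (psi a A H v x) with h1 | h1
  · apply hz
    have hm : IsLocalMax (cutf a A H v) x := by
      refine Eventually.of_forall fun y => ?_
      have h2 : cutf a A H v x = 1 := by
        unfold cutf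
        rw [min_eq_left h1]
        exact max_eq_right zero_le_one
      rw [h2]
      exact (cutf_mem a A H v y).2
    exact hm.fderiv_eq_zero
  · have hc : Continuous (psi a A H v) := by
      obtain ⟨K, hK⟩ := psi_lip ha A hH v
      exact hK.continuous
    have hev : cutf a A H v =ᶠ[𝓝 x] psi a A H v := by
      filter_upwards [hc.continuousAt.eventually (lt_mem_nhds h0),
        hc.continuousAt.eventually (gt_mem_nhds h1)] with y hy0 hy1
      unfold cutf
      rw [min_eq_right hy1.le, max_eq_right hy0.le]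
    have hf : fderiv ℝ (cutf a A H v) x = fderiv ℝ (psi a A H v) x := hev.fderiv_eq
    have f1 : d1 (cutf a A H v) x = d1 (psi a A H v) x := by unfold d1; rw [hf]
    have f2 : d2 (cutf a A H v) x = d2 (psi a A H v) x := by unfold d2; rw [hf]
    rw [f1, f2]
    exact psi_grad ha A hH v x

private theorem cutf_int {a : ℝ} (ha : 0 < a) (A : ℝ) {H : ℝ} (hH : 0 < H) (v : P) {u : P → ℝ}
    (hu : LipC univ u) :
    ∫ x, u x ^ 2 * (d1 (cutf a A H v) x ^ 2 + d2 (cutf a A H v) x ^ 2) ≤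
      24 / H ^ 2 * (l2 u + en u) := by
  have hw0 := (lipC_trans hu (-v)).1
  have hw : LipC univ (fun x => u (x - -v)) := ⟨hw0.1, hw0.2.1, subset_univ _⟩
  obtain ⟨hi, hle⟩ := hardy ha hw
  obtain ⟨t1, t2⟩ := en_trans u (-v)
  rw [t1, t2] at hle
  set F : P → ℝ := fun x => u (x - -v) ^ 2 * (X1 a x ^ 2 + X2 a x ^ 2) with hF
  have hF1 : Integrable fun x => F (x - v) := hi.comp_sub_right v
  have hF2 : ∫ x, F (x - v) = ∫ x, F x := integral_sub_right_eq_self F v
  have hF3 : ∀ x, F (x - v) = u x ^ 2 * (X1 a (x - v) ^ 2 + X2 a (x - v) ^ 2) := by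
    intro x
    simp only [hF, sub_neg_eq_add, sub_add_cancel]
  calc ∫ x, u x ^ 2 * (d1 (cutf a A H v) x ^ 2 + d2 (cutf a A H v) x ^ 2) ≤
        ∫ x, 4 / H ^ 2 * F (x - v) := by
        refine integral_mono_of_nonneg (Eventually.of_forall fun x => ?_) (hF1.const_mul _)
          (Eventually.of_forall fun x => ?_)
        · simp only [Pi.zero_apply]; positivity
        · simp only [hF3]
          have h1 := cutf_grad ha A hH v x
          calc u x ^ 2 * (d1 (cutf a A H v) x ^ 2 + d2 (cutf a A H v) x ^ 2) ≤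
                u x ^ 2 * (4 / H ^ 2 * (X1 a (x - v) ^ 2 + X2 a (x - v) ^ 2)) := by gcongr
            _ = 4 / H ^ 2 * (u x ^ 2 * (X1 a (x - v) ^ 2 + X2 a (x - v) ^ 2)) := by ring
    _ = 4 / H ^ 2 * ∫ x, F x := by rw [integral_const_mul, hF2]
    _ ≤ 4 / H ^ 2 * (6 * (l2 u + en u)) := by gcongr
    _ = 24 / H ^ 2 * (l2 u + en u) := by ring

/-- Proof. `H = 5 / √ε` (so `24 / H² ≤ ε`), `A = H + log (log (e + 1/ε²))`,
`a = √(exp (- exp A) / 3)`, `η y = max 0 (min 1 ((A - log (vL a (y - v))) / H))`.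
(1) Lipschitz: `logL_lip`. (2) `dist y v ≤ a`: `vR a (y - v) ≤ 3 a² = exp (- exp A)`, so
`vL ≥ log (1 / vR) ≥ exp A`, `log vL ≥ A`, `η y = 0`; take `ρ = a`. (3) `ε ≤ dist y v`:
`vR a (y - v) ≥ ε²`, `vL ≤ log (e + 1/ε²)`, `η y = 1`. (4) At every point `y`
`d1 η y ^ 2 + d2 η y ^ 2 ≤ (4 / H²) (X1² + X2²) (y - v)` (`cutf_grad`): with
`ψ y = (A - log (vL a (y - v))) / H` (differentiable, `logL_grad`, `d_trans`): if `0 < ψ y < 1`
then `η = ψ` near `y`; otherwise `η y ∈ {0, 1}` is a minimum or maximum of `η`, so `fderiv η y = 0`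
(`IsLocalMin.fderiv_eq_zero`). So by `hardy` for `u (· + v)` (`d_trans`/`en_trans` with `s = -v`):
`∫ u² |∇η|² ≤ (4 / H²) 6 (l2 u + en u) ≤ ε (l2 u + en u)`. -/
theorem cut_point (v : P) {ε : ℝ} (hε : 0 < ε) : ∃ η : P → ℝ, (∃ K, LipschitzWith K η) ∧
    (∀ x, 0 ≤ η x ∧ η x ≤ 1) ∧ (∃ ρ > 0, ∀ x, dist x v < ρ → η x = 0) ∧
    (∀ x, ε ≤ dist x v → η x = 1) ∧
    ∀ u, LipC univ u → ∫ x, u x ^ 2 * (d1 η x ^ 2 + d2 η x ^ 2) ≤ ε * (l2 u + en u) := by
  have hs : 0 < √ε := Real.sqrt_pos.2 hε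
  have hss : √ε ^ 2 = ε := Real.sq_sqrt hε.le
  set H : ℝ := 5 / √ε with hHdef
  have hH : 0 < H := by positivity
  have hH2 : H ^ 2 = 25 / ε := by rw [hHdef, div_pow, hss]; norm_num
  set B : ℝ := Real.log (Real.exp 1 + 1 / ε ^ 2) with hB
  have hB1 : 1 ≤ B := by
    rw [hB]
    calc (1 : ℝ) = Real.log (Real.exp 1) := (Real.log_exp 1).symm
      _ ≤ Real.log (Real.exp 1 + 1 / ε ^ 2) := by
        apply Real.log_le_log (Real.exp_pos 1)
        have : 0 ≤ 1 / ε ^ 2 := by positivity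
        linarith
  set A : ℝ := H + Real.log B with hA
  set a : ℝ := √(Real.exp (-Real.exp A) / 3) with hadef
  have ha : 0 < a := Real.sqrt_pos.2 (by positivity)
  have ha2 : a ^ 2 = Real.exp (-Real.exp A) / 3 := Real.sq_sqrt (by positivity)
  refine ⟨cutf a A H v, cutf_lip ha A hH v, cutf_mem a A H v, ⟨a, ha, fun x hx => ?_⟩,
    fun x hx => ?_, fun u hu => ?_⟩
  · rw [Prod.dist_eq, max_lt_iff, Real.dist_eq, Real.dist_eq] at hx
    have h1 : (x.1 - v.1) ^ 2 ≤ a ^ 2 := by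
      rw [← sq_abs]; exact pow_le_pow_left₀ (abs_nonneg _) hx.1.le 2
    have h2 : (x.2 - v.2) ^ 2 ≤ a ^ 2 := by
      rw [← sq_abs]; exact pow_le_pow_left₀ (abs_nonneg _) hx.2.le 2
    have h3 : vR a (x - v) ≤ Real.exp (-Real.exp A) := by
      unfold vR
      simp only [Prod.fst_sub, Prod.snd_sub]
      linarith
    have hR := vR_pos ha (x - v)
    have h4 : Real.exp A ≤ vL a (x - v) := by
      unfold vL
      rw [Real.le_log_iff_exp_le (by positivity)]
      have h5 : Real.exp (Real.exp A) ≤ 1 / vR a (x - v) := by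
        rw [le_div_iff₀ hR]
        calc Real.exp (Real.exp A) * vR a (x - v) ≤
              Real.exp (Real.exp A) * Real.exp (-Real.exp A) := by gcongr
          _ = 1 := by rw [← Real.exp_add]; simp
      have := Real.exp_pos 1
      linarith
    have h6 : A ≤ Real.log (vL a (x - v)) := by
      rw [Real.le_log_iff_exp_le (lt_of_lt_of_le (Real.exp_pos A) h4)]
      exact h4
    have h7 : psi a A H v x ≤ 0 := by
      unfold psi
      exact div_nonpos_of_nonpos_of_nonneg (by linarith) hH.le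
    exact max_eq_left ((min_le_right _ _).trans h7)
  · rw [Prod.dist_eq, le_max_iff, Real.dist_eq, Real.dist_eq] at hx
    have h1 : ε ^ 2 ≤ vR a (x - v) := by
      unfold vR
      simp only [Prod.fst_sub, Prod.snd_sub]
      rcases hx with hx | hx
      · have h2 : ε ^ 2 ≤ (x.1 - v.1) ^ 2 := by
          rw [← sq_abs (x.1 - v.1)]; exact pow_le_pow_left₀ hε.le hx 2
        nlinarith [sq_nonneg (x.2 - v.2), sq_nonneg a]
      · have h2 : ε ^ 2 ≤ (x.2 - v.2) ^ 2 := by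
          rw [← sq_abs (x.2 - v.2)]; exact pow_le_pow_left₀ hε.le hx 2
        nlinarith [sq_nonneg (x.1 - v.1), sq_nonneg a]
    have hL1 := one_le_vL ha (x - v)
    have hR := vR_pos ha (x - v)
    have h3 : vL a (x - v) ≤ B := by
      unfold vL
      rw [hB]
      apply Real.log_le_log (by positivity)
      gcongr
    have h4 : Real.log (vL a (x - v)) ≤ Real.log B :=
      Real.log_le_log (by linarith) h3
    have h5 : 1 ≤ psi a A H v x := by
      unfold psi
      rw [le_div_iff₀ hH]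
      linarith
    unfold cutf
    rw [min_eq_left h5]
    exact max_eq_right zero_le_one
  · refine (cutf_int ha A hH v hu).trans ?_
    have h1 : 24 / H ^ 2 ≤ ε := by
      rw [hH2]
      have : 24 / (25 / ε) = 24 / 25 * ε := by field_simp
      rw [this]; linarith
    have h2 : 0 ≤ l2 u + en u := add_nonneg (l2_nonneg u) (en_nonneg u)
    gcongr

/-- The weighted energy density is integrable. -/
private theorem dens_int {u η : P → ℝ} (hu : LipC univ u) (hη : ∃ K, LipschitzWith K η) :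
    Integrable (fun x => u x ^ 2 * (d1 η x ^ 2 + d2 η x ^ 2)) := by
  obtain ⟨K, hK⟩ := hη
  have hcont := LipC.cont hu
  obtain ⟨M, hM⟩ := hu.2.1.exists_bound_of_continuous hcont
  have hM' : ∀ x, |u x| ≤ M := fun x => by rw [← Real.norm_eq_abs]; exact hM x
  refine integrable_of_bound ((hcont.measurable.pow_const 2).mul
    (((measurable_d1 η).pow_const 2).add ((measurable_d2 η).pow_const 2))) hu.2.1
    (fun x hx => ?_) (C := M ^ 2 * (2 * (K : ℝ) ^ 2)) fun x => ?_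
  · rw [image_eq_zero_of_notMem_tsupport hx]; ring
  · have h1 := fderiv_bound hK x (1, 0)
    have h2 := fderiv_bound hK x (0, 1)
    have n1 : ‖((1 : ℝ), (0 : ℝ))‖ = 1 := by simp [Prod.norm_def]
    have n2 : ‖((0 : ℝ), (1 : ℝ))‖ = 1 := by simp [Prod.norm_def]
    rw [n1, mul_one] at h1
    rw [n2, mul_one] at h2
    have h3 : d1 η x ^ 2 ≤ (K : ℝ) ^ 2 := by
      rw [← sq_abs]; exact pow_le_pow_left₀ (abs_nonneg _) h1 2
    have h4 : d2 η x ^ 2 ≤ (K : ℝ) ^ 2 := by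
      rw [← sq_abs]; exact pow_le_pow_left₀ (abs_nonneg _) h2 2
    have h5 : u x ^ 2 ≤ M ^ 2 := by
      rw [← sq_abs]; exact pow_le_pow_left₀ (abs_nonneg _) (hM' x) 2
    rw [abs_of_nonneg (by positivity)]
    exact mul_le_mul h5 (by linarith) (by positivity) (by positivity)

private theorem mul_lip {f g : P → ℝ} (hf : ∃ K, LipschitzWith K f) (hg : ∃ K, LipschitzWith K g)
    (hf1 : ∀ x, 0 ≤ f x ∧ f x ≤ 1) (hg1 : ∀ x, 0 ≤ g x ∧ g x ≤ 1) :
    ∃ K, LipschitzWith K (fun x => f x * g x) := by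
  obtain ⟨K, hK⟩ := hf
  obtain ⟨L, hL⟩ := hg
  refine ⟨L + K, LipschitzWith.of_dist_le_mul fun x y => ?_⟩
  rw [Real.dist_eq, NNReal.coe_add, add_mul]
  have e : f x * g x - f y * g y = f x * (g x - g y) + g y * (f x - f y) := by ring
  rw [e]
  refine (abs_add_le _ _).trans ?_
  rw [abs_mul, abs_mul, abs_of_nonneg (hf1 x).1, abs_of_nonneg (hg1 y).1]
  have h1 : |g x - g y| ≤ L * dist x y := by rw [← Real.dist_eq]; exact hL.dist_le_mul x y
  have h2 : |f x - f y| ≤ K * dist x y := by rw [← Real.dist_eq]; exact hK.dist_le_mul x y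
  have h3 : f x * |g x - g y| ≤ 1 * (L * dist x y) :=
    mul_le_mul (hf1 x).2 h1 (abs_nonneg _) zero_le_one
  have h4 : g y * |f x - f y| ≤ 1 * (K * dist x y) :=
    mul_le_mul (hg1 y).2 h2 (abs_nonneg _) zero_le_one
  linarith

private theorem sq_aux {p q s t : ℝ} (hp : 0 ≤ p ∧ p ≤ 1) (hq : 0 ≤ q ∧ q ≤ 1) :
    (p * s + q * t) ^ 2 ≤ 2 * s ^ 2 + 2 * t ^ 2 := by
  have h1 : (p * s) ^ 2 ≤ s ^ 2 := by
    rw [mul_pow]
    have : p ^ 2 ≤ 1 := pow_le_one₀ hp.1 hp.2
    nlinarith [sq_nonneg s]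
  have h2 : (q * t) ^ 2 ≤ t ^ 2 := by
    rw [mul_pow]
    have : q ^ 2 ≤ 1 := pow_le_one₀ hq.1 hq.2
    nlinarith [sq_nonneg t]
  nlinarith [sq_nonneg (p * s - q * t)]

private theorem mul_grad {f g : P → ℝ} {x : P} (hf : DifferentiableAt ℝ f x)
    (hg : DifferentiableAt ℝ g x) (hf1 : 0 ≤ f x ∧ f x ≤ 1) (hg1 : 0 ≤ g x ∧ g x ≤ 1) :
    d1 (fun y => f y * g y) x ^ 2 + d2 (fun y => f y * g y) x ^ 2 ≤
      2 * (d1 g x ^ 2 + d2 g x ^ 2) + 2 * (d1 f x ^ 2 + d2 f x ^ 2) := by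
  have h : fderiv ℝ (fun y => f y * g y) x = f x • fderiv ℝ g x + g x • fderiv ℝ f x :=
    fderiv_fun_mul hf hg
  have e1 : d1 (fun y => f y * g y) x = f x * d1 g x + g x * d1 f x := by
    unfold d1; rw [h]; rfl
  have e2 : d2 (fun y => f y * g y) x = f x * d2 g x + g x * d2 f x := by
    unfold d2; rw [h]; rfl
  rw [e1, e2]
  have h1 := sq_aux (s := d1 g x) (t := d1 f x) hf1 hg1
  have h2 := sq_aux (s := d2 g x) (t := d2 f x) hf1 hg1
  linarith

private theorem mul_int {f g u : P → ℝ} (hf : ∃ K, LipschitzWith K f)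
    (hg : ∃ K, LipschitzWith K g) (hf1 : ∀ x, 0 ≤ f x ∧ f x ≤ 1) (hg1 : ∀ x, 0 ≤ g x ∧ g x ≤ 1)
    (hu : LipC univ u) :
    ∫ x, u x ^ 2 * (d1 (fun y => f y * g y) x ^ 2 + d2 (fun y => f y * g y) x ^ 2) ≤
      2 * (∫ x, u x ^ 2 * (d1 g x ^ 2 + d2 g x ^ 2)) +
      2 * (∫ x, u x ^ 2 * (d1 f x ^ 2 + d2 f x ^ 2)) := by
  have hif := dens_int hu hf
  have hig := dens_int hu hg
  rw [← integral_const_mul, ← integral_const_mul,
    ← integral_add (hig.const_mul 2) (hif.const_mul 2)]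
  obtain ⟨K, hK⟩ := hf
  obtain ⟨L, hL⟩ := hg
  refine integral_mono_of_nonneg (Eventually.of_forall fun x => ?_)
    ((hig.const_mul 2).add (hif.const_mul 2)) ?_
  · simp only [Pi.zero_apply]; positivity
  · filter_upwards [hK.ae_differentiableAt, hL.ae_differentiableAt] with x hx hy
    have h1 := mul_grad hx hy (hf1 x) (hg1 x)
    calc u x ^ 2 * (d1 (fun y => f y * g y) x ^ 2 + d2 (fun y => f y * g y) x ^ 2) ≤
          u x ^ 2 * (2 * (d1 g x ^ 2 + d2 g x ^ 2) + 2 * (d1 f x ^ 2 + d2 f x ^ 2)) := by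
          gcongr
      _ = 2 * (u x ^ 2 * (d1 g x ^ 2 + d2 g x ^ 2)) +
          2 * (u x ^ 2 * (d1 f x ^ 2 + d2 f x ^ 2)) := by ring

/-- Cutoff functions at finitely many points. Proof. Induction on `W` (`Finset.induction_on`), for
all `ε`. `W = ∅`: `η = 1`. Step: `η = η₁ η₂` with `η₁` of `cut_point w` and `η₂` of the induction
hypothesis for `ε / 4`. Lipschitz (bounded factors). Almost everywhere (where both are differentiable)
`∇η = η₁ ∇η₂ + η₂ ∇η₁`, so `|∇η|² ≤ 2 |∇η₁|² + 2 |∇η₂|²`. Integrability: the integrands are bounded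
(`fderiv_bound`) and vanish outside `tsupport u` (`integrable_of_bound`). -/
theorem cut_finset (W : Finset P) {ε : ℝ} (hε : 0 < ε) : ∃ η : P → ℝ, (∃ K, LipschitzWith K η) ∧
    (∀ x, 0 ≤ η x ∧ η x ≤ 1) ∧ (∃ ρ > 0, ∀ x, (∃ w ∈ W, dist x w < ρ) → η x = 0) ∧
    (∀ x, (∀ w ∈ W, ε ≤ dist x w) → η x = 1) ∧
    ∀ u, LipC univ u → ∫ x, u x ^ 2 * (d1 η x ^ 2 + d2 η x ^ 2) ≤ ε * (l2 u + en u) := by
  classical
  induction W using Finset.induction_on generalizing ε with
  | empty =>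
    refine ⟨fun _ => 1, ⟨0, LipschitzWith.const 1⟩, fun _ => ⟨zero_le_one, le_rfl⟩,
      ⟨1, one_pos, fun x hx => ?_⟩, fun _ _ => rfl, fun u _ => ?_⟩
    · obtain ⟨w, hw, -⟩ := hx
      exact absurd hw (Finset.notMem_empty w)
    · have h1 : ∀ x : P, u x ^ 2 * (d1 (fun _ => (1 : ℝ)) x ^ 2 +
          d2 (fun _ => (1 : ℝ)) x ^ 2) = 0 := by
        intro x
        unfold d1 d2
        simp
      simp only [h1, integral_zero]
      have := l2_nonneg u
      have := en_nonneg u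
      positivity
  | insert w W hw ih =>
    obtain ⟨f, hf, hf1, ⟨r, hr, hf0⟩, hff, hfi⟩ := cut_point w (ε := ε / 4) (by positivity)
    obtain ⟨g, hg, hg1, ⟨s, hs, hg0⟩, hgg, hgi⟩ := ih (ε := ε / 4) (by positivity)
    refine ⟨fun x => f x * g x, mul_lip hf hg hf1 hg1, fun x => ?_,
      ⟨min r s, lt_min hr hs, fun x hx => ?_⟩, fun x hx => ?_, fun u hu => ?_⟩
    · exact ⟨mul_nonneg (hf1 x).1 (hg1 x).1,
        mul_le_one₀ (hf1 x).2 (hg1 x).1 (hg1 x).2⟩
    · obtain ⟨z, hz, hd⟩ := hx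
      rcases Finset.mem_insert.1 hz with rfl | hz
      · simp only [hf0 x (hd.trans_le (min_le_left _ _)), zero_mul]
      · simp only [hg0 x ⟨z, hz, hd.trans_le (min_le_right _ _)⟩, mul_zero]
    · have h1 : f x = 1 := hff x (by
        have := hx w (Finset.mem_insert_self w W)
        linarith)
      have h2 : g x = 1 := hgg x fun z hz => by
        have := hx z (Finset.mem_insert_of_mem hz)
        linarith
      simp only [h1, h2, mul_one]
    · have h1 := mul_int hf hg hf1 hg1 hu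
      have h2 := hfi u hu
      have h3 := hgi u hu
      linarith

end Pool.Agent.MP4eed4eX
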