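import Pool.Agent.Lib.MP_4eed4e_an_XA.APar

set_option autoImplicit false

/-!
Project X, block MA, module AStr: Poincare inequality in a strip about a curve of zeros.
-/

namespace Pool.Agent.MP4eed4eX

open MeasureTheory Set Filter Topology Metric Pool.Agent.MP4eed4eP Pool.Agent.MP4eed4eP.PG

private theorem str_meas {I : Set ℝ} (hI : MeasurableSet I) {g : ℝ → ℝ} (hg : Measurable g)
    (a : ℝ) : MeasurableSet {x : P | x.1 ∈ I ∧ |x.2 - g x.1| ≤ a} := by
  refine (hI.preimage measurable_fst).inter ?_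
  exact measurableSet_le (measurable_snd.sub (hg.comp measurable_fst)).abs measurable_const

private theorem int_d2 {u : P → ℝ} (hu : LipC univ u) : Integrable (fun x => d2 u x ^ 2) := by
  obtain ⟨K, hK⟩ := hu.1
  refine integrable_of_bound ((measurable_d2 u).pow_const 2) hu.2.1 (fun x hx => ?_)
    (C := (K : ℝ) ^ 2) fun x => ?_
  · rw [d2_zero_off x hx]; ring
  · have h2 := fderiv_bound hK x (0, 1)
    have n2 : ‖((0 : ℝ), (1 : ℝ))‖ = 1 := by simp [Prod.norm_def]
    rw [n2, mul_one] at h2
    rw [abs_pow]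
    exact pow_le_pow_left₀ (abs_nonneg _) h2 2

/-- Proof. Fubini (`Measure.volume_eq_prod`, `setIntegral`/`indicator` and `integral_prod`): the
left side is `∫_{t ∈ I} ∫_{|y - g t| ≤ a} u (t, y) ^ 2 dy dt`, which is at most
`∫_{t ∈ I} a² ∫_{|y - g t| ≤ a} (deriv (u (t, ·)) y)² dy dt`
(`one_dim` for `w = fun y => u (t, y)`, `s = g t`) and for almost all `t`, for almost all `y`:
`deriv (fun y => u (t, y)) y = d2 u (t, y)` (`ae_partial`, `Measure.ae_ae_of_ae_prod`). So it is
`≤ a² ∫ (d2 u)² ≤ a² en u`. All functions are bounded, measurable (`measurable_d2`) and vanish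
outside the compact set `tsupport u`. The set is measurable: `g` is measurable. -/
theorem strip_vert {u : P → ℝ} (hu : LipC univ u) {I : Set ℝ} (hI : MeasurableSet I) {g : ℝ → ℝ}
    (hg : Measurable g) {a : ℝ} (ha : 0 ≤ a) (h0 : ∀ t ∈ I, u (t, g t) = 0) :
    ∫ x in {x : P | x.1 ∈ I ∧ |x.2 - g x.1| ≤ a}, u x ^ 2 ≤ a ^ 2 * en u := by
  obtain ⟨K, hK⟩ := hu.1
  set S : Set P := {x : P | x.1 ∈ I ∧ |x.2 - g x.1| ≤ a} with hS
  have hSm : MeasurableSet S := str_meas hI hg a
  have hi1 : Integrable (fun x => u x ^ 2) := LipC.integrable_sq hu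
  have hi2 : Integrable (fun x => d2 u x ^ 2) := int_d2 hu
  have hi3 : Integrable (S.indicator fun x => u x ^ 2) := hi1.indicator hSm
  rw [Measure.volume_eq_prod] at hi2 hi3
  have e1 : ∫ x, S.indicator (fun x => u x ^ 2) x =
      ∫ t, ∫ y, S.indicator (fun x => u x ^ 2) (t, y) := integral_prod _ hi3
  have e2 : ∫ x, d2 u x ^ 2 = ∫ t, ∫ y, d2 u (t, y) ^ 2 := integral_prod _ hi2
  have e3 : ∫ x, d2 u x ^ 2 ≤ en u := by
    refine integral_mono (int_d2 hu) (LipC.integrable_en hu) fun x => ?_
    have := sq_nonneg (d1 u x)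
    show d2 u x ^ 2 ≤ d1 u x ^ 2 + d2 u x ^ 2
    linarith
  have hae : ∀ᵐ t : ℝ, ∀ᵐ y : ℝ, deriv (fun y => u (t, y)) y = d2 u (t, y) := by
    have h := ae_partial hu.1
    rw [Measure.volume_eq_prod] at h
    filter_upwards [Measure.ae_ae_of_ae_prod h] with t ht
    filter_upwards [ht] with y hy
    exact hy.2.deriv
  have hpr : ∀ᵐ t : ℝ, Integrable (fun y => d2 u (t, y) ^ 2) := hi2.prod_right_ae
  calc ∫ x in S, u x ^ 2 = ∫ x, S.indicator (fun x => u x ^ 2) x :=
        (integral_indicator hSm).symm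
    _ = ∫ t, ∫ y, S.indicator (fun x => u x ^ 2) (t, y) := e1
    _ ≤ ∫ t, a ^ 2 * ∫ y, d2 u (t, y) ^ 2 := by
        refine integral_mono_ae hi3.integral_prod_left (hi2.integral_prod_left.const_mul _) ?_
        filter_upwards [hae, hpr] with t ht htr
        by_cases htI : t ∈ I
        · have e : (fun y => S.indicator (fun x => u x ^ 2) (t, y)) =
              (Icc (g t - a) (g t + a)).indicator (fun y => u (t, y) ^ 2) := by
            funext y
            by_cases hy : |y - g t| ≤ a
            · rw [indicator_of_mem (show (t, y) ∈ S from ⟨htI, hy⟩), indicator_of_mem]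
              rw [abs_le] at hy
              exact ⟨by linarith [hy.1], by linarith [hy.2]⟩
            · rw [indicator_of_notMem (fun h => hy h.2), indicator_of_notMem]
              intro h
              exact hy (abs_le.2 ⟨by linarith [h.1], by linarith [h.2]⟩)
          have h1 := one_dim (w := fun y => u (t, y)) (s := g t) (a := a)
            ⟨K * 1, hK.comp (LipschitzWith.prodMk_left t)⟩ ha (h0 t htI)
          have h2 : ∫ y in Icc (g t - a) (g t + a), deriv (fun y => u (t, y)) y ^ 2 =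
              ∫ y in Icc (g t - a) (g t + a), d2 u (t, y) ^ 2 := by
            refine integral_congr_ae (ae_restrict_of_ae ?_)
            filter_upwards [ht] with y hy
            rw [hy]
          have h3 : ∫ y in Icc (g t - a) (g t + a), d2 u (t, y) ^ 2 ≤ ∫ y, d2 u (t, y) ^ 2 :=
            setIntegral_le_integral htr (Eventually.of_forall fun y => sq_nonneg _)
          show ∫ y, S.indicator (fun x => u x ^ 2) (t, y) ≤ a ^ 2 * ∫ y, d2 u (t, y) ^ 2
          rw [e, integral_indicator measurableSet_Icc]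
          rw [h2] at h1
          exact h1.trans (mul_le_mul_of_nonneg_left h3 (sq_nonneg a))
        · have e : ∀ y, S.indicator (fun x => u x ^ 2) (t, y) = 0 := fun y =>
            indicator_of_notMem (fun h => htI h.1) _
          show ∫ y, S.indicator (fun x => u x ^ 2) (t, y) ≤ a ^ 2 * ∫ y, d2 u (t, y) ^ 2
          simp only [e, integral_zero]
          exact mul_nonneg (sq_nonneg a) (integral_nonneg fun y => sq_nonneg _)
    _ = a ^ 2 * ∫ x, d2 u x ^ 2 := by rw [integral_const_mul, e2]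
    _ ≤ a ^ 2 * en u := mul_le_mul_of_nonneg_left e3 (sq_nonneg a)

private theorem fderiv_swap (u : P → ℝ) (x v : P) :
    fderiv ℝ (fun y : P => u y.swap) x v = fderiv ℝ u x.swap v.swap := by
  have h : (fun y : P => u y.swap) = u ∘ (ContinuousLinearEquiv.prodComm ℝ ℝ ℝ) := rfl
  rw [h, ContinuousLinearEquiv.comp_right_fderiv]
  rfl

private theorem int_swap (f : P → ℝ) : ∫ x : P, f x.swap = ∫ x, f x := by
  have h := integral_prod_swap (μ := (volume : Measure ℝ)) (ν := (volume : Measure ℝ)) f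
  exact h

private theorem en_swap (u : P → ℝ) : en (fun y : P => u y.swap) = en u := by
  unfold en
  rw [← int_swap]
  refine integral_congr_ae (Eventually.of_forall fun x => ?_)
  simp only [d1, d2, fderiv_swap, Prod.swap_swap, Prod.swap_prod_mk]
  ring

private theorem lipC_swap {u : P → ℝ} (hu : LipC univ u) :
    LipC univ (fun y : P => u y.swap) := by
  obtain ⟨⟨K, hK⟩, hc, _⟩ := hu
  refine ⟨⟨K, ?_⟩, ?_, subset_univ _⟩
  · refine LipschitzWith.of_dist_le_mul fun x y => ?_
    refine (hK.dist_le_mul _ _).trans (le_of_eq ?_)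
    rw [Prod.dist_eq, Prod.dist_eq, max_comm]
    rfl
  · exact hc.comp_homeomorph (Homeomorph.prodComm ℝ ℝ)

/-- The same with exchanged coordinates. Proof. Repeat the proof with `integral_prod_symm`, or apply
`strip_vert` to `u ∘ Prod.swap` (`Measure.prod_swap`, `en (u ∘ Prod.swap) = en u`). -/
theorem strip_hor {u : P → ℝ} (hu : LipC univ u) {I : Set ℝ} (hI : MeasurableSet I) {g : ℝ → ℝ}
    (hg : Measurable g) {a : ℝ} (ha : 0 ≤ a) (h0 : ∀ t ∈ I, u (g t, t) = 0) :
    ∫ x in {x : P | x.2 ∈ I ∧ |x.1 - g x.2| ≤ a}, u x ^ 2 ≤ a ^ 2 * en u := by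
  have h := strip_vert (lipC_swap hu) hI hg ha h0
  rw [en_swap] at h
  refine le_trans (le_of_eq ?_) h
  have hm1 : MeasurableSet {x : P | x.1 ∈ I ∧ |x.2 - g x.1| ≤ a} := str_meas hI hg a
  have hm2 : MeasurableSet {x : P | x.2 ∈ I ∧ |x.1 - g x.2| ≤ a} :=
    hm1.preimage measurable_swap
  rw [← integral_indicator hm1, ← integral_indicator hm2, ← int_swap]
  rfl

end Pool.Agent.MP4eed4eX
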