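import Pool.Agent.Lib.MP_4eed4e_an_X.XPub
import Pool.Agent.Lib.MP_4eed4e_an_XA.AStr

set_option autoImplicit false

/-!
Project X, block MA, module AFar (M7): the mass far from the vertices is small.
-/

namespace Pool.Agent.MP4eed4eX

open MeasureTheory Set Filter Topology Metric Pool.Agent.MP4eed4eP Pool.Agent.MP4eed4eP.PG

/-- The strip about the segment `[a, b]` in the direction of the steeper coordinate axis. -/
noncomputable def Strip (a b : P) (δ : ℝ) : Set P :=
  if |b.2 - a.2| ≤ |b.1 - a.1| then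
    {x | x.1 ∈ uIcc a.1 b.1 ∧ |x.2 - (a.2 + (x.1 - a.1) * ((b.2 - a.2) / (b.1 - a.1)))| ≤ 2 * δ}
  else
    {x | x.2 ∈ uIcc a.2 b.2 ∧ |x.1 - (a.1 + (x.2 - a.2) * ((b.1 - a.1) / (b.2 - a.2)))| ≤ 2 * δ}

theorem measurableSet_Strip (a b : P) (δ : ℝ) : MeasurableSet (Strip a b δ) := by
  unfold Strip
  split_ifs with h
  · have h1 : IsClosed {x : P | x.1 ∈ uIcc a.1 b.1} := isClosed_Icc.preimage continuous_fst
    have h2 : IsClosed {x : P |
        |x.2 - (a.2 + (x.1 - a.1) * ((b.2 - a.2) / (b.1 - a.1)))| ≤ 2 * δ} :=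
      isClosed_le (by fun_prop) continuous_const
    exact (h1.inter h2).measurableSet
  · have h1 : IsClosed {x : P | x.2 ∈ uIcc a.2 b.2} := isClosed_Icc.preimage continuous_snd
    have h2 : IsClosed {x : P |
        |x.1 - (a.1 + (x.2 - a.2) * ((b.1 - a.1) / (b.2 - a.2)))| ≤ 2 * δ} :=
      isClosed_le (by fun_prop) continuous_const
    exact (h1.inter h2).measurableSet

private theorem afar_ne1 {a b : P} (hab : a ≠ b) (h : |b.2 - a.2| ≤ |b.1 - a.1|) :
    b.1 - a.1 ≠ 0 := by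
  intro h1
  rw [h1, abs_zero] at h
  have h2 : b.2 - a.2 = 0 := abs_eq_zero.1 (le_antisymm h (abs_nonneg _))
  exact hab (Prod.ext (by linarith) (by linarith))

private theorem afar_ne2 {a b : P} (h : ¬ |b.2 - a.2| ≤ |b.1 - a.1|) : b.2 - a.2 ≠ 0 := by
  intro h1
  rw [h1, abs_zero] at h
  exact h (abs_nonneg _)

/-- Proof. Case `|b.2 - a.2| ≤ |b.1 - a.1|` (so `a.1 ≠ b.1`): `strip_vert` with `I = uIcc a.1 b.1`
and `g t = a.2 + (t - a.1) * ((b.2 - a.2) / (b.1 - a.1))`; for `t ∈ I` the point `(t, g t)` is in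
the segment (`t = (1 - τ) a.1 + τ b.1`), so `u = 0` there. Other case: `strip_hor`. -/
theorem strip_mass {u : P → ℝ} (hu : LipC univ u) {a b : P} (hab : a ≠ b) {δ : ℝ} (hδ : 0 ≤ δ)
    (h0 : ∀ x ∈ segment ℝ a b, u x = 0) :
    ∫ x in Strip a b δ, u x ^ 2 ≤ (2 * δ) ^ 2 * en u := by
  unfold Strip
  split_ifs with h
  · have hne := afar_ne1 hab h
    refine strip_vert hu (I := uIcc a.1 b.1) measurableSet_uIcc
      (g := fun t => a.2 + (t - a.1) * ((b.2 - a.2) / (b.1 - a.1))) (by fun_prop) (by linarith)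
      fun t ht => h0 _ ?_
    rw [← segment_eq_uIcc] at ht
    obtain ⟨α, β, hα, hβ, hαβ, rfl⟩ := ht
    refine ⟨α, β, hα, hβ, hαβ, Prod.ext rfl ?_⟩
    change α * a.2 + β * b.2 = a.2 + (α * a.1 + β * b.1 - a.1) * ((b.2 - a.2) / (b.1 - a.1))
    have h1 : α = 1 - β := by linarith
    subst h1
    field_simp
    ring
  · have hne := afar_ne2 h
    refine strip_hor hu (I := uIcc a.2 b.2) measurableSet_uIcc
      (g := fun t => a.1 + (t - a.2) * ((b.1 - a.1) / (b.2 - a.2))) (by fun_prop) (by linarith)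
      fun t ht => h0 _ ?_
    rw [← segment_eq_uIcc] at ht
    obtain ⟨α, β, hα, hβ, hαβ, rfl⟩ := ht
    refine ⟨α, β, hα, hβ, hαβ, Prod.ext ?_ rfl⟩
    change α * a.1 + β * b.1 = a.1 + (α * a.2 + β * b.2 - a.2) * ((b.1 - a.1) / (b.2 - a.2))
    have h1 : α = 1 - β := by linarith
    subst h1
    field_simp
    ring

/-- One coordinate. -/
private theorem afar_uIcc {a b α β s δ : ℝ} (hα : 0 ≤ α) (hβ : 0 ≤ β) (hαβ : α + β = 1)
    (hδ1 : δ ≤ 1) (h1 : 1 ≤ β * |b - a|) (h2 : 1 ≤ α * |b - a|)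
    (hs : |s - (α * a + β * b)| ≤ δ) : s ∈ uIcc a b := by
  have hα1 : α = 1 - β := by linarith
  subst hα1
  rw [abs_le] at hs
  rw [Set.mem_uIcc]
  rcases le_total a b with h | h
  · rw [abs_of_nonneg (sub_nonneg.2 h)] at h1 h2
    left
    constructor <;> nlinarith [hs.1, hs.2]
  · rw [abs_of_nonpos (sub_nonpos.2 h)] at h1 h2
    right
    constructor <;> nlinarith [hs.1, hs.2]

private theorem afar_slope {p q s y δ : ℝ} (hne : q ≠ 0) (hpq : |p| ≤ |q|) (h : |s - y| ≤ δ) :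
    |(s - y) * (p / q)| ≤ δ := by
  rw [abs_mul, abs_div]
  have h1 : |p| / |q| ≤ 1 := by
    rw [div_le_one (abs_pos.2 hne)]
    exact hpq
  exact (mul_le_of_le_one_right (abs_nonneg _) h1).trans h

/-- Proof. Let `|b.2 - a.2| ≤ |b.1 - a.1|`, `y = (1 - τ) a + τ b`. `1 ≤ dist y a = τ |b.1 - a.1|`
and `1 ≤ dist y b = (1 - τ) |b.1 - a.1|` (sup norm, the first coordinate dominates), so
`|x.1 - y.1| ≤ δ ≤ 1` implies `x.1 ∈ uIcc a.1 b.1`; the slope is at most `1` in absolute value, and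
`y.2 = g y.1`, so `|x.2 - g x.1| ≤ |x.2 - y.2| + |g y.1 - g x.1| ≤ 2 δ`. -/
theorem mem_Strip {a b x y : P} (hab : a ≠ b) {δ : ℝ} (hδ1 : δ ≤ 1) (hy : y ∈ segment ℝ a b)
    (hxy : dist x y ≤ δ) (ha : 1 ≤ dist y a) (hb : 1 ≤ dist y b) : x ∈ Strip a b δ := by
  obtain ⟨α, β, hα, hβ, hαβ, rfl⟩ := hy
  have hx : |x.1 - (α * a.1 + β * b.1)| ≤ δ ∧ |x.2 - (α * a.2 + β * b.2)| ≤ δ := by
    have h1 := max_le_iff.1 hxy
    exact ⟨h1.1, h1.2⟩
  have e1 : (α • a + β • b) - a = β • (b - a) := by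
    have h1 : α = 1 - β := by linarith
    subst h1
    module
  have e2 : (α • a + β • b) - b = -(α • (b - a)) := by
    have h1 : β = 1 - α := by linarith
    subst h1
    module
  rw [dist_eq_norm, e1, norm_smul, Real.norm_of_nonneg hβ, Prod.norm_def] at ha
  rw [dist_eq_norm, e2, norm_neg, norm_smul, Real.norm_of_nonneg hα, Prod.norm_def] at hb
  have ha' : 1 ≤ β * max |b.1 - a.1| |b.2 - a.2| := ha
  have hb' : 1 ≤ α * max |b.1 - a.1| |b.2 - a.2| := hb
  unfold Strip
  split_ifs with h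
  · have hne := afar_ne1 hab h
    rw [max_eq_left h] at ha' hb'
    refine ⟨afar_uIcc hα hβ hαβ hδ1 ha' hb' hx.1, ?_⟩
    have h1 : x.2 - (a.2 + (x.1 - a.1) * ((b.2 - a.2) / (b.1 - a.1))) =
        (x.2 - (α * a.2 + β * b.2)) -
          (x.1 - (α * a.1 + β * b.1)) * ((b.2 - a.2) / (b.1 - a.1)) := by
      have h2 : α = 1 - β := by linarith
      subst h2
      field_simp
      ring
    rw [h1]
    have h2 := afar_slope hne h hx.1
    have h3 := abs_sub (x.2 - (α * a.2 + β * b.2))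
      ((x.1 - (α * a.1 + β * b.1)) * ((b.2 - a.2) / (b.1 - a.1)))
    linarith [hx.2]
  · have hne := afar_ne2 h
    have h' : |b.1 - a.1| ≤ |b.2 - a.2| := (not_le.1 h).le
    rw [max_eq_right h'] at ha' hb'
    refine ⟨afar_uIcc hα hβ hαβ hδ1 ha' hb' hx.2, ?_⟩
    have h1 : x.1 - (a.1 + (x.2 - a.2) * ((b.1 - a.1) / (b.2 - a.2))) =
        (x.1 - (α * a.1 + β * b.1)) -
          (x.2 - (α * a.2 + β * b.2)) * ((b.1 - a.1) / (b.2 - a.2)) := by
      have h2 : α = 1 - β := by linarith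
      subst h2
      field_simp
      ring
    rw [h1]
    have h2 := afar_slope hne h' hx.2
    have h3 := abs_sub (x.1 - (α * a.1 + β * b.1))
      ((x.2 - (α * a.2 + β * b.2)) * ((b.1 - a.1) / (b.2 - a.2)))
    linarith [hx.1]

/-- A segment from a point of `D` to a point outside meets the frontier. -/
private theorem afar_frontier {D : Set P} {x y : P} (hx : x ∈ D) (hy : y ∉ D) :
    ∃ z ∈ segment ℝ x y, z ∈ frontier D := by
  by_contra hcon
  push Not at hcon
  have h1 : ∀ z ∈ segment ℝ x y, z ∈ interior D ∨ z ∈ (closure D)ᶜ := by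
    intro z hz
    have h2 := hcon z hz
    by_contra h3
    push Not at h3
    exact h2 ⟨not_not.1 h3.2, h3.1⟩
  have hx1 : x ∈ interior D := (h1 x (left_mem_segment ℝ x y)).resolve_right
    fun h => h (subset_closure hx)
  have hy1 : y ∈ (closure D)ᶜ := (h1 y (right_mem_segment ℝ x y)).resolve_left
    fun h => hy (interior_subset h)
  obtain ⟨z, -, h4, h5⟩ := (convex_segment x y).isPreconnected (interior D) (closure D)ᶜ
    isOpen_interior isClosed_closure.isOpen_compl h1 ⟨x, left_mem_segment ℝ x y, hx1⟩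
    ⟨y, right_mem_segment ℝ x y, hy1⟩
  exact h5 (interior_subset_closure h4)

/-- Proof. Let `x ∈ D` with `R + 1 ≤ dist x (p i)` for all `i`. By `hthin` there is `z ∉ D` with
`dist z x < δ`; the segment `[x, z]` contains a point `y` of `frontier D = Gr p E` (`hF.fr`), with
`dist x y ≤ δ`. `y` is no vertex, so it is in `segment (p e.1) (p e.2)` for some `e ∈ E`, and
`dist y (p i) ≥ R + 1 - δ ≥ 1`. So `x ∈ Strip (p e.1) (p e.2) δ` by `mem_Strip` (`p e.1 ≠ p e.2` by
`hF.slg.lt`, `hF.slg.inj`). Outside `D` we have `u = 0`. So the integral is at most the sum over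
`e ∈ E` of the integrals over the strips, and `strip_mass` applies, because `u = 0` on `frontier D`
(`D` is open). -/
theorem far_mass {n : ℕ} {D : Set P} {p : Fin n → P} {E : Finset (Fin n × Fin n)} (hF : Fig D p E)
    {δ R : ℝ} (hδ : 0 < δ) (hδ1 : δ ≤ 1) (hR : 1 ≤ R)
    (hthin : ∀ x, (∀ i, R ≤ dist x (p i)) → ¬ ball x δ ⊆ D) {u : P → ℝ} (hu : LipC D u) :
    ∫ x in {x : P | ∀ i, R + 1 ≤ dist x (p i)}, u x ^ 2 ≤ E.card * (2 * δ) ^ 2 * en u := by
  have hzero : ∀ x, x ∉ D → u x = 0 := fun x hx =>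
    image_eq_zero_of_notMem_tsupport fun h => hx (hu.2.2 h)
  have hun : LipC univ u := ⟨hu.1, hu.2.1, subset_univ _⟩
  have hne : ∀ e ∈ E, p e.1 ≠ p e.2 := fun e he h => (hF.slg.lt e he).ne (hF.slg.inj h)
  have hstrip : ∀ e ∈ E, ∫ x in Strip (p e.1) (p e.2) δ, u x ^ 2 ≤ (2 * δ) ^ 2 * en u := by
    intro e he
    refine strip_mass hun (hne e he) hδ.le fun x hx => hzero x fun hxD => ?_
    have h1 : x ∈ frontier D := by
      rw [hF.fr]
      exact Or.inr (mem_iUnion₂.2 ⟨e, he, hx⟩)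
    have h2 : x ∈ D ∩ frontier D := ⟨hxD, h1⟩
    rw [hF.op.inter_frontier_eq] at h2
    exact h2
  have hcov : ∀ x ∈ D, (∀ i, R + 1 ≤ dist x (p i)) → ∃ e ∈ E, x ∈ Strip (p e.1) (p e.2) δ := by
    intro x hx hxi
    obtain ⟨z, hz, hzD⟩ := not_subset.1 (hthin x fun i => by linarith [hxi i])
    obtain ⟨y, hy, hyf⟩ := afar_frontier hx hzD
    have h1 : dist x y ≤ δ := by
      have h2 := dist_add_dist_of_mem_segment hy
      have h3 : 0 ≤ dist y z := dist_nonneg
      have h4 : dist z x < δ := hz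
      rw [dist_comm] at h4
      linarith
    have h2 : ∀ i, 1 ≤ dist y (p i) := by
      intro i
      have h3 := dist_triangle x y (p i)
      linarith [hxi i]
    rw [hF.fr] at hyf
    rcases hyf with ⟨i, rfl⟩ | h3
    · have h4 := h2 i
      rw [dist_self] at h4
      linarith
    · obtain ⟨e, he, hye⟩ := mem_iUnion₂.1 h3
      exact ⟨e, he, mem_Strip (hne e he) hδ1 hye h1 (h2 _) (h2 _)⟩
  have hint : Integrable (fun x => u x ^ 2) := LipC.integrable_sq hu
  have hS : MeasurableSet {x : P | ∀ i, R + 1 ≤ dist x (p i)} := by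
    have h1 : {x : P | ∀ i, R + 1 ≤ dist x (p i)} = ⋂ i, {x : P | R + 1 ≤ dist x (p i)} := by
      ext x
      simp
    rw [h1]
    exact MeasurableSet.iInter fun i =>
      (isClosed_le continuous_const (continuous_id.dist continuous_const)).measurableSet
  have hsum : ∫ x in {x : P | ∀ i, R + 1 ≤ dist x (p i)}, u x ^ 2 ≤
      ∑ e ∈ E, ∫ x in Strip (p e.1) (p e.2) δ, u x ^ 2 := by
    rw [← integral_indicator hS]
    have h1 : ∀ e ∈ E, ∫ x in Strip (p e.1) (p e.2) δ, u x ^ 2 =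
        ∫ x, (Strip (p e.1) (p e.2) δ).indicator (fun x => u x ^ 2) x := fun e _ =>
      (integral_indicator (measurableSet_Strip _ _ _)).symm
    rw [Finset.sum_congr rfl h1, ← integral_finsetSum]
    · refine integral_mono (hint.indicator hS) (integrable_finsetSum _ fun e _ =>
        hint.indicator (measurableSet_Strip _ _ _)) fun x => ?_
      have hnn : ∀ e ∈ E, 0 ≤ (Strip (p e.1) (p e.2) δ).indicator (fun x => u x ^ 2) x :=
        fun e _ => indicator_nonneg (fun _ _ => sq_nonneg _) _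
      by_cases hxS : x ∈ {x : P | ∀ i, R + 1 ≤ dist x (p i)}
      · rw [indicator_of_mem hxS]
        by_cases hxD : x ∈ D
        · obtain ⟨e, he, hxe⟩ := hcov x hxD hxS
          have h2 := Finset.single_le_sum hnn he
          rw [indicator_of_mem hxe] at h2
          exact h2
        · have h2 : u x ^ 2 = 0 := by rw [hzero x hxD, zero_pow two_ne_zero]
          rw [h2]
          exact Finset.sum_nonneg hnn
      · rw [indicator_of_notMem hxS]
        exact Finset.sum_nonneg hnn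
    · exact fun e _ => hint.indicator (measurableSet_Strip _ _ _)
  refine hsum.trans ((Finset.sum_le_sum hstrip).trans ?_)
  rw [Finset.sum_const, nsmul_eq_mul, mul_assoc]

end Pool.Agent.MP4eed4eX
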