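import Pool.Agent.Lib.MP_4eed4e_an_P.PBase

set_option autoImplicit false

/-!
Project X, block MA, module AHom: maps close to the identity, change of variables.
-/

namespace Pool.Agent.MP4eed4eX

open MeasureTheory Set Filter Topology Metric Pool.Agent.MP4eed4eP

/-- Proof. `ApproximatesLinearOn.toHomeomorph` for `ContinuousLinearEquiv.refl` gives the
homeomorphism (as in `Pool.Agent.MP4eed4eX.K.exists_homeo`, module KHomeo of block K; copy its
proof). With `v x = φ x - x`: `dist (φ x) (φ y) ≤ (1 + κ) dist x y` and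
`(1 - κ) dist x y ≤ dist (φ x) (φ y)`, so the inverse is Lipschitz with the constant
`1 / (1 - κ) ≤ 1 + 2 κ` (as `κ ≤ 1/2`), and `e.symm y - y = - v (e.symm y)` is Lipschitz with the
constant `κ (1 + 2 κ) ≤ 2 κ`. -/
theorem near_homeo {φ : P → P} {κ : NNReal} (hκ : κ ≤ 1 / 2)
    (h : LipschitzWith κ (fun x => φ x - x)) :
    ∃ e : P ≃ₜ P, (∀ x, e x = φ x) ∧ LipschitzWith (1 + κ) e ∧ LipschitzWith (1 + 2 * κ) e.symm ∧
      LipschitzWith (2 * κ) (fun x => e.symm x - x) := by
  have h1 : ApproximatesLinearOn φ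
      ((ContinuousLinearEquiv.refl ℝ P : P ≃L[ℝ] P) : P →L[ℝ] P) univ κ := by
    intro x _ y _
    have h2 : φ x - φ y -
        ((ContinuousLinearEquiv.refl ℝ P : P ≃L[ℝ] P) : P →L[ℝ] P) (x - y) =
        (φ x - x) - (φ y - y) := by
      simp only [ContinuousLinearEquiv.coe_refl, ContinuousLinearMap.coe_id', id]
      abel
    change ‖φ x - φ y -
        ((ContinuousLinearEquiv.refl ℝ P : P ≃L[ℝ] P) : P →L[ℝ] P) (x - y)‖ ≤ κ * ‖x - y‖
    rw [h2, ← dist_eq_norm, ← dist_eq_norm]
    exact h.dist_le_mul x y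
  have hκ' : (κ : ℝ) ≤ 1 / 2 := by exact_mod_cast hκ
  have hκ0 : (0 : ℝ) ≤ κ := κ.coe_nonneg
  have h3 : κ < ‖((ContinuousLinearEquiv.refl ℝ P : P ≃L[ℝ] P).symm : P →L[ℝ] P)‖₊⁻¹ := by
    have h4 : ‖((ContinuousLinearEquiv.refl ℝ P : P ≃L[ℝ] P).symm : P →L[ℝ] P)‖₊ = 1 := by
      change ‖ContinuousLinearMap.id ℝ P‖₊ = 1
      exact nnnorm_one
    rw [h4, inv_one, ← NNReal.coe_lt_coe]
    push_cast
    linarith
  obtain ⟨e, he⟩ : ∃ e : P ≃ₜ P, ∀ x, e x = φ x :=
    ⟨ApproximatesLinearOn.toHomeomorph φ h1 (Or.inr h3), fun x => rfl⟩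
  have hup : ∀ x y, dist (e x) (e y) ≤ (1 + κ) * dist x y := by
    intro x y
    have h5 := h.dist_le_mul x y
    rw [dist_eq_norm, dist_eq_norm] at h5
    rw [he, he, dist_eq_norm, dist_eq_norm]
    calc ‖φ x - φ y‖ = ‖(x - y) + ((φ x - x) - (φ y - y))‖ := by congr 1; abel
      _ ≤ ‖x - y‖ + ‖(φ x - x) - (φ y - y)‖ := norm_add_le _ _
      _ ≤ ‖x - y‖ + κ * ‖x - y‖ := by gcongr
      _ = (1 + κ) * ‖x - y‖ := by ring
  have hlo : ∀ x y, (1 - κ) * dist x y ≤ dist (e x) (e y) := by
    intro x y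
    have h5 := h.dist_le_mul x y
    rw [dist_eq_norm, dist_eq_norm] at h5
    rw [he, he, dist_eq_norm, dist_eq_norm]
    have h6 : ‖x - y‖ ≤ ‖φ x - φ y‖ + ‖(φ x - x) - (φ y - y)‖ := by
      calc ‖x - y‖ = ‖(φ x - φ y) - ((φ x - x) - (φ y - y))‖ := by congr 1; abel
        _ ≤ _ := norm_sub_le _ _
    linarith
  have hsy : ∀ x y, dist (e.symm x) (e.symm y) ≤ (1 + 2 * κ) * dist x y := by
    intro x y
    have h5 := hlo (e.symm x) (e.symm y)
    rw [e.apply_symm_apply, e.apply_symm_apply] at h5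
    have h6 : 1 ≤ (1 + 2 * (κ : ℝ)) * (1 - κ) := by nlinarith
    have h7 : 0 ≤ dist (e.symm x) (e.symm y) := dist_nonneg
    calc dist (e.symm x) (e.symm y) ≤ ((1 + 2 * (κ : ℝ)) * (1 - κ)) * dist (e.symm x) (e.symm y) :=
          le_mul_of_one_le_left h7 h6
      _ = (1 + 2 * (κ : ℝ)) * ((1 - κ) * dist (e.symm x) (e.symm y)) := by ring
      _ ≤ (1 + 2 * κ) * dist x y := by gcongr
  refine ⟨e, he, LipschitzWith.of_dist_le_mul ?_, LipschitzWith.of_dist_le_mul ?_,
    LipschitzWith.of_dist_le_mul ?_⟩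
  · intro x y
    push_cast
    exact hup x y
  · intro x y
    push_cast
    exact hsy x y
  · intro x y
    have h5 : ∀ z, e.symm z - z = -((φ (e.symm z)) - e.symm z) := by
      intro z
      rw [← he, e.apply_symm_apply]
      abel
    have h6 := h.dist_le_mul (e.symm x) (e.symm y)
    rw [h5, h5, dist_neg_neg]
    push_cast
    refine h6.trans ?_
    have h7 := hlo (e.symm x) (e.symm y)
    rw [e.apply_symm_apply, e.apply_symm_apply] at h7
    have h8 : 0 ≤ dist (e.symm x) (e.symm y) := dist_nonneg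
    have h9 : (1 / 2) * dist (e.symm x) (e.symm y) ≤ dist x y := by nlinarith
    nlinarith

/-- Proof. `MeasureTheory.hausdorffMeasure_prod_real : μH[2] = volume` on `ℝ × ℝ` and
`LipschitzWith.hausdorffMeasure_image_le`. -/
theorem volume_image_le {φ : P → P} {L : NNReal} (hL : LipschitzWith L φ) (S : Set P) :
    volume (φ '' S) ≤ (L : ENNReal) ^ 2 * volume S := by
  rw [← hausdorffMeasure_prod_real]
  have h := hL.hausdorffMeasure_image_le (d := 2) (by norm_num) S
  refine h.trans (le_of_eq ?_)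
  congr 1
  norm_cast

/-- Proof. The measure `volume.map e` is `≤ L ^ 2 • volume`: `volume (e ⁻¹' S) =
volume (e.symm '' S) ≤ L ^ 2 * volume S` (`volume_image_le`, `Homeomorph.image_symm`,
`Measure.le_iff`). So `∫⁻ g ∘ e = ∫⁻ g ∂(volume.map e) ≤ L ^ 2 * ∫⁻ g` (`lintegral_map_equiv` for
`e.toMeasurableEquiv`, `lintegral_mono'`, `lintegral_smul_measure`). -/
theorem lintegral_comp_le (e : P ≃ₜ P) {L : NNReal} (hL : LipschitzWith L e.symm)
    (g : P → ENNReal) : ∫⁻ x, g (e x) ≤ (L : ENNReal) ^ 2 * ∫⁻ x, g x := by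
  have h1 : (volume : Measure P).map e.toMeasurableEquiv ≤ ((L : ENNReal) ^ 2) • volume := by
    rw [Measure.le_iff]
    intro S hS
    rw [MeasurableEquiv.map_apply, Measure.smul_apply, smul_eq_mul]
    have h2 : (e.toMeasurableEquiv : P → P) ⁻¹' S = e.symm '' S := by
      rw [Homeomorph.image_symm]
      rfl
    rw [h2]
    exact volume_image_le hL S
  calc ∫⁻ x, g (e x) = ∫⁻ x, g x ∂((volume : Measure P).map e.toMeasurableEquiv) := by
        rw [lintegral_map_equiv]
        rfl
    _ ≤ ∫⁻ x, g x ∂(((L : ENNReal) ^ 2) • volume) := lintegral_mono' h1 le_rfl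
    _ = (L : ENNReal) ^ 2 * ∫⁻ x, g x := by
        rw [lintegral_smul_measure, smul_eq_mul]

/-- Null sets have null preimages. Proof. `volume_image_le` for `e.symm`. -/
theorem null_preimage (e : P ≃ₜ P) {L : NNReal} (hL : LipschitzWith L e.symm) {S : Set P}
    (hS : volume S = 0) : volume (e ⁻¹' S) = 0 := by
  have h := volume_image_le hL S
  rw [hS, mul_zero, Homeomorph.image_symm] at h
  exact le_antisymm h zero_le

/-- Proof. Apply `lintegral_comp_le` to `ENNReal.ofReal (g x)` times the indicator of `e '' S`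
(`ofReal_integral_eq_lintegral_ofReal`, `x ∈ S ↔ e x ∈ e '' S`). Integrability: measurability by
`(volume.map e) ≪ volume` (`null_preimage`), `AEStronglyMeasurable.comp_quasiMeasurePreserving`;
finite integral by `lintegral_comp_le`. -/
theorem integral_comp_le (e : P ≃ₜ P) {L : NNReal} (hL : LipschitzWith L e.symm) {g : P → ℝ}
    (hg : ∀ x, 0 ≤ g x) (hi : Integrable g) {S : Set P} (hS : MeasurableSet S) :
    Integrable (fun x => g (e x)) ∧
    ∫ x in S, g (e x) ≤ (L : ℝ) ^ 2 * ∫ x in e '' S, g x := by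
  have hm : MeasurableSet (e '' S) :=
    e.toMeasurableEquiv.measurableEmbedding.measurableSet_image.2 hS
  have hq : Measure.QuasiMeasurePreserving e (volume : Measure P) volume := by
    refine ⟨e.continuous.measurable, ?_⟩
    refine Measure.AbsolutelyContinuous.mk fun T hT h0 => ?_
    rw [Measure.map_apply e.continuous.measurable hT]
    exact null_preimage e hL h0
  have hint : Integrable (fun x => g (e x)) := by
    refine ⟨hi.aestronglyMeasurable.comp_quasiMeasurePreserving hq, ?_⟩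
    have h2 := lintegral_comp_le e hL (fun x => ‖g x‖ₑ)
    refine lt_of_le_of_lt h2 ?_
    exact ENNReal.mul_lt_top (by simp) hi.2
  refine ⟨hint, ?_⟩
  have hr : 0 ≤ (L : ℝ) ^ 2 * ∫ x in e '' S, g x :=
    mul_nonneg (by positivity) (integral_nonneg fun x => hg x)
  rw [← ENNReal.ofReal_le_ofReal_iff hr, ENNReal.ofReal_mul (by positivity),
    ofReal_integral_eq_lintegral_ofReal hint.integrableOn (ae_of_all _ fun x => hg (e x)),
    ofReal_integral_eq_lintegral_ofReal hi.integrableOn (ae_of_all _ fun x => hg x),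
    ← lintegral_indicator hS, ← lintegral_indicator hm]
  have h3 : (fun x => S.indicator (fun x => ENNReal.ofReal (g (e x))) x) =
      fun x => (fun y => (e '' S).indicator (fun y => ENNReal.ofReal (g y)) y) (e x) := by
    funext x
    by_cases hx : x ∈ S
    · have hx' : e x ∈ e '' S := mem_image_of_mem e hx
      simp only [indicator_of_mem hx, indicator_of_mem hx']
    · have hx' : e x ∉ e '' S := by
        rintro ⟨y, hy, hxy⟩
        exact hx (e.injective hxy ▸ hy)
      simp only [indicator_of_notMem hx, indicator_of_notMem hx']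
  have h4 := lintegral_comp_le e hL (fun y => (e '' S).indicator (fun y => ENNReal.ofReal (g y)) y)
  rw [h3]
  refine h4.trans (le_of_eq ?_)
  congr 1
  rw [ENNReal.ofReal_pow (by positivity), ENNReal.ofReal_coe_nnreal]

end Pool.Agent.MP4eed4eX
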