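import Pool.Agent.Lib.MP_4eed4e_an_PG.GClose
import Pool.Agent.Lib.MP_4eed4e_an_XA.AHom

set_option autoImplicit false

/-!
Project X, block MA, module AGra: the gradient of `u ∘ e` for a map `e` close to the identity.
-/

namespace Pool.Agent.MP4eed4eX

open MeasureTheory Set Filter Topology Metric Pool.Agent.MP4eed4eP Pool.Agent.MP4eed4eP.PG

/-- The value of a linear form in terms of its coordinates. -/
private theorem lin_coord (g : P →L[ℝ] ℝ) (w : P) : g w = w.1 * g (1, 0) + w.2 * g (0, 1) := by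
  have h : w = w.1 • ((1 : ℝ), (0 : ℝ)) + w.2 • ((0 : ℝ), (1 : ℝ)) := by
    ext <;> simp
  conv_lhs => rw [h]
  rw [map_add, map_smul, map_smul, smul_eq_mul, smul_eq_mul]

private theorem lin_bound (g : P →L[ℝ] ℝ) (w : P) :
    |g w| ≤ ‖w‖ * (|g (1, 0)| + |g (0, 1)|) := by
  rw [lin_coord]
  have h1 : |w.1| ≤ ‖w‖ := by
    rw [← Real.norm_eq_abs]; exact norm_fst_le w
  have h2 : |w.2| ≤ ‖w‖ := by
    rw [← Real.norm_eq_abs]; exact norm_snd_le w
  calc |w.1 * g (1, 0) + w.2 * g (0, 1)| ≤ |w.1 * g (1, 0)| + |w.2 * g (0, 1)| := abs_add_le _ _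
    _ = |w.1| * |g (1, 0)| + |w.2| * |g (0, 1)| := by rw [abs_mul, abs_mul]
    _ ≤ ‖w‖ * |g (1, 0)| + ‖w‖ * |g (0, 1)| := by gcongr
    _ = ‖w‖ * (|g (1, 0)| + |g (0, 1)|) := by ring

/-- Proof. For almost all `x` the map `v = e - id` is differentiable at `x` (Rademacher,
`LipschitzWith.ae_differentiableAt`, target `P` is finite-dimensional) and `u` is differentiable
at `e x` (Rademacher and `null_preimage` for the null set of the points where `u` is not
differentiable). Then with `A = fderiv ℝ v x`, `‖A‖ ≤ κ` (`norm_fderiv_le_of_lipschitz`), and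
`g = fderiv ℝ u (e x)`: `fderiv (u ∘ e) x w = g (w + A w)`, so `d1 (u ∘ e) x = g.1 + g (A (1,0))`,
and `|g (a, b)| ≤ (|g1| + |g2|) ‖(a, b)‖` with `g1 = d1 u (e x)`, `g2 = d2 u (e x)`. -/
theorem d_comp (e : P ≃ₜ P) {κ L : NNReal} (hκ : LipschitzWith κ (fun x => e x - x))
    (hL : LipschitzWith L e.symm) {u : P → ℝ} (hu : ∃ K, LipschitzWith K u) :
    ∀ᵐ x, |d1 (fun y => u (e y)) x - d1 u (e x)| ≤ κ * (|d1 u (e x)| + |d2 u (e x)|) ∧
      |d2 (fun y => u (e y)) x - d2 u (e x)| ≤ κ * (|d1 u (e x)| + |d2 u (e x)|) := by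
  obtain ⟨K, hK⟩ := hu
  have h1 : ∀ᵐ x : P, DifferentiableAt ℝ (fun x => e x - x) x := hκ.ae_differentiableAt
  have h2 : ∀ᵐ x : P, DifferentiableAt ℝ u (e x) := by
    have h3 : ∀ᵐ x : P, DifferentiableAt ℝ u x := hK.ae_differentiableAt
    rw [ae_iff] at h3 ⊢
    exact null_preimage e hL h3
  filter_upwards [h1, h2] with x hx hx'
  set A := fderiv ℝ (fun x => e x - x) x with hA
  set g := fderiv ℝ u (e x) with hg
  have hAn : ‖A‖ ≤ κ := norm_fderiv_le_of_lipschitz ℝ hκ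
  have he : HasFDerivAt (fun y => e y) (A + ContinuousLinearMap.id ℝ P) x := by
    have h4 := hx.hasFDerivAt.add (hasFDerivAt_id (𝕜 := ℝ) x)
    refine h4.congr_of_eventuallyEq (Eventually.of_forall fun y => ?_)
    simp
  have hc : HasFDerivAt (fun y => u (e y)) (g.comp (A + ContinuousLinearMap.id ℝ P)) x :=
    hx'.hasFDerivAt.comp x he
  have hkey : ∀ w : P, ‖w‖ = 1 → |fderiv ℝ (fun y => u (e y)) x w - g w| ≤
      κ * (|g (1, 0)| + |g (0, 1)|) := by
    intro w hw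
    rw [hc.fderiv]
    have h5 : (g.comp (A + ContinuousLinearMap.id ℝ P)) w - g w = g (A w) := by
      simp
    rw [h5]
    refine (lin_bound g (A w)).trans ?_
    have h6 : ‖A w‖ ≤ κ := by
      refine (A.le_opNorm w).trans ?_
      rw [hw, mul_one]; exact hAn
    gcongr
  refine ⟨hkey (1, 0) (by simp [Prod.norm_def]), hkey (0, 1) (by simp [Prod.norm_def])⟩

/-- Proof. From `d_comp`: with `g1, g2` and `s = |g1| + |g2|`, `s² ≤ 2 (g1² + g2²)`:
`∑ (|gi| + κ s)² = g1² + g2² + 2 κ s² + 2 κ² s² ≤ (1 + 2κ)² (g1² + g2²)`. -/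
theorem grad_comp (e : P ≃ₜ P) {κ L : NNReal} (hκ : LipschitzWith κ (fun x => e x - x))
    (hL : LipschitzWith L e.symm) {u : P → ℝ} (hu : ∃ K, LipschitzWith K u) :
    ∀ᵐ x, d1 (fun y => u (e y)) x ^ 2 + d2 (fun y => u (e y)) x ^ 2 ≤
      (1 + 2 * (κ : ℝ)) ^ 2 * (d1 u (e x) ^ 2 + d2 u (e x) ^ 2) := by
  filter_upwards [d_comp e hκ hL hu] with x hx
  obtain ⟨h1, h2⟩ := hx
  set a := d1 (fun y => u (e y)) x
  set b := d2 (fun y => u (e y)) x
  set g1 := d1 u (e x)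
  set g2 := d2 u (e x)
  set k : ℝ := (κ : ℝ)
  have hk : 0 ≤ k := κ.coe_nonneg
  set p := |g1| with hp
  set q := |g2| with hq
  have hp0 : 0 ≤ p := abs_nonneg _
  have hq0 : 0 ≤ q := abs_nonneg _
  have ha : |a| ≤ p + k * (p + q) := by
    have h3 : |a| ≤ |a - g1| + |g1| := by
      have := abs_add_le (a - g1) g1
      rwa [sub_add_cancel] at this
    linarith
  have hb : |b| ≤ q + k * (p + q) := by
    have h3 : |b| ≤ |b - g2| + |g2| := by
      have := abs_add_le (b - g2) g2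
      rwa [sub_add_cancel] at this
    linarith
  have ha2 : a ^ 2 ≤ (p + k * (p + q)) ^ 2 := by
    rw [← sq_abs a]; gcongr
  have hb2 : b ^ 2 ≤ (q + k * (p + q)) ^ 2 := by
    rw [← sq_abs b]; gcongr
  have hg1 : g1 ^ 2 = p ^ 2 := (sq_abs g1).symm
  have hg2 : g2 ^ 2 = q ^ 2 := (sq_abs g2).symm
  rw [hg1, hg2]
  have h4 : 0 ≤ (p - q) ^ 2 := sq_nonneg _
  nlinarith [mul_nonneg hk h4, mul_nonneg (mul_nonneg hk hk) h4]

/-- Proof. Lipschitz: `LipschitzWith.comp`. Support: `tsupport_comp_eq_preimage`. The inequalities: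
`grad_comp` and `integral_comp_le` for `e` (inverse constant `L`), and for `l2` both directions:
`l2 u = ∫ (u ∘ e)² ∘ e.symm ≤ M² l2 (u ∘ e)`, where `e` is Lipschitz with the constant `M`. -/
theorem comp_est (e : P ≃ₜ P) {κ L M : NNReal} (hκ : LipschitzWith κ (fun x => e x - x))
    (hL : LipschitzWith L e.symm) (hM : LipschitzWith M e) {D D' : Set P}
    (hD : ∀ x, e x ∈ D' → x ∈ D)
    {u : P → ℝ} (hu : LipC D' u) :
    LipC D (fun x => u (e x)) ∧
    en (fun x => u (e x)) ≤ (1 + 2 * (κ : ℝ)) ^ 2 * (L : ℝ) ^ 2 * en u ∧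
    l2 (fun x => u (e x)) ≤ (L : ℝ) ^ 2 * l2 u ∧ l2 u ≤ (M : ℝ) ^ 2 * l2 (fun x => u (e x)) ∧
    ∀ S : Set P, MeasurableSet S →
      ∫ x in S, (d1 (fun y => u (e y)) x ^ 2 + d2 (fun y => u (e y)) x ^ 2) ≤
        (1 + 2 * (κ : ℝ)) ^ 2 * (L : ℝ) ^ 2 * ∫ x in e '' S, (d1 u x ^ 2 + d2 u x ^ 2) := by
  have hC : LipC D (fun x => u (e x)) := by
    obtain ⟨⟨K, hK⟩, hc, hs⟩ := hu
    have hcomp : (fun y => u (e y)) = u ∘ e := rfl
    refine ⟨⟨_, hK.comp hM⟩, ?_, ?_⟩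
    · rw [hcomp]; exact hc.comp_homeomorph _
    · rw [hcomp]
      intro x hx
      have h1 : e x ∈ tsupport u := by
        have h2 := tsupport_comp_eq_preimage u e
        rw [h2] at hx; exact hx
      exact hD x (hs h1)
  have hi := LipC.integrable_en hu
  have hS : ∀ S : Set P, MeasurableSet S →
      ∫ x in S, (d1 (fun y => u (e y)) x ^ 2 + d2 (fun y => u (e y)) x ^ 2) ≤
        (1 + 2 * (κ : ℝ)) ^ 2 * (L : ℝ) ^ 2 * ∫ x in e '' S, (d1 u x ^ 2 + d2 u x ^ 2) := by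
    intro S hS
    obtain ⟨h1, h2⟩ := integral_comp_le e hL (g := fun x => d1 u x ^ 2 + d2 u x ^ 2)
      (fun x => by positivity) hi hS
    calc ∫ x in S, (d1 (fun y => u (e y)) x ^ 2 + d2 (fun y => u (e y)) x ^ 2)
        ≤ ∫ x in S, (1 + 2 * (κ : ℝ)) ^ 2 * (d1 u (e x) ^ 2 + d2 u (e x) ^ 2) := by
          refine integral_mono_ae (LipC.integrable_en hC).integrableOn
            (h1.integrableOn.const_mul _) ?_
          exact ae_restrict_of_ae (grad_comp e hκ hL hu.1)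
      _ = (1 + 2 * (κ : ℝ)) ^ 2 * ∫ x in S, (d1 u (e x) ^ 2 + d2 u (e x) ^ 2) :=
          integral_const_mul _ _
      _ ≤ (1 + 2 * (κ : ℝ)) ^ 2 * ((L : ℝ) ^ 2 * ∫ x in e '' S, (d1 u x ^ 2 + d2 u x ^ 2)) := by
          gcongr
      _ = _ := by ring
  refine ⟨hC, ?_, ?_, ?_, hS⟩
  · have h1 := hS univ MeasurableSet.univ
    rw [image_univ, e.surjective.range_eq, Measure.restrict_univ] at h1
    exact h1
  · have h1 := (integral_comp_le e hL (g := fun x => u x ^ 2) (fun x => by positivity)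
      (LipC.integrable_sq hu) MeasurableSet.univ).2
    rw [image_univ, e.surjective.range_eq, Measure.restrict_univ] at h1
    exact h1
  · have h1 := (integral_comp_le e.symm (L := M) hM (g := fun x => u (e x) ^ 2)
      (fun x => by positivity) (LipC.integrable_sq hC) MeasurableSet.univ).2
    rw [image_univ, e.symm.surjective.range_eq, Measure.restrict_univ] at h1
    simp only [Homeomorph.apply_symm_apply] at h1
    exact h1

end Pool.Agent.MP4eed4eX
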