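import Pool.Agent.Lib.MP_4eed4e_an_P.PBase

set_option autoImplicit false

/-!
Project X, block MA, module AVec: the vector field of the Hardy inequality.

`ϱ x = x₁² + x₂² + a²` (`a > 0`), `L x = log (e + 1 / ϱ x) ≥ 1`, `X_i = x_i / (ϱ L)`,
`div X ≥ |X|² - 3`.
-/

namespace Pool.Agent.MP4eed4eX

open MeasureTheory Set Filter Topology Metric Pool.Agent.MP4eed4eP

/-- Regularized square of the distance from the origin. -/
noncomputable def vR (a : ℝ) (x : P) : ℝ := x.1 ^ 2 + x.2 ^ 2 + a ^ 2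

/-- The logarithm. -/
noncomputable def vL (a : ℝ) (x : P) : ℝ := Real.log (Real.exp 1 + 1 / vR a x)

theorem vR_pos {a : ℝ} (ha : 0 < a) (x : P) : 0 < vR a x := by
  unfold vR; positivity

/-- Proof. `log` is increasing, `log (exp 1) = 1`. -/
theorem one_le_vL {a : ℝ} (ha : 0 < a) (x : P) : 1 ≤ vL a x := by
  have h := vR_pos ha x
  unfold vL
  calc (1 : ℝ) = Real.log (Real.exp 1) := (Real.log_exp 1).symm
    _ ≤ Real.log (Real.exp 1 + 1 / vR a x) :=
      Real.log_le_log (Real.exp_pos 1) (by have := div_pos one_pos h; linarith)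

/-- First component of the field. -/
noncomputable def X1 (a : ℝ) (x : P) : ℝ := x.1 / (vR a x * vL a x)

/-- Second component of the field. -/
noncomputable def X2 (a : ℝ) (x : P) : ℝ := x.2 / (vR a x * vL a x)

private theorem AVec_vR (a : ℝ) (x : P) : HasFDerivAt (vR a)
    ((2 * x.1) • ContinuousLinearMap.fst ℝ ℝ ℝ + (2 * x.2) • ContinuousLinearMap.snd ℝ ℝ ℝ) x := by
  have h1 : HasFDerivAt (fun y : P => y.1) (ContinuousLinearMap.fst ℝ ℝ ℝ) x := hasFDerivAt_fst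
  have h2 : HasFDerivAt (fun y : P => y.2) (ContinuousLinearMap.snd ℝ ℝ ℝ) x := hasFDerivAt_snd
  have h := ((h1.fun_mul h1).fun_add (h2.fun_mul h2)).add_const (a ^ 2)
  have e : vR a = fun y : P => y.1 * y.1 + y.2 * y.2 + a ^ 2 := by
    funext y; unfold vR; ring
  rw [e]
  refine HasFDerivAt.congr_fderiv h ?_
  ext <;> simp <;> ring

private theorem AVec_log {r : ℝ} (hr : 0 < r) :
    HasDerivAt (fun r : ℝ => Real.log (Real.exp 1 + 1 / r)) (-1 / (r * (Real.exp 1 * r + 1)))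
      r := by
  have he := Real.exp_pos 1
  have h1 : HasDerivAt (fun r : ℝ => Real.exp 1 + 1 / r) (-1 / r ^ 2) r := by
    have := (hasDerivAt_inv hr.ne').const_add (Real.exp 1)
    simp only [one_div]
    refine this.congr_deriv ?_
    field_simp
  have hne : Real.exp 1 + 1 / r ≠ 0 := by positivity
  refine (h1.log hne).congr_deriv ?_
  field_simp

private theorem AVec_G {r : ℝ} (hr : 0 < r) (hL : 0 < Real.log (Real.exp 1 + 1 / r)) :
    HasDerivAt (fun r : ℝ => 1 / (r * Real.log (Real.exp 1 + 1 / r)))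
      (-(Real.log (Real.exp 1 + 1 / r) - 1 / (Real.exp 1 * r + 1)) /
        (r ^ 2 * Real.log (Real.exp 1 + 1 / r) ^ 2)) r := by
  have he := Real.exp_pos 1
  have h1 := (hasDerivAt_id r).fun_mul (AVec_log hr)
  have hne : r * Real.log (Real.exp 1 + 1 / r) ≠ 0 := by positivity
  have h2 := h1.fun_inv hne
  simp only [one_div, id] at h2 ⊢
  refine h2.congr_deriv ?_
  rw [← one_div r]
  have hne2 : Real.exp 1 * r + 1 ≠ 0 := by positivity
  generalize hLL : Real.log (Real.exp 1 + 1 / r) = L at *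
  field_simp
  ring

/-- Proof. `vR a` has the derivative `2 x₁ dx₁ + 2 x₂ dx₂`; chain rule:
`d_i (log (e + 1/ϱ)) = (- 2 x_i / ϱ²) / (e + 1/ϱ) = - 2 x_i / (ϱ (e ϱ + 1))`. -/
theorem vL_deriv {a : ℝ} (ha : 0 < a) (x : P) :
    HasFDerivAt (vL a)
      ((-(2 * x.1) / (vR a x * (Real.exp 1 * vR a x + 1))) • ContinuousLinearMap.fst ℝ ℝ ℝ +
        (-(2 * x.2) / (vR a x * (Real.exp 1 * vR a x + 1))) • ContinuousLinearMap.snd ℝ ℝ ℝ) x := by
  have h := (AVec_log (vR_pos ha x)).comp_hasFDerivAt x (AVec_vR a x)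
  have h2 : HasFDerivAt (vL a) _ x := h
  refine h2.congr_fderiv ?_
  ext <;> simp <;> ring

/-- Coefficient of the derivative of `X`: `G' = - (L - 1/(e ϱ + 1)) / (ϱ² L²)` where `G = 1/(ϱ L)`
is
regarded as a function of `ϱ`. -/
noncomputable def vG' (a : ℝ) (x : P) : ℝ :=
  -(vL a x - 1 / (Real.exp 1 * vR a x + 1)) / (vR a x ^ 2 * vL a x ^ 2)

private theorem AVec_GG {a : ℝ} (ha : 0 < a) (x : P) :
    HasFDerivAt (fun y : P => 1 / (vR a y * vL a y))
      (vG' a x • ((2 * x.1) • ContinuousLinearMap.fst ℝ ℝ ℝ +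
        (2 * x.2) • ContinuousLinearMap.snd ℝ ℝ ℝ)) x := by
  have hL : 0 < vL a x := lt_of_lt_of_le one_pos (one_le_vL ha x)
  exact (AVec_G (vR_pos ha x) hL).comp_hasFDerivAt x (AVec_vR a x)

/-- `d_j X_i = δ_ij G + 2 x_i x_j G'`. Proof. `G = 1/(ϱ L)` is differentiable; its `d_j` is
`- (d_j ϱ L + ϱ d_j L) / (ϱ L)² = - (2 x_j L - 2 x_j / (e ϱ + 1)) / (ϱ L)² = 2 x_j G'`
(`vL_deriv`). Product rule. -/
theorem X1_deriv {a : ℝ} (ha : 0 < a) (x : P) :
    HasFDerivAt (X1 a)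
      ((1 / (vR a x * vL a x) + 2 * x.1 * x.1 * vG' a x) • ContinuousLinearMap.fst ℝ ℝ ℝ +
        (2 * x.1 * x.2 * vG' a x) • ContinuousLinearMap.snd ℝ ℝ ℝ) x := by
  have h1 : HasFDerivAt (fun y : P => y.1) (ContinuousLinearMap.fst ℝ ℝ ℝ) x := hasFDerivAt_fst
  have h := h1.fun_mul (AVec_GG ha x)
  have e : X1 a = fun y : P => y.1 * (1 / (vR a y * vL a y)) := by
    funext y; unfold X1; ring
  rw [e]
  refine h.congr_fderiv ?_
  ext <;> simp <;> ring

theorem X2_deriv {a : ℝ} (ha : 0 < a) (x : P) :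
    HasFDerivAt (X2 a)
      ((2 * x.1 * x.2 * vG' a x) • ContinuousLinearMap.fst ℝ ℝ ℝ +
        (1 / (vR a x * vL a x) + 2 * x.2 * x.2 * vG' a x) • ContinuousLinearMap.snd ℝ ℝ ℝ) x := by
  have h1 : HasFDerivAt (fun y : P => y.2) (ContinuousLinearMap.snd ℝ ℝ ℝ) x := hasFDerivAt_snd
  have h := h1.fun_mul (AVec_GG ha x)
  have e : X2 a = fun y : P => y.2 * (1 / (vR a y * vL a y)) := by
    funext y; unfold X2; ring
  rw [e]
  refine h.congr_fderiv ?_
  ext <;> simp <;> ring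

private theorem AVec_N {a : ℝ} (x : P) : x.1 ^ 2 + x.2 ^ 2 ≤ vR a x := by
  unfold vR; nlinarith [sq_nonneg a]

private theorem AVec_a {a : ℝ} (x : P) : a ^ 2 ≤ vR a x := by
  unfold vR; nlinarith [sq_nonneg x.1, sq_nonneg x.2]

private theorem AVec_Gn {a : ℝ} (ha : 0 < a) (x : P) :
    vG' a x ≤ 0 ∧ -vG' a x ≤ 1 / vR a x ^ 2 := by
  have hR := vR_pos ha x
  have hL := one_le_vL ha x
  have he := Real.exp_pos 1
  have h1 : 1 / (Real.exp 1 * vR a x + 1) ≤ 1 := by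
    rw [div_le_one (by positivity)]
    have := mul_pos he hR
    linarith
  have h0 : 0 < 1 / (Real.exp 1 * vR a x + 1) := by positivity
  have hLp : 0 < vL a x := by linarith
  unfold vG'
  constructor
  · rw [neg_div]
    exact neg_nonpos.2 (div_nonneg (by linarith) (by positivity))
  · rw [neg_div, neg_neg, div_le_div_iff₀ (by positivity) (by positivity)]
    have h2 : (vL a x - 1 / (Real.exp 1 * vR a x + 1)) ≤ vL a x ^ 2 := by nlinarith
    have := mul_le_mul_of_nonneg_right h2 (sq_nonneg (vR a x))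
    nlinarith

private theorem AVec_norm (c d : ℝ) {M : ℝ} (hc : |c| ≤ M) (hd : |d| ≤ M) :
    ‖c • ContinuousLinearMap.fst ℝ ℝ ℝ + d • ContinuousLinearMap.snd ℝ ℝ ℝ‖ ≤ 2 * M := by
  have hM : 0 ≤ M := (abs_nonneg c).trans hc
  have h1 : ‖c • ContinuousLinearMap.fst ℝ ℝ ℝ‖ ≤ M := by
    rw [norm_smul, Real.norm_eq_abs]
    calc |c| * ‖ContinuousLinearMap.fst ℝ ℝ ℝ‖ ≤ M * 1 :=
          mul_le_mul hc (ContinuousLinearMap.norm_fst_le ℝ ℝ ℝ) (norm_nonneg _) hM
      _ = M := mul_one M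
  have h2 : ‖d • ContinuousLinearMap.snd ℝ ℝ ℝ‖ ≤ M := by
    rw [norm_smul, Real.norm_eq_abs]
    calc |d| * ‖ContinuousLinearMap.snd ℝ ℝ ℝ‖ ≤ M * 1 :=
          mul_le_mul hd (ContinuousLinearMap.norm_snd_le ℝ ℝ ℝ) (norm_nonneg _) hM
      _ = M := mul_one M
  have := norm_add_le (c • ContinuousLinearMap.fst ℝ ℝ ℝ) (d • ContinuousLinearMap.snd ℝ ℝ ℝ)
  linarith

private theorem AVec_lip {f : P → ℝ} {c d : P → ℝ} {M : ℝ}
    (hf : ∀ x, HasFDerivAt f (c x • ContinuousLinearMap.fst ℝ ℝ ℝ +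
      d x • ContinuousLinearMap.snd ℝ ℝ ℝ) x)
    (hc : ∀ x, |c x| ≤ M) (hd : ∀ x, |d x| ≤ M) : ∃ K, LipschitzWith K f := by
  refine ⟨Real.toNNReal (2 * M), lipschitzWith_of_nnnorm_fderiv_le
    (fun x => (hf x).differentiableAt) fun x => ?_⟩
  rw [(hf x).fderiv]
  have h := AVec_norm (c x) (d x) (hc x) (hd x)
  rw [← NNReal.coe_le_coe, coe_nnnorm]
  exact h.trans (Real.le_coe_toNNReal _)

private theorem AVec_mul {a : ℝ} (ha : 0 < a) (x : P) {y z : ℝ}
    (h : y ^ 2 + z ^ 2 ≤ 2 * vR a x) : |2 * y * z * vG' a x| ≤ 2 / a ^ 2 := by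
  have hR := vR_pos ha x
  obtain ⟨g1, g2⟩ := AVec_Gn ha x
  have h1 : |2 * y * z| ≤ 2 * vR a x := by
    rw [abs_le]
    constructor <;> nlinarith [sq_nonneg (y + z), sq_nonneg (y - z)]
  have h2 : |vG' a x| ≤ 1 / vR a x ^ 2 := by rw [abs_of_nonpos g1]; exact g2
  rw [abs_mul]
  calc |2 * y * z| * |vG' a x| ≤ (2 * vR a x) * (1 / vR a x ^ 2) :=
        mul_le_mul h1 h2 (abs_nonneg _) (by positivity)
    _ = 2 / vR a x := by field_simp
    _ ≤ 2 / a ^ 2 := div_le_div_of_nonneg_left (by norm_num) (by positivity) (AVec_a x)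

private theorem AVec_G0 {a : ℝ} (ha : 0 < a) (x : P) :
    |1 / (vR a x * vL a x)| ≤ 1 / a ^ 2 := by
  have hR := vR_pos ha x
  have hL := one_le_vL ha x
  have hLp : 0 < vL a x := by linarith
  rw [abs_of_pos (by positivity)]
  refine div_le_div_of_nonneg_left (by norm_num) (by positivity) ((AVec_a x).trans ?_)
  nlinarith

/-- Proof. The derivative is bounded: `0 ≤ G ≤ 1/ϱ ≤ 1/a²`, `-1/(ϱ² L) ≤ G' ≤ 0`,
`|2 x_i x_j| ≤ ϱ`, so all coefficients are at most `3 / a²`, and the norm of the derivative is at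
most
`6 / a²`. `lipschitzWith_of_nnnorm_fderiv_le`. -/
theorem X_lip {a : ℝ} (ha : 0 < a) :
    (∃ K, LipschitzWith K (X1 a)) ∧ ∃ K, LipschitzWith K (X2 a) := by
  have hb : ∀ x : P, |1 / (vR a x * vL a x)| ≤ 1 / a ^ 2 := AVec_G0 ha
  have h3 : (1 : ℝ) / a ^ 2 + 2 / a ^ 2 = 3 / a ^ 2 := by ring
  have h4 : (2 : ℝ) / a ^ 2 ≤ 3 / a ^ 2 := by
    refine div_le_div_of_nonneg_right (by norm_num) (by positivity)
  have hR : ∀ x : P, x.1 ^ 2 + x.2 ^ 2 ≤ 2 * vR a x := fun x => by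
    have := AVec_N (a := a) x
    have := vR_pos ha x
    linarith
  have hR1 : ∀ x : P, x.1 ^ 2 + x.1 ^ 2 ≤ 2 * vR a x := fun x => by
    have := AVec_N (a := a) x
    nlinarith [sq_nonneg x.2]
  have hR2 : ∀ x : P, x.2 ^ 2 + x.2 ^ 2 ≤ 2 * vR a x := fun x => by
    have := AVec_N (a := a) x
    nlinarith [sq_nonneg x.1]
  constructor
  · refine AVec_lip (M := 3 / a ^ 2) (X1_deriv ha) (fun x => ?_) fun x => ?_
    · refine (abs_add_le _ _).trans ?_
      have := hb x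
      have := AVec_mul ha x (hR1 x)
      linarith
    · exact (AVec_mul ha x (hR x)).trans h4
  · refine AVec_lip (M := 3 / a ^ 2) (X2_deriv ha) (fun x => ?_) fun x => ?_
    · exact (AVec_mul ha x (hR x)).trans h4
    · refine (abs_add_le _ _).trans ?_
      have := hb x
      have := AVec_mul ha x (hR2 x)
      linarith

/-- `div X ≥ |X|² - 3`. Proof. `d1 X1 + d2 X2 = 2 G + 2 (x₁² + x₂²) G'` and `G' ≤ 0`
(`L ≥ 1 ≥ 1/(e ϱ + 1)`), `x₁² + x₂² ≤ ϱ`, so it is at least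
`2 G + 2 ϱ G' = 2 / ((e ϱ + 1) ϱ L²)`. And `|X|² = (x₁² + x₂²) / (ϱ² L²) ≤ 1 / (ϱ L²)`.
If `e ϱ ≤ 1` then `2 / (e ϱ + 1) ≥ 1` and the claim holds without the `3`. If `e ϱ > 1` then the
left
side is `≥ 0` and `1 / (ϱ L²) ≤ 1 / ϱ < e < 3` (`Real.exp_one_lt_d9`). -/
theorem div_X {a : ℝ} (ha : 0 < a) (x : P) :
    X1 a x ^ 2 + X2 a x ^ 2 - 3 ≤ d1 (X1 a) x + d2 (X2 a) x := by
  have hR := vR_pos ha x
  have hL := one_le_vL ha x
  have hLp : 0 < vL a x := by linarith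
  have he := Real.exp_pos 1
  have hN := AVec_N (a := a) x
  obtain ⟨g1, g2⟩ := AVec_Gn ha x
  have e1 : d1 (X1 a) x = 1 / (vR a x * vL a x) + 2 * x.1 * x.1 * vG' a x := by
    unfold d1
    rw [(X1_deriv ha x).fderiv]
    simp
  have e2 : d2 (X2 a) x = 1 / (vR a x * vL a x) + 2 * x.2 * x.2 * vG' a x := by
    unfold d2
    rw [(X2_deriv ha x).fderiv]
    simp
  rw [e1, e2]
  have h1 : 2 / ((Real.exp 1 * vR a x + 1) * (vR a x * vL a x ^ 2)) ≤
      1 / (vR a x * vL a x) + 2 * x.1 * x.1 * vG' a x +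
        (1 / (vR a x * vL a x) + 2 * x.2 * x.2 * vG' a x) := by
    have e3 : 2 / ((Real.exp 1 * vR a x + 1) * (vR a x * vL a x ^ 2)) =
        2 * (1 / (vR a x * vL a x)) + 2 * vR a x * vG' a x := by
      unfold vG'
      have hne : Real.exp 1 * vR a x + 1 ≠ 0 := by positivity
      field_simp
      ring
    rw [e3]
    nlinarith
  have h2 : X1 a x ^ 2 + X2 a x ^ 2 ≤ 1 / (vR a x * vL a x ^ 2) := by
    unfold X1 X2
    rw [div_pow, div_pow, ← add_div, div_le_div_iff₀ (by positivity) (by positivity)]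
    have : (x.1 ^ 2 + x.2 ^ 2) * (vR a x * vL a x ^ 2) ≤ vR a x * (vR a x * vL a x ^ 2) :=
      mul_le_mul_of_nonneg_right hN (by positivity)
    nlinarith
  refine le_trans ?_ h1
  rcases le_or_gt (Real.exp 1 * vR a x) 1 with hc | hc
  · have h3 : 1 / (vR a x * vL a x ^ 2) ≤
        2 / ((Real.exp 1 * vR a x + 1) * (vR a x * vL a x ^ 2)) := by
      rw [div_le_div_iff₀ (by positivity) (by positivity)]
      have : 0 < vR a x * vL a x ^ 2 := by positivity
      nlinarith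
    linarith
  · have h3 : 1 / (vR a x * vL a x ^ 2) ≤ 1 / vR a x :=
      div_le_div_of_nonneg_left (by norm_num) hR
        (le_mul_of_one_le_right hR.le (one_le_pow₀ hL))
    have h4 : 1 / vR a x < Real.exp 1 := by
      rw [div_lt_iff₀ hR]
      exact hc
    have h5 := Real.exp_one_lt_d9
    have h6 : 0 ≤ 2 / ((Real.exp 1 * vR a x + 1) * (vR a x * vL a x ^ 2)) := by positivity
    linarith

private theorem AVec_logL {a : ℝ} (ha : 0 < a) (x : P) :
    HasFDerivAt (fun y => Real.log (vL a y))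
      ((-(2 * x.1) / (vR a x * (Real.exp 1 * vR a x + 1) * vL a x)) •
          ContinuousLinearMap.fst ℝ ℝ ℝ +
        (-(2 * x.2) / (vR a x * (Real.exp 1 * vR a x + 1) * vL a x)) •
          ContinuousLinearMap.snd ℝ ℝ ℝ) x := by
  have hL := one_le_vL ha x
  have hLp : vL a x ≠ 0 := by linarith
  have hR := vR_pos ha x
  have he := Real.exp_pos 1
  have hne : Real.exp 1 * vR a x + 1 ≠ 0 := by positivity
  refine ((vL_deriv ha x).log hLp).congr_fderiv ?_
  ext <;> simp <;> field_simp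

/-- The gradient of `log L` is bounded by `2 |X|`.
Proof. `d_i (log L) = d_i L / L = - 2 x_i / (ϱ (e ϱ + 1) L)` (`vL_deriv`), and `e ϱ + 1 ≥ 1`. -/
theorem logL_grad {a : ℝ} (ha : 0 < a) (x : P) :
    DifferentiableAt ℝ (fun y => Real.log (vL a y)) x ∧
    d1 (fun y => Real.log (vL a y)) x ^ 2 + d2 (fun y => Real.log (vL a y)) x ^ 2 ≤
      4 * (X1 a x ^ 2 + X2 a x ^ 2) := by
  have hR := vR_pos ha x
  have hL := one_le_vL ha x
  have hLp : 0 < vL a x := by linarith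
  have he := Real.exp_pos 1
  have h := AVec_logL ha x
  refine ⟨h.differentiableAt, ?_⟩
  have hk : ∀ y : ℝ, (-(2 * y) / (vR a x * (Real.exp 1 * vR a x + 1) * vL a x)) ^ 2 ≤
      4 * (y / (vR a x * vL a x)) ^ 2 := by
    intro y
    rw [div_pow, div_pow, ← mul_div_assoc, neg_sq, mul_pow, div_le_div_iff₀ (by positivity)
      (by positivity)]
    have h1 : (vR a x * vL a x) ^ 2 ≤ (vR a x * (Real.exp 1 * vR a x + 1) * vL a x) ^ 2 := by
      apply pow_le_pow_left₀ (by positivity)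
      have h2 : 0 < vR a x * vL a x := by positivity
      have h3 : 0 < Real.exp 1 * vR a x := by positivity
      nlinarith [mul_pos h2 h3]
    have h2 : 0 ≤ 2 ^ 2 * y ^ 2 := by positivity
    have := mul_le_mul_of_nonneg_left h1 h2
    nlinarith
  have e1 : d1 (fun y => Real.log (vL a y)) x =
      -(2 * x.1) / (vR a x * (Real.exp 1 * vR a x + 1) * vL a x) := by
    unfold d1
    rw [h.fderiv]
    simp
  have e2 : d2 (fun y => Real.log (vL a y)) x =
      -(2 * x.2) / (vR a x * (Real.exp 1 * vR a x + 1) * vL a x) := by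
    unfold d2
    rw [h.fderiv]
    simp
  rw [e1, e2]
  unfold X1 X2
  have := hk x.1
  have := hk x.2
  linarith

/-- Proof. `|2 x_i / (ϱ (e ϱ + 1) L)| ≤ 2 |x_i| / ϱ ≤ 1 / a` (`2 |x_i| a ≤ x_i² + a² ≤ ϱ`); the
norm of
the derivative is at most `2 / a`. `lipschitzWith_of_nnnorm_fderiv_le`. -/
theorem logL_lip {a : ℝ} (ha : 0 < a) : ∃ K, LipschitzWith K (fun y => Real.log (vL a y)) := by
  have hk : ∀ (x : P) (y : ℝ), y ^ 2 + a ^ 2 ≤ vR a x →
      |-(2 * y) / (vR a x * (Real.exp 1 * vR a x + 1) * vL a x)| ≤ 1 / a := by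
    intro x y hy
    have hR := vR_pos ha x
    have hL := one_le_vL ha x
    have hLp : 0 < vL a x := by linarith
    have he := Real.exp_pos 1
    have h0 : 0 < vR a x * (Real.exp 1 * vR a x + 1) * vL a x := by positivity
    rw [abs_div, abs_of_pos h0, abs_neg, abs_mul, abs_two, div_le_div_iff₀ h0 ha, one_mul]
    have h1 : vR a x ≤ vR a x * (Real.exp 1 * vR a x + 1) * vL a x := by
      have h3 : 0 < Real.exp 1 * vR a x := by positivity
      have h4 : vR a x ≤ vR a x * (Real.exp 1 * vR a x + 1) := by nlinarith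
      nlinarith [mul_pos hR h3]
    have h2 : 2 * |y| * a ≤ y ^ 2 + a ^ 2 := by
      rw [← sq_abs y]
      nlinarith [sq_nonneg (|y| - a)]
    linarith
  refine AVec_lip (M := 1 / a) (AVec_logL ha) (fun x => hk x x.1 ?_) fun x => hk x x.2 ?_
  · unfold vR; nlinarith [sq_nonneg x.2]
  · unfold vR; nlinarith [sq_nonneg x.1]

end Pool.Agent.MP4eed4eX
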