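import Pool.Agent.Lib.MP_4eed4e_an_PG.GClose
import Pool.Agent.Lib.MP_4eed4e_an_XA.AVec

set_option autoImplicit false

/-!
Project X, block MA, module AHar: the Hardy inequality.
-/

namespace Pool.Agent.MP4eed4eX

open MeasureTheory Set Filter Topology Metric Pool.Agent.MP4eed4eP Pool.Agent.MP4eed4eP.PG

private lemma AHar_int {D : Set P} {u : P → ℝ} (hu : LipC D u) {g : P → ℝ}
    (hg : Continuous g) {w : P → ℝ} (hw : Measurable w) {K : ℝ} (hK : ∀ x, |w x| ≤ K) :
    Integrable (fun x => u x * g x * w x) := by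
  have hc : Continuous (fun x => u x * g x) := (LipC.cont hu).mul hg
  have hcs : HasCompactSupport (fun x => u x * g x) := hu.2.1.mul_right
  obtain ⟨M, hM⟩ := hcs.exists_bound_of_continuous hc
  refine integrable_of_bound (hc.measurable.mul hw) hu.2.1 (fun x hx => ?_) (C := M * K)
    fun x => ?_
  · rw [image_eq_zero_of_notMem_tsupport hx, zero_mul, zero_mul]
  · rw [abs_mul]
    have h1 := hM x
    rw [Real.norm_eq_abs] at h1
    exact mul_le_mul h1 (hK x) (abs_nonneg _) ((abs_nonneg _).trans h1)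

private lemma AHar_parts {D : Set P} {u : P → ℝ} (hu : LipC D u) {F : P → ℝ} {C : NNReal}
    (hC : LipschitzWith C F) (hF : ∀ x, DifferentiableAt ℝ F x) (v : P) :
    ∫ x, u x * u x * fderiv ℝ F x v = ∫ x, (-2) * (u x * F x * fderiv ℝ u x v) := by
  have hcont := LipC.cont hu
  obtain ⟨⟨K, hK⟩, hcomp, -⟩ := hu
  obtain ⟨M, hM⟩ := hcomp.exists_bound_of_continuous hcont
  have hM' : ∀ x, |u x| ≤ M := fun x => by rw [← Real.norm_eq_abs]; exact hM x
  have hM0 : 0 ≤ M := le_trans (abs_nonneg _) (hM' 0)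
  have hG : LipschitzWith (Real.toNNReal (2 * M * K)) (fun x => u x * u x) := by
    refine LipschitzWith.of_dist_le_mul fun x y => ?_
    rw [Real.coe_toNNReal _ (by positivity), Real.dist_eq]
    have e : u x * u x - u y * u y = (u x + u y) * (u x - u y) := by ring
    rw [e, abs_mul, mul_assoc]
    have h1 : |u x + u y| ≤ 2 * M := by
      refine le_trans (abs_add_le _ _) ?_
      linarith [hM' x, hM' y]
    have h2 : |u x - u y| ≤ K * dist x y := by
      rw [← Real.dist_eq]; exact hK.dist_le_mul x y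
    exact mul_le_mul h1 h2 (abs_nonneg _) (by positivity)
  have hGc : HasCompactSupport (fun x => u x * u x) := hcomp.mul_right
  have key := hC.integral_lineDeriv_mul_eq hG hGc (μ := (volume : Measure P)) v
  have hae : ∀ᵐ x, DifferentiableAt ℝ u x := hK.ae_differentiableAt
  have hleft : ∫ x, lineDeriv ℝ F x v * (u x * u x) = ∫ x, u x * u x * fderiv ℝ F x v := by
    refine integral_congr_ae (Eventually.of_forall fun x => ?_)
    simp only [(hF x).lineDeriv_eq_fderiv]
    ring
  have hright : ∫ x, lineDeriv ℝ (fun x => u x * u x) x (-v) * F x =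
      ∫ x, (-2) * (u x * F x * fderiv ℝ u x v) := by
    refine integral_congr_ae ?_
    filter_upwards [hae] with x hx
    have hxx : DifferentiableAt ℝ (fun x => u x * u x) x := hx.mul hx
    rw [hxx.lineDeriv_eq_fderiv]
    have h2 : fderiv ℝ (fun x => u x * u x) x = u x • fderiv ℝ u x + u x • fderiv ℝ u x :=
      fderiv_fun_mul hx hx
    rw [h2, map_neg]
    simp only [add_apply, smul_apply, smul_eq_mul]
    ring
  rw [← hleft, key, hright]

/-- Proof. As in the proof of `poincare` (GPoin): `u²` is Lipschitz with compact support.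
`LipschitzWith.integral_lineDeriv_mul_eq` with `f = X1 a`, `g = u²`, `v = (1, 0)` and with
`f = X2 a`, `v = (0, 1)` (`X_lip`): `∫ (d1 X1 + d2 X2) u² = - ∫ 2 u (d1 u X1 + d2 u X2)`. By `div_X`
the left side is `≥ ∫ |X|² u² - 3 l2 u`; the right side is
`≤ ∫ (|X|² u² / 2 + 2 |∇u|²)` (`- 2 u (g·X) ≤ |X|² u² / 2 + 2 |g|²`). So
`∫ |X|² u² ≤ 4 en u + 6 l2 u`. All integrands are bounded, measurable and vanish outside
`tsupport u` (`integrable_of_bound`; `X1 a` is continuous). -/
theorem hardy {a : ℝ} (ha : 0 < a) {u : P → ℝ} (hu : LipC univ u) :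
    Integrable (fun x => u x ^ 2 * (X1 a x ^ 2 + X2 a x ^ 2)) ∧
    ∫ x, u x ^ 2 * (X1 a x ^ 2 + X2 a x ^ 2) ≤ 6 * (l2 u + en u) := by
  obtain ⟨⟨K1, hK1⟩, K2, hK2⟩ := X_lip ha
  have hcont := LipC.cont hu
  have hI : Integrable (fun x => u x ^ 2 * (X1 a x ^ 2 + X2 a x ^ 2)) := by
    have h1 : Continuous (fun x => u x ^ 2 * (X1 a x ^ 2 + X2 a x ^ 2)) :=
      (hcont.pow 2).mul ((hK1.continuous.pow 2).add (hK2.continuous.pow 2))
    apply h1.integrable_of_hasCompactSupport
    have h2 : HasCompactSupport (fun x => u x ^ 2) :=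
      hu.2.1.comp_left (g := fun y : ℝ => y ^ 2) (by simp)
    exact h2.mul_right
  refine ⟨hI, ?_⟩
  have hl2 := LipC.integrable_sq hu
  have hen := LipC.integrable_en hu
  have hK := hu.1
  obtain ⟨K, hK⟩ := hK
  have p1 := AHar_parts hu hK1 (fun x => (X1_deriv ha x).differentiableAt) (1, 0)
  have p2 := AHar_parts hu hK2 (fun x => (X2_deriv ha x).differentiableAt) (0, 1)
  have i1 : Integrable (fun x => u x * u x * fderiv ℝ (X1 a) x (1, 0)) :=
    AHar_int hu hcont (measurable_d1 _) (fun x => fderiv_bound hK1 x (1, 0))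
  have i2 : Integrable (fun x => u x * u x * fderiv ℝ (X2 a) x (0, 1)) :=
    AHar_int hu hcont (measurable_d2 _) (fun x => fderiv_bound hK2 x (0, 1))
  have j1 : Integrable (fun x => (-2) * (u x * X1 a x * fderiv ℝ u x (1, 0))) :=
    (AHar_int hu hK1.continuous (measurable_d1 _)
      (fun x => fderiv_bound hK x (1, 0))).const_mul _
  have j2 : Integrable (fun x => (-2) * (u x * X2 a x * fderiv ℝ u x (0, 1))) :=
    (AHar_int hu hK2.continuous (measurable_d2 _)
      (fun x => fderiv_bound hK x (0, 1))).const_mul _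
  have hen0 : 0 ≤ en u := en_nonneg u
  have hlow : ∫ x, (u x ^ 2 * (X1 a x ^ 2 + X2 a x ^ 2) - 3 * u x ^ 2) ≤
      ∫ x, (u x * u x * fderiv ℝ (X1 a) x (1, 0) + u x * u x * fderiv ℝ (X2 a) x (0, 1)) := by
    refine integral_mono (hI.sub (hl2.const_mul 3)) (i1.add i2) fun x => ?_
    have h1 := div_X ha x
    unfold d1 d2 at h1
    have h2 := mul_le_mul_of_nonneg_left h1 (sq_nonneg (u x))
    simp only
    nlinarith
  have hup : ∫ x, ((-2) * (u x * X1 a x * fderiv ℝ u x (1, 0)) +
      (-2) * (u x * X2 a x * fderiv ℝ u x (0, 1))) ≤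
      ∫ x, (1 / 2 * (u x ^ 2 * (X1 a x ^ 2 + X2 a x ^ 2)) +
        2 * (d1 u x ^ 2 + d2 u x ^ 2)) := by
    refine integral_mono (j1.add j2) ((hI.const_mul _).add (hen.const_mul _)) fun x => ?_
    simp only [d1, d2]
    nlinarith [sq_nonneg (u x * X1 a x + 2 * fderiv ℝ u x (1, 0)),
      sq_nonneg (u x * X2 a x + 2 * fderiv ℝ u x (0, 1))]
  rw [integral_sub hI (hl2.const_mul 3), integral_const_mul, integral_add i1 i2, p1, p2] at hlow
  rw [integral_add j1 j2, integral_add (hI.const_mul _) (hen.const_mul _),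
    integral_const_mul (1 / 2 : ℝ), integral_const_mul (2 : ℝ)] at hup
  have e1 : ∫ x, u x ^ 2 = l2 u := rfl
  have e2 : ∫ x, (d1 u x ^ 2 + d2 u x ^ 2) = en u := rfl
  rw [e1] at hlow
  rw [e2] at hup
  linarith

end Pool.Agent.MP4eed4eX
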