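import Pool.Agent.Lib.MP_4eed4e_an_XA.APar

set_option autoImplicit false

/-!
Project X, block MA, module ALad (M8): no concentration on small sets.
-/

namespace Pool.Agent.MP4eed4eX

open MeasureTheory Set Filter Topology Metric Pool.Agent.MP4eed4eP Pool.Agent.MP4eed4eP.PG

private theorem ALad_int {g : ℝ → ℝ} (hg : Measurable g) {S : Set ℝ} (hS : IsCompact S)
    (h0 : ∀ x, x ∉ S → g x = 0) {C : ℝ} (hC : ∀ x, |g x| ≤ C) : Integrable g := by
  have h1 : IntegrableOn g S volume := by
    apply Measure.integrableOn_of_bounded (M := C) hS.measure_lt_top.ne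
      hg.aestronglyMeasurable
    exact Eventually.of_forall fun x => by rw [Real.norm_eq_abs]; exact hC x
  have h2 : Function.support g ⊆ S := by
    intro x hx
    by_contra h
    exact hx (h0 x h)
  exact (integrableOn_iff_integrable_of_support_subset h2).1 h1

private theorem ALad_der0 {w : ℝ → ℝ} (x : ℝ) (hx : x ∉ tsupport w) : deriv w x = 0 := by
  have h1 : w =ᶠ[𝓝 x] fun _ => 0 := notMem_tsupport_iff_eventuallyEq.1 hx
  rw [h1.deriv_eq]
  simp

private theorem ALad_wint {w : ℝ → ℝ} {K : NNReal} (hK : LipschitzWith K w)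
    (hc : HasCompactSupport w) : Integrable fun x => |w x * deriv w x| := by
  obtain ⟨M, hM⟩ := hc.exists_bound_of_continuous hK.continuous
  have hB : ∀ x, |deriv w x| ≤ K := fun x => by
    have := norm_deriv_le_of_lipschitz hK (x₀ := x)
    rwa [Real.norm_eq_abs] at this
  refine ALad_int (C := M * K) ?_ hc (fun x hx => ?_) fun x => ?_
  · exact ((hK.continuous.measurable).mul (measurable_deriv w)).abs
  · rw [ALad_der0 x hx, mul_zero, abs_zero]
  · rw [abs_abs, abs_mul]
    have h1 : |w x| ≤ M := by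
      rw [← Real.norm_eq_abs]
      exact hM x
    exact mul_le_mul h1 (hB x) (abs_nonneg _) ((abs_nonneg _).trans h1)

/-- Proof. Let `w` be Lipschitz with compact support on `ℝ`. `w²` is Lipschitz with
`(w²)' = 2 w w'` almost everywhere, and `w(-R) = 0` for large `R`, so (`ftc`)
`w t ^ 2 = ∫_{-R}^{t} 2 w w' ≤ 2 ∫ |w w'|`. -/
theorem sq_le_integral {w : ℝ → ℝ} (hw : ∃ K, LipschitzWith K w) (hc : HasCompactSupport w)
    (t : ℝ) : w t ^ 2 ≤ 2 * ∫ x, |w x * deriv w x| := by
  obtain ⟨K, hK⟩ := hw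
  obtain ⟨M, hM⟩ := hc.exists_bound_of_continuous hK.continuous
  have hM' : ∀ x, |w x| ≤ M := fun x => by
    rw [← Real.norm_eq_abs]
    exact hM x
  have hM0 : 0 ≤ M := (abs_nonneg _).trans (hM' 0)
  obtain ⟨s, hst, hs⟩ : ∃ s ≤ t, w s = 0 := by
    by_contra h
    push Not at h
    have h1 : Iic t ⊆ tsupport w := fun s hs => subset_tsupport _ (h s hs)
    exact not_bddBelow_Iic t ((IsCompact.bddBelow hc).mono h1)
  have hsq : ∃ K', LipschitzWith K' fun x => w x ^ 2 := by
    refine ⟨2 * M.toNNReal * K, LipschitzWith.of_dist_le_mul fun x y => ?_⟩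
    rw [Real.dist_eq]
    have e : w x ^ 2 - w y ^ 2 = (w x + w y) * (w x - w y) := by ring
    have e1 : |w x + w y| ≤ 2 * M := by
      have := abs_add_le (w x) (w y)
      linarith [hM' x, hM' y]
    have e2 : |w x - w y| ≤ K * dist x y := by
      rw [← Real.dist_eq]
      exact hK.dist_le_mul x y
    rw [e, abs_mul]
    push_cast
    rw [Real.coe_toNNReal M hM0]
    calc |w x + w y| * |w x - w y| ≤ 2 * M * (K * dist x y) :=
          mul_le_mul e1 e2 (abs_nonneg _) (by positivity)
      _ = _ := by ring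
  have h1 := (ftc hsq s t).2
  simp only [hs] at h1
  have h2 : ∫ x in s..t, deriv (fun x => w x ^ 2) x = ∫ x in s..t, 2 * (w x * deriv w x) := by
    refine intervalIntegral.integral_congr_ae ?_
    filter_upwards [hK.ae_differentiableAt (μ := volume)] with x hx _
    have := (hx.hasDerivAt.pow 2).deriv
    rw [show (fun x => w x ^ 2) = w ^ 2 from rfl, this]
    ring
  rw [h2, intervalIntegral.integral_const_mul] at h1
  have h3 : ∫ x in s..t, w x * deriv w x ≤ ∫ x in s..t, |w x * deriv w x| :=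
    (le_abs_self _).trans (intervalIntegral.abs_integral_le_integral_abs hst)
  have h4 : ∫ x in s..t, |w x * deriv w x| ≤ ∫ x, |w x * deriv w x| := by
    rw [intervalIntegral.integral_of_le hst]
    exact setIntegral_le_integral (ALad_wint hK hc)
      (Eventually.of_forall fun x => abs_nonneg _)
  nlinarith

private theorem ALad_line1 {u : P → ℝ} {K : NNReal} (hK : LipschitzWith K u)
    (hc : HasCompactSupport u) {y : ℝ}
    (hy : ∀ᵐ x : ℝ, HasDerivAt (fun t => u (t, y)) (d1 u (x, y)) x) (x : ℝ) :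
    u (x, y) ^ 2 ≤ 2 * ∫ x, |u (x, y) * d1 u (x, y)| := by
  have h1 : LipschitzWith K fun t => u (t, y) := by
    refine LipschitzWith.of_dist_le_mul fun a b => ?_
    have := hK.dist_le_mul (a, y) (b, y)
    rwa [Prod.dist_eq, dist_self, max_eq_left dist_nonneg] at this
  have h2 : HasCompactSupport fun t => u (t, y) := by
    refine HasCompactSupport.intro (hc.isCompact.image continuous_fst) fun a ha => ?_
    by_contra h
    exact ha ⟨(a, y), subset_tsupport _ h, rfl⟩
  have h3 := sq_le_integral ⟨K, h1⟩ h2 x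
  refine h3.trans (le_of_eq ?_)
  congr 1
  refine integral_congr_ae ?_
  filter_upwards [hy] with a ha
  rw [ha.deriv]

private theorem ALad_line2 {u : P → ℝ} {K : NNReal} (hK : LipschitzWith K u)
    (hc : HasCompactSupport u) {x : ℝ}
    (hx : ∀ᵐ y : ℝ, HasDerivAt (fun t => u (x, t)) (d2 u (x, y)) y) (y : ℝ) :
    u (x, y) ^ 2 ≤ 2 * ∫ y, |u (x, y) * d2 u (x, y)| := by
  have h1 : LipschitzWith K fun t => u (x, t) := by
    refine LipschitzWith.of_dist_le_mul fun a b => ?_
    have := hK.dist_le_mul (x, a) (x, b)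
    rwa [Prod.dist_eq, dist_self, max_eq_right dist_nonneg] at this
  have h2 : HasCompactSupport fun t => u (x, t) := by
    refine HasCompactSupport.intro (hc.isCompact.image continuous_snd) fun a ha => ?_
    by_contra h
    exact ha ⟨(x, a), subset_tsupport _ h, rfl⟩
  have h3 := sq_le_integral ⟨K, h1⟩ h2 y
  refine h3.trans (le_of_eq ?_)
  congr 1
  refine integral_congr_ae ?_
  filter_upwards [hx] with a ha
  rw [ha.deriv]

private theorem ALad_int1 {u : P → ℝ} {K : NNReal} (hK : LipschitzWith K u)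
    (hc : HasCompactSupport u) : Integrable fun z : P => |u z * d1 u z| := by
  obtain ⟨M, hM⟩ := hc.exists_bound_of_continuous hK.continuous
  refine integrable_of_bound (C := M * K) ?_ hc (fun x hx => ?_) fun x => ?_
  · exact ((hK.continuous.measurable).mul (measurable_d1 u)).abs
  · rw [d1_zero_off x hx, mul_zero, abs_zero]
  · rw [abs_abs, abs_mul]
    have h1 : |u x| ≤ M := by
      rw [← Real.norm_eq_abs]
      exact hM x
    have h2 : |d1 u x| ≤ K := by
      have := fderiv_bound hK x (1, 0)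
      simpa [d1, Prod.norm_def] using this
    exact mul_le_mul h1 h2 (abs_nonneg _) ((abs_nonneg _).trans h1)

private theorem ALad_int2 {u : P → ℝ} {K : NNReal} (hK : LipschitzWith K u)
    (hc : HasCompactSupport u) : Integrable fun z : P => |u z * d2 u z| := by
  obtain ⟨M, hM⟩ := hc.exists_bound_of_continuous hK.continuous
  refine integrable_of_bound (C := M * K) ?_ hc (fun x hx => ?_) fun x => ?_
  · exact ((hK.continuous.measurable).mul (measurable_d2 u)).abs
  · rw [d2_zero_off x hx, mul_zero, abs_zero]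
  · rw [abs_abs, abs_mul]
    have h1 : |u x| ≤ M := by
      rw [← Real.norm_eq_abs]
      exact hM x
    have h2 : |d2 u x| ≤ K := by
      have := fderiv_bound hK x (0, 1)
      simpa [d2, Prod.norm_def] using this
    exact mul_le_mul h1 h2 (abs_nonneg _) ((abs_nonneg _).trans h1)

private theorem ALad_int4 {u : P → ℝ} (hu : LipC univ u) : Integrable fun z : P => u z ^ 4 := by
  have h1 : Continuous fun x => u x ^ 4 := (LipC.cont hu).pow 4
  apply h1.integrable_of_hasCompactSupport
  exact hu.2.1.comp_left (g := fun y : ℝ => y ^ 4) (by simp)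

/-- Proof. `a y = 2 ∫ |u (x, y) d1 u (x, y)| dx`, `b x = 2 ∫ |u (x, y) d2 u (x, y)| dy`. By
`sq_le_integral` and `ae_partial` (Fubini for null sets: `Measure.ae_ae_of_ae_prod`, also with the
coordinates exchanged): for almost all `y`, for all `x`: `u (x, y) ^ 2 ≤ a y`, and for almost all
`x`, for all `y`: `u (x, y) ^ 2 ≤ b x`. So `u ^ 4 ≤ a y * b x` almost everywhere,
`∫ u ^ 4 ≤ (∫ a) (∫ b)` (`integral_prod_mul`) and
`∫ a = 2 ∫ |u d1 u| ≤ ∫ (u² + (d1 u)²) ≤ l2 u + en u`
(`integral_prod`; all functions are bounded and have compact support), the same for `b`. -/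
theorem ladyzhenskaya {u : P → ℝ} (hu : LipC univ u) : ∫ x, u x ^ 4 ≤ (l2 u + en u) ^ 2 := by
  have hsq := LipC.integrable_sq hu
  have hen := LipC.integrable_en hu
  have h4 := ALad_int4 hu
  obtain ⟨⟨K, hK⟩, hc, _⟩ := hu
  have hp := ae_partial ⟨K, hK⟩
  have i1 := ALad_int1 hK hc
  have i2 := ALad_int2 hK hc
  set a : ℝ → ℝ := fun y => 2 * ∫ x, |u (x, y) * d1 u (x, y)| with ha
  set b : ℝ → ℝ := fun x => 2 * ∫ y, |u (x, y) * d2 u (x, y)| with hb
  have hbx : ∀ᵐ x : ℝ, ∀ y, u (x, y) ^ 2 ≤ b x := by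
    have h1 : ∀ᵐ x : ℝ, ∀ᵐ y : ℝ, HasDerivAt (fun t => u (x, t)) (d2 u (x, y)) y := by
      have h2 := Measure.ae_ae_of_ae_prod (μ := (volume : Measure ℝ))
        (ν := (volume : Measure ℝ)) hp
      filter_upwards [h2] with x hx
      filter_upwards [hx] with y hy
      exact hy.2
    filter_upwards [h1] with x hx y
    exact ALad_line2 hK hc hx y
  have hay : ∀ᵐ y : ℝ, ∀ x, u (x, y) ^ 2 ≤ a y := by
    have h1 : ∀ᵐ y : ℝ, ∀ᵐ x : ℝ, HasDerivAt (fun t => u (t, y)) (d1 u (x, y)) x := by
      have h0 : ∀ᵐ z : P, HasDerivAt (fun t => u (t, z.swap.2)) (d1 u z.swap) z.swap.1 ∧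
          HasDerivAt (fun t => u (z.swap.1, t)) (d2 u z.swap) z.swap.2 :=
        (Measure.measurePreserving_swap (μ := (volume : Measure ℝ))
          (ν := (volume : Measure ℝ))).quasiMeasurePreserving.ae hp
      have h2 := Measure.ae_ae_of_ae_prod (μ := (volume : Measure ℝ))
        (ν := (volume : Measure ℝ)) h0
      filter_upwards [h2] with x hx
      filter_upwards [hx] with y hy
      exact hy.1
    filter_upwards [h1] with y hy x
    exact ALad_line1 hK hc hy x
  have hbz : ∀ᵐ z : P, u z ^ 2 ≤ b z.1 := by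
    have := (Measure.quasiMeasurePreserving_fst (μ := (volume : Measure ℝ))
      (ν := (volume : Measure ℝ))).ae hbx
    filter_upwards [this] with z hz
    exact hz z.2
  have haz : ∀ᵐ z : P, u z ^ 2 ≤ a z.2 := by
    have := (Measure.quasiMeasurePreserving_snd (μ := (volume : Measure ℝ))
      (ν := (volume : Measure ℝ))).ae hay
    filter_upwards [this] with z hz
    exact hz z.1
  have ia : Integrable a := (Integrable.integral_prod_right (μ := (volume : Measure ℝ))
    (ν := (volume : Measure ℝ)) i1).const_mul 2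
  have ib : Integrable b := (Integrable.integral_prod_left (μ := (volume : Measure ℝ))
    (ν := (volume : Measure ℝ)) i2).const_mul 2
  have hA : ∫ y, a y ≤ l2 u + en u := by
    have e1 : ∫ y, a y = ∫ z : P, 2 * |u z * d1 u z| := by
      rw [integral_const_mul, integral_const_mul]
      congr 1
      exact (integral_prod_symm (μ := (volume : Measure ℝ)) (ν := (volume : Measure ℝ))
        (fun z : P => |u z * d1 u z|) i1).symm
    rw [e1, l2, en, ← integral_add hsq hen]
    refine integral_mono (i1.const_mul 2) (hsq.add hen) fun z => ?_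
    show 2 * |u z * d1 u z| ≤ u z ^ 2 + (d1 u z ^ 2 + d2 u z ^ 2)
    rw [abs_mul]
    nlinarith [sq_nonneg (|u z| - |d1 u z|), sq_abs (u z), sq_abs (d1 u z), sq_nonneg (d2 u z)]
  have hB : ∫ x, b x ≤ l2 u + en u := by
    have e1 : ∫ x, b x = ∫ z : P, 2 * |u z * d2 u z| := by
      rw [integral_const_mul, integral_const_mul]
      congr 1
      exact (integral_prod (μ := (volume : Measure ℝ)) (ν := (volume : Measure ℝ))
        (fun z : P => |u z * d2 u z|) i2).symm
    rw [e1, l2, en, ← integral_add hsq hen]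
    refine integral_mono (i2.const_mul 2) (hsq.add hen) fun z => ?_
    show 2 * |u z * d2 u z| ≤ u z ^ 2 + (d1 u z ^ 2 + d2 u z ^ 2)
    rw [abs_mul]
    nlinarith [sq_nonneg (|u z| - |d2 u z|), sq_abs (u z), sq_abs (d2 u z), sq_nonneg (d1 u z)]
  have hA0 : 0 ≤ ∫ y, a y := integral_nonneg fun y =>
    mul_nonneg zero_le_two (integral_nonneg fun x => abs_nonneg _)
  have hB0 : 0 ≤ ∫ x, b x := integral_nonneg fun x =>
    mul_nonneg zero_le_two (integral_nonneg fun y => abs_nonneg _)
  calc ∫ x, u x ^ 4 ≤ ∫ z : P, b z.1 * a z.2 := by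
        refine integral_mono_ae h4 (ib.mul_prod ia) ?_
        filter_upwards [hbz, haz] with z h1 h2
        have h3 : 0 ≤ u z ^ 2 := sq_nonneg _
        calc u z ^ 4 = u z ^ 2 * u z ^ 2 := by ring
          _ ≤ b z.1 * a z.2 := mul_le_mul h1 h2 h3 (h3.trans h1)
    _ = (∫ x, b x) * ∫ y, a y := integral_prod_mul (μ := (volume : Measure ℝ))
        (ν := (volume : Measure ℝ)) b a
    _ ≤ (l2 u + en u) * (l2 u + en u) := mul_le_mul hB hA hA0 (hB0.trans hB)
    _ = _ := by ring

/-- Proof. Let `A = l2 u + en u`. If `A = 0` then `∫_S u² ≤ l2 u = 0`. If `μ = 0` then `S` is a null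
set. Otherwise with `λ = A / √μ`: `u² ≤ (λ + u⁴ / λ) / 2` pointwise, so
`∫_S u² ≤ (λ μ + A² / λ) / 2 = √μ A` (`ladyzhenskaya`; `volume.real S ≤ μ`). -/
theorem small_set {u : P → ℝ} (hu : LipC univ u) {S : Set P} (hS : MeasurableSet S) {μ : ℝ}
    (hμ : 0 ≤ μ) (hv : volume S ≤ ENNReal.ofReal μ) :
    ∫ x in S, u x ^ 2 ≤ √μ * (l2 u + en u) := by
  have hsq := LipC.integrable_sq hu
  have h4 := ALad_int4 hu
  have hl := l2_nonneg u
  have he := en_nonneg u
  have hle : ∫ x in S, u x ^ 2 ≤ l2 u :=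
    setIntegral_le_integral hsq (Eventually.of_forall fun x => sq_nonneg _)
  rcases hμ.eq_or_lt with h0 | hpos
  · rw [← h0, ENNReal.ofReal_zero] at hv
    have hv0 : volume S = 0 := nonpos_iff_eq_zero.1 hv
    rw [setIntegral_measure_zero _ hv0, ← h0, Real.sqrt_zero, zero_mul]
  rcases (add_nonneg hl he).eq_or_lt with hA | hA
  · rw [← hA, mul_zero]
    linarith
  set A := l2 u + en u with hAdef
  set s := √μ with hs
  have hs0 : 0 < s := Real.sqrt_pos.2 hpos
  have hss : s * s = μ := Real.mul_self_sqrt hμ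
  set l := A / s with hl'
  have hl0 : 0 < l := div_pos hA hs0
  have hfin : volume S ≠ ⊤ := ne_top_of_le_ne_top ENNReal.ofReal_ne_top hv
  have hreal : volume.real S ≤ μ := by
    rw [Measure.real]
    exact ENNReal.toReal_le_of_le_ofReal hμ hv
  have hc1 : IntegrableOn (fun _ : P => l / 2) S := integrableOn_const hfin
  have hc2 : IntegrableOn (fun x : P => 1 / (2 * l) * u x ^ 4) S :=
    (h4.const_mul _).integrableOn
  have hint : IntegrableOn (fun x => l / 2 + 1 / (2 * l) * u x ^ 4) S := hc1.add hc2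
  have h1 : ∫ x in S, u x ^ 2 ≤ ∫ x in S, (l / 2 + 1 / (2 * l) * u x ^ 4) := by
    refine setIntegral_mono hsq.integrableOn hint fun x => ?_
    show u x ^ 2 ≤ l / 2 + 1 / (2 * l) * u x ^ 4
    have e : l / 2 + 1 / (2 * l) * u x ^ 4 - u x ^ 2 = (u x ^ 2 - l) ^ 2 / (2 * l) := by
      field_simp
      ring
    have e2 : 0 ≤ (u x ^ 2 - l) ^ 2 / (2 * l) := by positivity
    linarith
  have h2 : ∫ x in S, (l / 2 + 1 / (2 * l) * u x ^ 4) =
      volume.real S * (l / 2) + 1 / (2 * l) * ∫ x in S, u x ^ 4 := by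
    rw [integral_add hc1 hc2, setIntegral_const, smul_eq_mul, integral_const_mul]
  have h3 : ∫ x in S, u x ^ 4 ≤ A ^ 2 :=
    (setIntegral_le_integral h4 (Eventually.of_forall fun x => by positivity)).trans
      (ladyzhenskaya hu)
  have h5 : volume.real S * (l / 2) ≤ μ * (l / 2) := by gcongr
  have h6 : 1 / (2 * l) * ∫ x in S, u x ^ 4 ≤ 1 / (2 * l) * A ^ 2 := by gcongr
  have h7 : μ * (l / 2) + 1 / (2 * l) * A ^ 2 = s * A := by
    rw [← hss, hl']
    field_simp
    ring
  linarith

end Pool.Agent.MP4eed4eX
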