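import Pool.Agent.Lib.MP_4eed4e_an_XA.AGra
import Pool.Agent.Lib.MP_4eed4e_an_XA.AFun

set_option autoImplicit false

/-!
Project X, block MA, module ALoc: the local functions `y ↦ η y * u (q + y + v y)`.
-/

namespace Pool.Agent.MP4eed4eX

open MeasureTheory Set Filter Topology Metric Pool.Agent.MP4eed4eP Pool.Agent.MP4eed4eP.PG

/-- The local function. -/
def lf (η : P → ℝ) (q : P) (v : P → P) (u : P → ℝ) (y : P) : ℝ := η y * u (q + y + v y)

/-- The homeomorphism `y ↦ q + y + v y` and the estimates for `u ∘ e`.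
Proof. `near_homeo` for `φ y = q + y + v y` (`φ y - y = q + v y` is `κ`-Lipschitz); `comp_est` with
`L = 1 + 2κ`, `M = 1 + κ`. -/
theorem exists_e {q : P} {v : P → P} {κ : NNReal} (hκ : κ ≤ 1 / 2) (hv : LipschitzWith κ v) :
    ∃ e : P ≃ₜ P, (∀ y, e y = q + y + v y) ∧ LipschitzWith (1 + κ) e ∧
      LipschitzWith (1 + 2 * κ) e.symm ∧
      ∀ u, LipC univ u → LipC univ (fun y => u (e y)) ∧
        l2 (fun y => u (e y)) + en (fun y => u (e y)) ≤ 16 * (l2 u + en u) ∧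
        ∀ S : Set P, MeasurableSet S →
          ∫ x in S, (d1 (fun y => u (e y)) x ^ 2 + d2 (fun y => u (e y)) x ^ 2) ≤
            (1 + 2 * (κ : ℝ)) ^ 4 * ∫ x in e '' S, (d1 u x ^ 2 + d2 u x ^ 2) := by
  have hφ : LipschitzWith κ (fun y => (q + y + v y) - y) := by
    refine LipschitzWith.of_dist_le_mul fun x y => ?_
    have e1 : (q + x + v x) - x = q + v x := by abel
    have e2 : (q + y + v y) - y = q + v y := by abel
    rw [e1, e2, dist_add_left]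
    exact hv.dist_le_mul x y
  obtain ⟨e, he, h1, h2, -⟩ := near_homeo (φ := fun y => q + y + v y) hκ hφ
  have hκe : LipschitzWith κ (fun x => e x - x) := by
    have e3 : (fun x => e x - x) = fun y => (q + y + v y) - y := by
      funext x
      rw [he x]
    rw [e3]
    exact hφ
  have hκ' : (κ : ℝ) ≤ 1 / 2 := by exact_mod_cast hκ
  have hκ0 : (0 : ℝ) ≤ κ := κ.coe_nonneg
  refine ⟨e, he, h1, h2, fun u hu => ?_⟩
  obtain ⟨c1, c2, c3, -, c5⟩ := comp_est e hκe h2 h1 (D := univ) (D' := univ)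
    (fun x _ => mem_univ x) hu
  have p2 : (1 + 2 * (κ : ℝ)) ^ 2 ≤ 4 := by nlinarith
  have p2' : (0 : ℝ) ≤ (1 + 2 * (κ : ℝ)) ^ 2 := sq_nonneg _
  have hen := en_nonneg u
  have hl2 := l2_nonneg u
  have hc : ((1 + 2 * κ : NNReal) : ℝ) = 1 + 2 * (κ : ℝ) := by push_cast; ring
  rw [hc] at c2 c3
  refine ⟨c1, ?_, fun S hS => ?_⟩
  · have q1 : (1 + 2 * (κ : ℝ)) ^ 2 * (1 + 2 * (κ : ℝ)) ^ 2 * en u ≤ 16 * en u := by
      refine mul_le_mul_of_nonneg_right ?_ hen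
      nlinarith
    have q2 : (1 + 2 * (κ : ℝ)) ^ 2 * l2 u ≤ 16 * l2 u := by
      refine mul_le_mul_of_nonneg_right ?_ hl2
      linarith
    linarith
  · have c6 := c5 S hS
    rw [hc] at c6
    have q3 : (1 + 2 * (κ : ℝ)) ^ 4 = (1 + 2 * (κ : ℝ)) ^ 2 * (1 + 2 * (κ : ℝ)) ^ 2 := by ring
    rw [q3]
    exact c6

private theorem LipC_univ_of {D : Set P} {u : P → ℝ} (hu : LipC D u) : LipC univ u :=
  ⟨hu.1, hu.2.1, subset_univ _⟩

/-- Proof. `F = lf η q v u = η * (u ∘ e)` (`exists_e`) is in `LipC univ` (`lipC_mul`). Let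
`y ∈ frontier O`. If `dist y w < ρ` for some `w ∈ W`, then `η = 0` on a ball about `y`, so
`y ∉ tsupport F`. Otherwise `e y ∉ D`, so `e y ∉ tsupport u` and `u` vanishes near `e y`, `u ∘ e`
vanishes near `y`. Now `lipC_ind`, `en_ind`. -/
theorem lf_ind {D O : Set P} (hO : IsOpen O) {η : P → ℝ} (hη : ∃ K, LipschitzWith K η)
    (h01 : ∀ x, 0 ≤ η x ∧ η x ≤ 1) {W : Finset P} {ρ : ℝ}
    (hρ : ∀ x, (∃ w ∈ W, dist x w < ρ) → η x = 0) {q : P} {v : P → P} {κ : NNReal}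
    (hκ : κ ≤ 1 / 2) (hv : LipschitzWith κ v)
    (hfr : ∀ y ∈ frontier O, (∀ w ∈ W, ρ ≤ dist y w) → q + y + v y ∉ D) {u : P → ℝ}
    (hu : LipC D u) :
    LipC O (O.indicator (lf η q v u)) ∧
    en (O.indicator (lf η q v u)) = (∫ x in O, (d1 (lf η q v u) x ^ 2 + d2 (lf η q v u) x ^ 2)) ∧
    l2 (O.indicator (lf η q v u)) = ∫ x in O, lf η q v u x ^ 2 := by
  obtain ⟨e, he, -, -, hw⟩ := exists_e (q := q) hκ hv
  obtain ⟨w1, -, -⟩ := hw u (LipC_univ_of hu)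
  have hF : lf η q v u = fun x => η x * u (e x) := by
    funext x
    rw [he x]
    rfl
  have hFL : LipC univ (lf η q v u) := by
    rw [hF]
    exact lipC_mul w1 hη fun x => abs_le.2 ⟨by linarith [(h01 x).1], (h01 x).2⟩
  have hfr' : ∀ y ∈ frontier O, y ∉ tsupport (lf η q v u) := by
    intro y hy
    rw [notMem_tsupport_iff_eventuallyEq]
    by_cases hW : ∃ w ∈ W, dist y w < ρ
    · obtain ⟨w, hw1, hw2⟩ := hW
      have ev : ∀ᶠ z in 𝓝 y, dist z w < ρ :=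
        (continuous_id.dist continuous_const).continuousAt.eventually_lt
          continuousAt_const hw2
      filter_upwards [ev] with z hz
      have hz0 := hρ z ⟨w, hw1, hz⟩
      simp only [lf, hz0, zero_mul, Pi.zero_apply]
    · push Not at hW
      have hD := hfr y hy hW
      rw [← he y] at hD
      have hu0 : e y ∉ tsupport u := fun h => hD (hu.2.2 h)
      rw [notMem_tsupport_iff_eventuallyEq] at hu0
      have ev := e.continuous.continuousAt.eventually hu0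
      filter_upwards [ev] with z hz
      rw [hF]
      simp only [Pi.zero_apply] at hz ⊢
      rw [hz, mul_zero]
  exact ⟨(lipC_ind hO hFL hfr').1, en_ind hO hFL hfr'⟩

private theorem aloc_sq {s t a θ : ℝ} (hθ : 0 < θ) (hθ1 : θ ≤ 1) (h : s ^ 2 ≤ a ^ 2) :
    (s + t) ^ 2 ≤ (1 + θ) * a ^ 2 + 2 / θ * t ^ 2 := by
  have h1 : 1 ≤ 1 / θ := by
    rw [le_div_iff₀ hθ]
    linarith
  have h2 : 0 ≤ (θ * s - t) ^ 2 / θ := by positivity
  have h3 : (θ * s - t) ^ 2 / θ = θ * s ^ 2 - 2 * s * t + 1 / θ * t ^ 2 := by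
    field_simp
    ring
  have h4 : 2 / θ * t ^ 2 = 1 / θ * t ^ 2 + 1 / θ * t ^ 2 := by ring
  have h5 : 1 * t ^ 2 ≤ 1 / θ * t ^ 2 := mul_le_mul_of_nonneg_right h1 (sq_nonneg t)
  have h6 : (1 + θ) * s ^ 2 ≤ (1 + θ) * a ^ 2 := mul_le_mul_of_nonneg_left h (by linarith)
  have h7 : (s + t) ^ 2 = s ^ 2 + 2 * s * t + t ^ 2 := by ring
  rw [h7, h4]
  linarith

private theorem aloc_int {w η : P → ℝ} (hw : LipC univ w) (hη : ∃ K, LipschitzWith K η) :
    Integrable (fun x => w x ^ 2 * (d1 η x ^ 2 + d2 η x ^ 2)) := by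
  obtain ⟨K, hK⟩ := hη
  obtain ⟨M, hM⟩ := hw.2.1.exists_bound_of_continuous (LipC.cont hw)
  refine integrable_of_bound (((LipC.cont hw).measurable.pow_const 2).mul
    (((measurable_d1 η).pow_const 2).add ((measurable_d2 η).pow_const 2))) hw.2.1
    (fun x hx => ?_) (C := M ^ 2 * (2 * (K : ℝ) ^ 2)) fun x => ?_
  · rw [image_eq_zero_of_notMem_tsupport hx]
    ring
  · have h1 := fderiv_bound hK x (1, 0)
    have h2 := fderiv_bound hK x (0, 1)
    have n1 : ‖((1 : ℝ), (0 : ℝ))‖ = 1 := by simp [Prod.norm_def]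
    have n2 : ‖((0 : ℝ), (1 : ℝ))‖ = 1 := by simp [Prod.norm_def]
    rw [n1, mul_one] at h1
    rw [n2, mul_one] at h2
    have g1 : d1 η x ^ 2 ≤ (K : ℝ) ^ 2 := sq_le_sq' (abs_le.1 h1).1 (abs_le.1 h1).2
    have g2 : d2 η x ^ 2 ≤ (K : ℝ) ^ 2 := sq_le_sq' (abs_le.1 h2).1 (abs_le.1 h2).2
    have g3 : |w x| ≤ M := by rw [← Real.norm_eq_abs]; exact hM x
    have g4 : w x ^ 2 ≤ M ^ 2 := sq_le_sq' (abs_le.1 g3).1 (abs_le.1 g3).2
    rw [abs_of_nonneg (by positivity)]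
    exact mul_le_mul g4 (by linarith) (by positivity) (by positivity)

/-- Proof. With `w = u ∘ e` (`exists_e`), at almost every point (where `η` and `w` are differentiable)
`∇(η w) = η ∇w + w ∇η`, so `|∇(η w)|² ≤ (1 + θ) η² |∇w|² + (1 + 1/θ) w² |∇η|²` and `1 + 1/θ ≤ 2/θ`,
`η² ≤ 1`. Integrate over `O`: `exists_e` for the first term, `hcut` for `w` and
`l2 w + en w ≤ 16 (l2 u + en u)` for the second (the integral over `O` is at most the whole integral).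
All integrands are bounded and vanish outside a compact set (`integrable_of_bound`). -/
theorem loc_en {O : Set P} (hO : IsOpen O) {η : P → ℝ} (hη : ∃ K, LipschitzWith K η)
    (h01 : ∀ x, 0 ≤ η x ∧ η x ≤ 1) {ε₁ : ℝ} (hε₁ : 0 ≤ ε₁)
    (hcut : ∀ u, LipC univ u → ∫ x, u x ^ 2 * (d1 η x ^ 2 + d2 η x ^ 2) ≤ ε₁ * (l2 u + en u))
    {q : P} {v : P → P} {κ : NNReal} (hκ : κ ≤ 1 / 2) (hv : LipschitzWith κ v) {u : P → ℝ}
    (hu : LipC univ u) {θ : ℝ} (hθ : 0 < θ) (hθ1 : θ ≤ 1) :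
    ∫ x in O, (d1 (lf η q v u) x ^ 2 + d2 (lf η q v u) x ^ 2) ≤
      (1 + θ) * (1 + 2 * (κ : ℝ)) ^ 4 *
        (∫ x in (fun y => q + y + v y) '' O, (d1 u x ^ 2 + d2 u x ^ 2)) +
      32 * ε₁ / θ * (l2 u + en u) := by
  obtain ⟨e, he, -, -, hw⟩ := exists_e (q := q) hκ hv
  obtain ⟨w1, w2, w3⟩ := hw u hu
  have w4 := w3 O hO.measurableSet
  have hefun : (fun y => q + y + v y) = ⇑e := (funext he).symm
  have hF : lf η q v u = fun x => η x * u (e x) := by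
    funext x
    rw [he x]
    rfl
  rw [hF, hefun]
  generalize hwd : (fun y => u (e y)) = w at w1 w2 w4
  have hcw := hcut w w1
  have hF2 : (fun x => η x * u (e x)) = fun x => η x * w x := by
    rw [← hwd]
  rw [hF2]
  have hFL : LipC univ (fun x => η x * w x) :=
    lipC_mul w1 hη fun x => abs_le.2 ⟨by linarith [(h01 x).1], (h01 x).2⟩
  have hig := aloc_int w1 hη
  obtain ⟨K', hK'⟩ := hη
  obtain ⟨K, hK⟩ := w1.1
  have hd1 : ∀ᵐ x, DifferentiableAt ℝ η x := hK'.ae_differentiableAt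
  have hd2 : ∀ᵐ x, DifferentiableAt ℝ w x := hK.ae_differentiableAt
  have hpt : ∀ᵐ x, d1 (fun x => η x * w x) x ^ 2 + d2 (fun x => η x * w x) x ^ 2 ≤
      (1 + θ) * (d1 w x ^ 2 + d2 w x ^ 2) +
        2 / θ * (w x ^ 2 * (d1 η x ^ 2 + d2 η x ^ 2)) := by
    filter_upwards [hd1, hd2] with x a1 a2
    have hf : fderiv ℝ (fun x => η x * w x) x = η x • fderiv ℝ w x + w x • fderiv ℝ η x :=
      fderiv_fun_mul a1 a2
    have b1 : d1 (fun x => η x * w x) x = η x * d1 w x + w x * d1 η x := by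
      unfold d1
      rw [hf]
      rfl
    have b2 : d2 (fun x => η x * w x) x = η x * d2 w x + w x * d2 η x := by
      unfold d2
      rw [hf]
      rfl
    rw [b1, b2]
    have hη2 : η x ^ 2 ≤ 1 := by
      have := h01 x
      nlinarith [this.1, this.2]
    have c1 : (η x * d1 w x) ^ 2 ≤ d1 w x ^ 2 := by
      rw [mul_pow]
      exact mul_le_of_le_one_left (sq_nonneg _) hη2
    have c2 : (η x * d2 w x) ^ 2 ≤ d2 w x ^ 2 := by
      rw [mul_pow]
      exact mul_le_of_le_one_left (sq_nonneg _) hη2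
    have s1 := aloc_sq (t := w x * d1 η x) hθ hθ1 c1
    have s2 := aloc_sq (t := w x * d2 η x) hθ hθ1 c2
    have s3 : 2 / θ * (w x ^ 2 * (d1 η x ^ 2 + d2 η x ^ 2)) =
        2 / θ * (w x * d1 η x) ^ 2 + 2 / θ * (w x * d2 η x) ^ 2 := by ring
    rw [s3]
    linarith
  have hiF := LipC.integrable_en hFL
  have hiw := LipC.integrable_en w1
  have k1 : ∫ x in O, (d1 (fun x => η x * w x) x ^ 2 + d2 (fun x => η x * w x) x ^ 2) ≤
      ∫ x in O, ((1 + θ) * (d1 w x ^ 2 + d2 w x ^ 2) +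
        2 / θ * (w x ^ 2 * (d1 η x ^ 2 + d2 η x ^ 2))) :=
    setIntegral_mono_ae hiF.integrableOn
      ((hiw.const_mul _).add (hig.const_mul _)).integrableOn hpt
  have k2 : ∫ x in O, ((1 + θ) * (d1 w x ^ 2 + d2 w x ^ 2) +
        2 / θ * (w x ^ 2 * (d1 η x ^ 2 + d2 η x ^ 2))) =
      (1 + θ) * (∫ x in O, (d1 w x ^ 2 + d2 w x ^ 2)) +
        2 / θ * ∫ x in O, w x ^ 2 * (d1 η x ^ 2 + d2 η x ^ 2) := by
    rw [integral_add (hiw.const_mul _).integrableOn (hig.const_mul _).integrableOn,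
      integral_const_mul, integral_const_mul]
  have k3 : ∫ x in O, w x ^ 2 * (d1 η x ^ 2 + d2 η x ^ 2) ≤
      ∫ x, w x ^ 2 * (d1 η x ^ 2 + d2 η x ^ 2) :=
    setIntegral_le_integral hig (Eventually.of_forall fun x => by positivity)
  have k4 : ∫ x in O, w x ^ 2 * (d1 η x ^ 2 + d2 η x ^ 2) ≤ ε₁ * (16 * (l2 u + en u)) :=
    k3.trans (hcw.trans (mul_le_mul_of_nonneg_left w2 hε₁))
  have k5 : (1 + θ) * (∫ x in O, (d1 w x ^ 2 + d2 w x ^ 2)) ≤
      (1 + θ) * ((1 + 2 * (κ : ℝ)) ^ 4 * ∫ x in e '' O, (d1 u x ^ 2 + d2 u x ^ 2)) :=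
    mul_le_mul_of_nonneg_left w4 (by linarith)
  have k6 : 2 / θ * ∫ x in O, w x ^ 2 * (d1 η x ^ 2 + d2 η x ^ 2) ≤
      2 / θ * (ε₁ * (16 * (l2 u + en u))) :=
    mul_le_mul_of_nonneg_left k4 (by positivity)
  have k7 : (1 + θ) * (1 + 2 * (κ : ℝ)) ^ 4 *
        (∫ x in e '' O, (d1 u x ^ 2 + d2 u x ^ 2)) + 32 * ε₁ / θ * (l2 u + en u) =
      (1 + θ) * ((1 + 2 * (κ : ℝ)) ^ 4 * ∫ x in e '' O, (d1 u x ^ 2 + d2 u x ^ 2)) +
        2 / θ * (ε₁ * (16 * (l2 u + en u))) := by ring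
  rw [k7]
  linarith

end Pool.Agent.MP4eed4eX
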