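import Pool.Agent.Lib.MP_4eed4e_an_XA.ALoc
import Pool.Agent.Lib.MP_4eed4e_an_XA.ALad

set_option autoImplicit false

/-!
Project X, block MA, module ALoc2: the mass of the local functions.
-/

namespace Pool.Agent.MP4eed4eX

open MeasureTheory Set Filter Topology Metric Pool.Agent.MP4eed4eP Pool.Agent.MP4eed4eP.PG

/-- Proof. The volume of `closedBall w ε₁` is `(2 ε₁)²` (`volume_ball_P` in GBump), finite union
(`measure_biUnion_finset_le`). -/
theorem volume_balls (W : Finset P) {ε₁ : ℝ} (hε₁ : 0 ≤ ε₁) :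
    volume (⋃ w ∈ W, closedBall w ε₁) ≤ ENNReal.ofReal (W.card * (4 * ε₁ ^ 2)) := by
  have h1 : ∀ w : P, volume (closedBall w ε₁) = ENNReal.ofReal (4 * ε₁ ^ 2) := by
    intro w
    rw [← volume_ball_P w hε₁, ENNReal.ofReal_toReal measure_closedBall_lt_top.ne]
  calc volume (⋃ w ∈ W, closedBall w ε₁) ≤ ∑ w ∈ W, volume (closedBall w ε₁) :=
        measure_biUnion_finset_le _ _
    _ = ENNReal.ofReal (W.card * (4 * ε₁ ^ 2)) := by
        simp only [h1, Finset.sum_const, nsmul_eq_mul]
        rw [ENNReal.ofReal_mul (p := (W.card : ℝ)) (by positivity), ENNReal.ofReal_natCast]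

/-- Proof. `w = u ∘ e` (`exists_e`), `B = closedBall 0 (R + 1)`.
(1) `∫_{closedBall q R} u² ≤ (1 + κ)² ∫_B w²`: `integral_comp_le` for the homeomorphism `e.symm`
(its inverse `e` is Lipschitz with `1 + κ`), `g = w²`, `S = closedBall q R`, `w (e.symm x) = u x`;
`e.symm '' closedBall q R ⊆ B` since `e y = q + y + v y`, `‖v y‖ ≤ 1`.
(2) `∫_B w² ≤ ∫_O w² + ∫_{(B \ O) \ K} w²`, because `w = 0` on `K` (`hKD`, `u = 0` outside `D`); the
last integral is `≤ √μ (l2 w + en w)` (`small_set`).
(3) `∫_O w² ≤ ∫_O (lf η q v u)² + ∫_Z w²`, `Z = ⋃ w ∈ W, closedBall w ε₁`, because `η = 1` outside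
`Z`; the last integral is `≤ √(W.card * (4 ε₁²)) (l2 w + en w)` (`small_set`, `volume_balls`).
(4) `l2 w + en w ≤ 16 (l2 u + en u)`. -/
theorem loc_l2 {D O K : Set P} (hO : IsOpen O) {η : P → ℝ} (hη : ∃ K, LipschitzWith K η)
    (h01 : ∀ x, 0 ≤ η x ∧ η x ≤ 1) {W : Finset P} {ε₁ : ℝ} (hε₁ : 0 ≤ ε₁)
    (h1 : ∀ x, (∀ w ∈ W, ε₁ ≤ dist x w) → η x = 1)
    {q : P} {v : P → P} {κ : NNReal} (hκ : κ ≤ 1 / 2) (hv : LipschitzWith κ v)
    (hv1 : ∀ y, ‖v y‖ ≤ 1) {R μ : ℝ} (hμ : 0 ≤ μ) (hK : IsCompact K)
    (hKv : volume ((closedBall 0 (R + 1) \ O) \ K) ≤ ENNReal.ofReal μ)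
    (hKD : ∀ y ∈ K, q + y + v y ∉ D) {u : P → ℝ} (hu : LipC D u) :
    ∫ x in closedBall q R, u x ^ 2 ≤ (1 + (κ : ℝ)) ^ 2 * ((∫ x in O, lf η q v u x ^ 2) +
      16 * (√μ + √(W.card * (4 * ε₁ ^ 2))) * (l2 u + en u)) := by
  obtain ⟨e, he, heL, -, hcomp⟩ := exists_e (q := q) hκ hv
  have hu' : LipC univ u := ⟨hu.1, hu.2.1, subset_univ _⟩
  obtain ⟨hwL, hsum, -⟩ := hcomp u hu'
  set w : P → ℝ := fun y => u (e y) with hw
  have hwI : Integrable (fun x => w x ^ 2) := LipC.integrable_sq hwL
  have hwc : Continuous w := LipC.cont hwL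
  have hηc : Continuous η := hη.choose_spec.continuous
  -- zero outside `D`
  have hu0 : ∀ x, x ∉ D → u x = 0 := by
    intro x hx
    by_contra h
    exact hx (hu.2.2 (subset_tsupport _ h))
  have hlf : ∀ x, lf η q v u x = η x * w x := by
    intro x
    simp only [lf, hw, he]
  have hlfI : Integrable (fun x => lf η q v u x ^ 2) := by
    refine hwI.mono ?_ ?_
    · have : (fun x => lf η q v u x ^ 2) = fun x => (η x * w x) ^ 2 := by
        funext x
        rw [hlf]
      rw [this]
      exact ((hηc.mul hwc).pow 2).aestronglyMeasurable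
    · refine Eventually.of_forall fun x => ?_
      rw [hlf, Real.norm_of_nonneg (sq_nonneg _), Real.norm_of_nonneg (sq_nonneg _), mul_pow]
      have h2 : η x ^ 2 ≤ 1 := by
        have := h01 x
        nlinarith [this.1, this.2]
      nlinarith [sq_nonneg (w x)]
  -- step 1
  have s1 : ∫ x in closedBall q R, u x ^ 2 ≤
      (1 + (κ : ℝ)) ^ 2 * ∫ x in closedBall (0 : P) (R + 1), w x ^ 2 := by
    have h2 := (integral_comp_le e.symm (L := 1 + κ) (by simpa using heL)
      (g := fun x => w x ^ 2) (fun x => sq_nonneg _) hwI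
      (S := closedBall q R) measurableSet_closedBall).2
    have h3 : ∀ x, w (e.symm x) = u x := by
      intro x
      simp [hw]
    simp only [h3] at h2
    refine h2.trans ?_
    have h4 : ((1 + κ : NNReal) : ℝ) = 1 + (κ : ℝ) := by push_cast; ring
    rw [h4]
    refine mul_le_mul_of_nonneg_left ?_ (by positivity)
    refine setIntegral_mono_set hwI.integrableOn (Eventually.of_forall fun x => sq_nonneg _) ?_
    refine HasSubset.Subset.eventuallyLE ?_
    rintro _ ⟨x, hx, rfl⟩
    rw [mem_closedBall, dist_eq_norm] at hx ⊢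
    have h5 : e.symm x = (x - q) - v (e.symm x) := by
      have := he (e.symm x)
      rw [e.apply_symm_apply] at this
      have h6 : x - q - v (e.symm x) = (q + e.symm x + v (e.symm x)) - q - v (e.symm x) := by
        rw [← this]
      rw [h6]
      abel
    rw [sub_zero, h5]
    exact (norm_sub_le _ _).trans (add_le_add hx (hv1 _))
  -- step 2
  set Z : Set P := ⋃ z ∈ W, closedBall z ε₁ with hZ
  have hZm : MeasurableSet Z := by
    refine Finset.measurableSet_biUnion W fun z _ => measurableSet_closedBall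
  set T : Set P := (closedBall 0 (R + 1) \ O) \ K with hT
  have hTm : MeasurableSet T :=
    (measurableSet_closedBall.diff hO.measurableSet).diff hK.measurableSet
  have s2 : ∫ x in closedBall (0 : P) (R + 1), w x ^ 2 ≤
      (∫ x in O, lf η q v u x ^ 2) + (∫ x in Z, w x ^ 2) + ∫ x in T, w x ^ 2 := by
    have i1 := hlfI.indicator hO.measurableSet
    have i2 := hwI.indicator hZm
    have i3 := hwI.indicator hTm
    have e1 : (∫ x in O, lf η q v u x ^ 2) + (∫ x in Z, w x ^ 2) + (∫ x in T, w x ^ 2) =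
        ∫ x, (O.indicator (fun x => lf η q v u x ^ 2) x + Z.indicator (fun x => w x ^ 2) x +
          T.indicator (fun x => w x ^ 2) x) := by
      have e2 := integral_add i1 i2
      have e3 := integral_add (i1.add i2) i3
      simp only [Pi.add_apply] at e3
      rw [e3, e2, integral_indicator hO.measurableSet, integral_indicator hZm,
        integral_indicator hTm]
    rw [e1, ← integral_indicator measurableSet_closedBall]
    refine integral_mono (hwI.indicator measurableSet_closedBall)
      ((i1.add i2).add i3) ?_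
    intro x
    have n1 : 0 ≤ O.indicator (fun x => lf η q v u x ^ 2) x :=
      indicator_nonneg (fun _ _ => sq_nonneg _) x
    have n2 : 0 ≤ Z.indicator (fun x => w x ^ 2) x := indicator_nonneg (fun _ _ => sq_nonneg _) x
    have n3 : 0 ≤ T.indicator (fun x => w x ^ 2) x := indicator_nonneg (fun _ _ => sq_nonneg _) x
    simp only
    by_cases hB : x ∈ closedBall (0 : P) (R + 1)
    · rw [indicator_of_mem hB]
      by_cases hxO : x ∈ O
      · by_cases hxZ : x ∈ Z
        · have h6 : Z.indicator (fun x => w x ^ 2) x = w x ^ 2 := indicator_of_mem hxZ _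
          linarith
        · have h7 : η x = 1 := by
            apply h1
            intro z hz
            by_contra h8
            push Not at h8
            exact hxZ (mem_iUnion₂.2 ⟨z, hz, by rw [mem_closedBall]; exact h8.le⟩)
          have h6 : O.indicator (fun x => lf η q v u x ^ 2) x = w x ^ 2 := by
            rw [indicator_of_mem hxO, hlf, h7, one_mul]
          linarith
      · by_cases hxK : x ∈ K
        · have h8 : w x = 0 := by
            simp only [hw]
            rw [he]
            exact hu0 _ (hKD x hxK)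
          rw [h8]
          norm_num
          linarith
        · have h6 : T.indicator (fun x => w x ^ 2) x = w x ^ 2 :=
            indicator_of_mem (show x ∈ T from ⟨⟨hB, hxO⟩, hxK⟩) _
          linarith
    · rw [indicator_of_notMem hB]
      linarith
  have s3 := small_set hwL hZm (μ := W.card * (4 * ε₁ ^ 2)) (by positivity)
    (volume_balls W hε₁)
  have s4 := small_set hwL hTm hμ hKv
  have s5 : (√μ + √(W.card * (4 * ε₁ ^ 2))) * (l2 w + en w) ≤
      (√μ + √(W.card * (4 * ε₁ ^ 2))) * (16 * (l2 u + en u)) :=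
    mul_le_mul_of_nonneg_left hsum (by positivity)
  refine s1.trans (mul_le_mul_of_nonneg_left ?_ (by positivity))
  linarith

end Pool.Agent.MP4eed4eX
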