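import Mathlib

set_option autoImplicit false

/-!
Project X, block MA, module APrm: choice of the parameters (elementary inequalities).
-/

namespace Pool.Agent.MP4eed4eX

private theorem key_ineq {ε κ a b a' b' θ A γ F : ℝ} (hε : 0 < ε) (hε1 : ε ≤ 1) (hκ0 : 0 ≤ κ)
    (hκ : κ ≤ ε / 120) (ha : 0 ≤ a) (hb : 0 ≤ b) (hθ : θ = ε / 4)
    (hA : A ≤ ε / 4) (hγ : γ ≤ ε / 8) (hF : F ≤ ε / 4) (hF0 : 0 ≤ F)
    (h1 : a' ≤ (1 + θ) * (1 + 2 * κ) ^ 4 * a + A * (b + a))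
    (h2 : b ≤ F * a + (1 + κ) ^ 2 * (b' + γ * (b + a))) :
    a' ≤ (1 + ε) * a + ε * b ∧ (1 - ε) * b - ε * a ≤ b' := by
  subst hθ
  constructor
  · have e1 : (1 + 2 * κ) ^ 4 ≤ 1 + ε / 4 := by
      have h3 : (1 + 2 * κ) ^ 4 ≤ 1 + 15 * (2 * κ) := by
        have : 2 * κ ≤ 1 := by linarith
        have h4 : (0 : ℝ) ≤ 2 * κ := by linarith
        set t := 2 * κ with ht
        have h5 : t ^ 2 ≤ t := by nlinarith
        have h6 : t ^ 3 ≤ t := by nlinarith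
        have h7 : t ^ 4 ≤ t := by nlinarith
        nlinarith
      linarith
    have e2 : (1 + ε / 4) * (1 + 2 * κ) ^ 4 ≤ 1 + 3 / 4 * ε := by
      have h3 : (1 + ε / 4) * (1 + 2 * κ) ^ 4 ≤ (1 + ε / 4) * (1 + ε / 4) := by
        gcongr
      nlinarith
    have e3 : (1 + ε / 4) * (1 + 2 * κ) ^ 4 * a ≤ (1 + 3 / 4 * ε) * a :=
      mul_le_mul_of_nonneg_right e2 ha
    have e4 : A * (b + a) ≤ ε / 4 * (b + a) := mul_le_mul_of_nonneg_right hA (by linarith)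
    have e5 : 0 ≤ ε * b := by positivity
    nlinarith
  · have k1 : (1 + κ) ^ 2 ≤ 1 + 3 * κ := by nlinarith
    have k0 : 1 ≤ (1 + κ) ^ 2 := by nlinarith
    have s1 : F * a ≤ ε / 4 * a := mul_le_mul_of_nonneg_right hF ha
    have s2 : γ * (b + a) ≤ ε / 8 * (b + a) := mul_le_mul_of_nonneg_right hγ (by linarith)
    -- let X = b' + γ (b + a)
    set X := b' + γ * (b + a) with hX
    have hmain : (1 - 3 * κ) * b - F * a ≤ X := by
      rcases le_or_gt 0 X with hX0 | hX0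
      · have h3 : b - F * a ≤ (1 + 3 * κ) * X := by
          have : (1 + κ) ^ 2 * X ≤ (1 + 3 * κ) * X := mul_le_mul_of_nonneg_right k1 hX0
          linarith
        by_contra hcon
        push Not at hcon
        -- X < (1 - 3κ) b - F a
        have h4 : (1 + 3 * κ) * X < (1 + 3 * κ) * ((1 - 3 * κ) * b - F * a) := by
          apply mul_lt_mul_of_pos_left hcon
          linarith
        have h5 : (1 + 3 * κ) * ((1 - 3 * κ) * b - F * a) =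
            (1 - 9 * κ ^ 2) * b - (1 + 3 * κ) * (F * a) := by ring
        have h6 : 0 ≤ 9 * κ ^ 2 * b := by positivity
        have h7 : 0 ≤ 3 * κ * (F * a) := by positivity
        nlinarith
      · have h3 : (1 + κ) ^ 2 * X ≤ X := by nlinarith
        have h4 : 0 ≤ 3 * κ * b := by positivity
        nlinarith
    have h8 : b' = X - γ * (b + a) := by rw [hX]; ring
    have h9 : 3 * κ * b ≤ ε / 40 * b := by
      apply mul_le_mul_of_nonneg_right _ hb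
      linarith
    rw [h8]
    nlinarith [mul_nonneg hε.le ha, mul_nonneg hε.le hb]

/-- `a = en u`, `b = l2 u`, `a' = en (T u)`, `b' = l2 (T u)`; `c, e, N` are cardinalities.
Proof. `θ = ε / 4`, `κ₀ = ε / 120`; `(1 + 2κ)⁴ ≤ 1 + 30 κ ≤ 1 + ε / 4` for `κ ≤ κ₀`. `ε₁` so
small that `c * (32 ε₁ / θ) ≤ ε / 4` and `c * 16 * √(N * 4 ε₁²) = 32 c √N ε₁ ≤ ε / 16`; `μ` so
small that `16 c √μ ≤ ε / 16`; `δ` so small that `4 e δ² ≤ ε / 4`. -/
theorem params (c e N : ℕ) {ε : ℝ} (hε : 0 < ε) (hε1 : ε ≤ 1) :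
    ∃ θ ε₁ μ δ : ℝ, ∃ κ₀ : NNReal, 0 < θ ∧ θ ≤ 1 ∧ 0 < ε₁ ∧ 0 < μ ∧ 0 < δ ∧ δ ≤ 1 ∧ 0 < κ₀ ∧
      κ₀ ≤ 1 / 2 ∧ ∀ κ : NNReal, κ ≤ κ₀ → ∀ a b a' b' : ℝ, 0 ≤ a → 0 ≤ b → 0 ≤ a' → 0 ≤ b' →
        a' ≤ (1 + θ) * (1 + 2 * (κ : ℝ)) ^ 4 * a + c * (32 * ε₁ / θ) * (b + a) →
        b ≤ e * (2 * δ) ^ 2 * a + (1 + (κ : ℝ)) ^ 2 * (b' +
          c * (16 * (√μ + √(N * (4 * ε₁ ^ 2)))) * (b + a)) →
        a' ≤ (1 + ε) * a + ε * b ∧ (1 - ε) * b - ε * a ≤ b' := by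
  have hc0 : (0 : ℝ) ≤ c := Nat.cast_nonneg c
  have he0 : (0 : ℝ) ≤ e := Nat.cast_nonneg e
  have hN0 : (0 : ℝ) ≤ N := Nat.cast_nonneg N
  have hεsq : ε ^ 2 ≤ ε := by nlinarith
  set ε₁ : ℝ := ε ^ 2 / (512 * (c + 1) * (N + 1)) with hε₁
  have hε₁0 : 0 < ε₁ := by positivity
  have hε₁m : ε₁ * (512 * (c + 1) * (N + 1)) = ε ^ 2 := by rw [hε₁]; field_simp
  set m : ℝ := ε / (256 * (c + 1)) with hm
  have hm0 : 0 < m := by positivity
  have hmm : m * (256 * (c + 1)) = ε := by rw [hm]; field_simp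
  set δ : ℝ := ε / (16 * (e + 1)) with hδ
  have hδ0 : 0 < δ := by positivity
  have hδm : δ * (16 * (e + 1)) = ε := by rw [hδ]; field_simp
  have hδ1 : δ ≤ 1 := by nlinarith
  refine ⟨ε / 4, ε₁, m ^ 2, δ, ⟨ε / 120, by positivity⟩, by positivity, by linarith, hε₁0,
    by positivity, hδ0, hδ1, ?_, ?_, ?_⟩
  · rw [← NNReal.coe_pos]
    show (0 : ℝ) < ε / 120
    positivity
  · rw [← NNReal.coe_le_coe]
    show ε / 120 ≤ ((1 / 2 : NNReal) : ℝ)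
    push_cast
    linarith
  · intro κ hκ a b a' b' ha hb _ _ h1 h2
    have hκ' : (κ : ℝ) ≤ ε / 120 := by
      have := NNReal.coe_le_coe.2 hκ
      exact this
    have hA : (c : ℝ) * (32 * ε₁ / (ε / 4)) ≤ ε / 4 := by
      have e1 : (c : ℝ) * (32 * ε₁ / (ε / 4)) = 128 * c * ε₁ / ε := by field_simp; ring
      rw [e1, div_le_iff₀ hε]
      have e2 : 512 * c * ε₁ ≤ ε₁ * (512 * (c + 1) * (N + 1)) := by
        nlinarith [mul_nonneg hε₁0.le hc0, mul_nonneg (mul_nonneg hε₁0.le hc0) hN0,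
          mul_nonneg hε₁0.le hN0]
      nlinarith
    have hs1 : √(m ^ 2) = m := Real.sqrt_sq hm0.le
    have hs2 : √((N : ℝ) * (4 * ε₁ ^ 2)) ≤ 2 * ε₁ * (N + 1) := by
      rw [Real.sqrt_le_left (by positivity)]
      have : (N : ℝ) ≤ (N + 1) ^ 2 := by nlinarith
      nlinarith [mul_le_mul_of_nonneg_right this (show (0 : ℝ) ≤ 4 * ε₁ ^ 2 by positivity)]
    have hγ : (c : ℝ) * (16 * (√(m ^ 2) + √(N * (4 * ε₁ ^ 2)))) ≤ ε / 8 := by
      rw [hs1]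
      have e1 : (c : ℝ) * (16 * (m + √(N * (4 * ε₁ ^ 2)))) ≤
          c * (16 * (m + 2 * ε₁ * (N + 1))) := by gcongr
      have e2 : 16 * c * m ≤ ε / 16 := by nlinarith
      have e3 : 32 * c * (ε₁ * (N + 1)) ≤ ε / 16 := by
        have e4 : 512 * c * (ε₁ * (N + 1)) ≤ ε₁ * (512 * (c + 1) * (N + 1)) := by
          have : 0 ≤ ε₁ * (N + 1) := by positivity
          nlinarith
        nlinarith
      nlinarith
    have hF : (e : ℝ) * (2 * δ) ^ 2 ≤ ε / 4 := by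
      have e1 : 16 * e * δ ≤ ε := by nlinarith
      have e2 : (e : ℝ) * (2 * δ) ^ 2 = 16 * e * δ * (δ / 4) := by ring
      rw [e2]
      nlinarith
    exact key_ineq hε hε1 κ.coe_nonneg hκ' ha hb rfl hA hγ hF (by positivity) h1 h2

end Pool.Agent.MP4eed4eX
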