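import Pool.Agent.Lib.MP_4eed4e_an_XA.ATk
import Pool.Agent.Lib.MP_4eed4e_an_XA.ACut
import Pool.Agent.Lib.MP_4eed4e_an_XA.APrm

set_option autoImplicit false

/-!
Project X, block MA, module ALow (M11): the maps from `LipC (D k)` to `LipC` of the limit domain.
-/

namespace Pool.Agent.MP4eed4eX

open MeasureTheory Set Filter Topology Metric Pool.Agent.MP4eed4eP Pool.Agent.MP4eed4eP.PG

private theorem exists_pos_le {n : ℕ} (f : Fin n → ℝ) (hf : ∀ i, 0 < f i) :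
    ∃ ρ : ℝ, 0 < ρ ∧ ∀ i, ρ ≤ f i := by
  rcases isEmpty_or_nonempty (Fin n) with hn | hn
  · exact ⟨1, one_pos, fun i => (hn.false i).elim⟩
  · obtain ⟨i₀, hi₀⟩ := Finite.exists_min f
    exact ⟨f i₀, hf i₀, hi₀⟩

private theorem exists_ge {n : ℕ} (f : Fin n → ℝ) : ∃ M : ℝ, ∀ i, f i ≤ M := by
  obtain ⟨M, hM⟩ := (Set.finite_range f).bddAbove
  exact ⟨M, fun i => hM ⟨i, rfl⟩⟩

/-- Proof. (`N = ∑ c, (W c).card`.) `params C.card E.card N` gives `θ, ε₁, μ, δ, κ₀`. `h.thin δ`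
gives `R'`, and we may take `R' ≥ 1` (a larger `R'` has the same property). `h.near i` gives
`c i ∈ C` and `R i`. Let `R` be so large that `R ≥ 0`, `R ≥ R' + 1 + R i` for all `i` and
`O c ⊆ closedBall 0 R` for all `c ∈ C` (`h.bdd`). `cut_finset (W c) ε₁` gives `η c` and a radius
`ρ c`; `ρ` = the minimum of the `ρ c` over `c ∈ C` (take `ρ = 1` if `C` is empty).
`h.out c (R + 1) μ` gives `K c` and a radius `r c`. `κ > 0` is at most `κ₀` and at most
all `r c`. Eventually (finitely many conditions, `Filter.eventually_all_finset`,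
`Filter.eventually_all`): the thinness for `R'`; `h.map c ρ κ` gives `v c` for `c ∈ C`
(`v c = 0` otherwise); `p k c + z ∉ D k` for `y ∈ K c`, `dist z y ≤ r c`, which is used for
`z = y + v c y`; `dist (p k c) (p k c') > 2 (R + 1)` for `c ≠ c'` (`h.far`);
`dist (p k i) (p k (c i)) ≤ R i`. For such `k` the structure `TH` holds (field `cov`: if
`dist x (p k (c i)) > R` then `dist x (p k i) ≥ R - R i ≥ R' + 1`). Now `TH.est_sum`,
`TH.est_en`, `TH.est_l2` and `params` with `a = en u`, `b = l2 u`, `a' = en (T u)`,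
`b' = l2 (T u)`. -/
theorem T_exists {n : ℕ} {U : Filter ℕ} {D : ℕ → Set P} {p : ℕ → Fin n → P}
    {E : Finset (Fin n × Fin n)} {C : Finset (Fin n)} {O : Fin n → Set P} {W : Fin n → Finset P}
    (hF : ∀ k, Fig (D k) (p k) E) (h : LimData U D p C O W) {s : Fin n → P}
    (hs : ∀ c ∈ C, ∀ c' ∈ C, c ≠ c' → ∀ x, x - s c ∈ O c → x - s c' ∉ O c') {ε : ℝ} (hε : 0 < ε)
    (hε1 : ε ≤ 1) :
    ∀ᶠ k in U, ∃ T : (P → ℝ) →ₗ[ℝ] (P → ℝ), ∀ u, LipC (D k) u →
      LipC (Dlim C O s) (T u) ∧ en (T u) ≤ (1 + ε) * en u + ε * l2 u ∧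
      (1 - ε) * l2 u - ε * en u ≤ l2 (T u) := by
  obtain ⟨θ, ε₁, μ, δ, κ₀, hθ, hθ1, hε₁, hμ, hδ, hδ1, hκ₀, hκ₀2, hpar⟩ :=
    params C.card E.card (∑ c ∈ C, (W c).card) hε hε1
  obtain ⟨R0, hR0⟩ := h.thin δ hδ
  set R' : ℝ := max R0 1 with hR'def
  have hR'1 : 1 ≤ R' := le_max_right _ _
  have hR'0 : R0 ≤ R' := le_max_left _ _
  choose ci hciC Ri hRi using h.near
  have hb : ∀ c, ∃ r : ℝ, c ∈ C → O c ⊆ closedBall 0 r := by
    intro c
    by_cases hc : c ∈ C
    · obtain ⟨r, hr⟩ := (h.bdd c hc).subset_closedBall (0 : P)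
      exact ⟨r, fun _ => hr⟩
    · exact ⟨0, fun h' => absurd h' hc⟩
  choose rO hrO using hb
  obtain ⟨M1, hM1⟩ := exists_ge Ri
  obtain ⟨M2, hM2⟩ := exists_ge rO
  set R : ℝ := max (R' + 1 + M1) M2 with hRdef
  have hRi' : ∀ i, R' + 1 + Ri i ≤ R := fun i =>
    le_trans (by linarith [hM1 i]) (le_max_left _ _)
  have hball : ∀ c ∈ C, O c ⊆ closedBall 0 R := fun c hc =>
    (hrO c hc).trans (closedBall_subset_closedBall ((hM2 c).trans (le_max_right _ _)))
  have hcut := fun c => cut_finset (W c) hε₁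
  choose η hηlip hη01 hη0 hη1 hηcut using hcut
  choose ρc hρc hρ0 using hη0
  obtain ⟨ρ, hρ, hρle⟩ := exists_pos_le ρc hρc
  have hout : ∀ c, ∃ (K : Set P) (r : ℝ), 0 < r ∧ (c ∈ C → IsCompact K ∧
      volume ((closedBall 0 (R + 1) \ O c) \ K) ≤ ENNReal.ofReal μ ∧
      ∀ᶠ k in U, ∀ y ∈ K, ∀ z, dist z y ≤ r → p k c + z ∉ D k) := by
    intro c
    by_cases hc : c ∈ C
    · obtain ⟨K, hK, hv, r, hr, hev⟩ := h.out c hc (R + 1) μ hμ
      exact ⟨K, r, hr, fun _ => ⟨hK, hv, hev⟩⟩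
    · exact ⟨∅, 1, one_pos, fun h' => absurd h' hc⟩
  choose K rc hrc hK using hout
  obtain ⟨r0, hr0, hr0le⟩ := exists_pos_le rc hrc
  set κ : NNReal := min κ₀ (Real.toNNReal r0) with hκdef
  have hκpos : 0 < κ := lt_min hκ₀ (Real.toNNReal_pos.2 hr0)
  have hκκ₀ : κ ≤ κ₀ := min_le_left _ _
  have hκr : ∀ c, (κ : ℝ) ≤ rc c := by
    intro c
    refine le_trans ?_ (hr0le c)
    have h1 : (κ : ℝ) ≤ (Real.toNNReal r0 : ℝ) := NNReal.coe_le_coe.2 (min_le_right _ _)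
    rwa [Real.coe_toNNReal _ hr0.le] at h1
  have hκhalf : κ ≤ 1 / 2 := hκκ₀.trans hκ₀2
  have hκ1 : (κ : ℝ) ≤ 1 := by
    have h1 : (κ : ℝ) ≤ ((1 / 2 : NNReal) : ℝ) := NNReal.coe_le_coe.2 hκhalf
    push_cast at h1
    linarith
  have E2 : ∀ᶠ k in U, ∀ c ∈ C, ∃ v : P → P, LipschitzWith κ v ∧ (∀ y, ‖v y‖ ≤ κ) ∧
      ∀ y ∈ frontier (O c), (∀ w ∈ W c, ρ ≤ dist y w) → p k c + y + v y ∉ D k :=
    (Filter.eventually_all_finset C).2 fun c hc => h.map c hc ρ hρ κ hκpos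
  have E3 : ∀ᶠ k in U, ∀ c ∈ C, ∀ y ∈ K c, ∀ z, dist z y ≤ rc c → p k c + z ∉ D k :=
    (Filter.eventually_all_finset C).2 fun c hc => (hK c hc).2.2
  have E4 : ∀ᶠ k in U, ∀ c ∈ C, ∀ c' ∈ C, c ≠ c' → 2 * (R + 1) < dist (p k c) (p k c') := by
    refine (Filter.eventually_all_finset C).2 fun c hc =>
      (Filter.eventually_all_finset C).2 fun c' hc' => ?_
    by_cases hcc : c = c'
    · exact Filter.Eventually.of_forall fun k hne => absurd hcc hne
    · filter_upwards [(h.far c hc c' hc' hcc).eventually_gt_atTop (2 * (R + 1))] with k hk _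
      exact hk
  have E5 : ∀ᶠ k in U, ∀ i, dist (p k i) (p k (ci i)) ≤ Ri i :=
    Filter.eventually_all.2 hRi
  filter_upwards [hR0, E2, E3, E4, E5] with k hthin hv2 h3 h4 h5
  choose! v hv using hv2
  have hTH : TH (D k) (p k) E C O W s η v K κ ρ ε₁ μ R R' δ :=
    { fig := hF k
      dis := hs
      op := h.op
      ball := hball
      lip := fun c _ => hηlip c
      h01 := fun c _ x => hη01 c x
      zero := fun c _ x hx => by
        obtain ⟨w, hw, hd⟩ := hx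
        exact hρ0 c x ⟨w, hw, hd.trans_le (hρle c)⟩
      one := fun c _ x hx => hη1 c x hx
      cut := fun c _ u hu => hηcut c u hu
      eps := hε₁.le
      kap := hκhalf
      vlip := fun c hc => (hv c hc).1
      vsup := fun c hc y => ((hv c hc).2.1 y).trans hκ1
      fr := fun c hc => (hv c hc).2.2
      mu := hμ.le
      comp := fun c hc => (hK c hc).1
      vol := fun c hc => (hK c hc).2.1
      out := fun c hc y hy => by
        rw [add_assoc]
        refine h3 c hc y hy (y + v c y) ?_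
        rw [dist_eq_norm, add_sub_cancel_left]
        exact ((hv c hc).2.1 y).trans (hκr c)
      sep := h4
      cov := fun x hx i => by
        have h6 := hx (ci i) (hciC i)
        have h7 := dist_triangle x (p k i) (p k (ci i))
        have h8 := h5 i
        have h9 := hRi' i
        linarith
      del := hδ
      del1 := hδ1
      R1 := hR'1
      thin := fun x hx => hthin x fun i => hR'0.trans (hx i) }
  refine ⟨TT C O s η (p k) v, fun u hu => ?_⟩
  have hN : ∀ c ∈ C, (W c).card ≤ ∑ c ∈ C, (W c).card := fun c hc =>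
    Finset.single_le_sum (f := fun c => (W c).card) (fun _ _ => Nat.zero_le _) hc
  obtain ⟨hL, -, -⟩ := hTH.est_sum hu
  have hE := hTH.est_en hu hθ hθ1
  have hl := hTH.est_l2 hu hN
  exact ⟨hL, hpar κ hκκ₀ (en u) (l2 u) _ _ (en_nonneg _) (l2_nonneg _) (en_nonneg _)
    (l2_nonneg _) hE hl⟩

end Pool.Agent.MP4eed4eX
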