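import Pool.Agent.Lib.MP_4eed4e_an_XA.AMap
import Pool.Agent.Lib.MP_4eed4e_an_XA.AGra

set_option autoImplicit false

/-!
Project X, block MA, module ANear (M0): the eigenvalues of close sets are close.
-/

namespace Pool.Agent.MP4eed4eX

open MeasureTheory Set Filter Topology Metric Pool.Agent.MP4eed4eP Pool.Agent.MP4eed4eP.PG

/-- Proof. `comp_est` for `e` (`L = M = 2`: `1 + κ ≤ 2`, `1 + 2κ ≤ 2`, but use the exact constants
`L = 1 + 2κ`, `M = 1 + κ`) and `lamL_le_of_map` for the linear map `u ↦ u ∘ e`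
(`LinearMap.funLeft ℝ ℝ e`): `a = (1 + 2κ)⁴`, `b = (1 + κ)²`; `a b ≤ (1 + 2κ)⁶ ≤ 1 + 63 · 2 κ`
for `2 κ ≤ 1` (`(1 + t)^6 ≤ 1 + 63 t` for `0 ≤ t ≤ 1`). -/
theorem lamL_le_image {κ : NNReal} {φ : P → P} {D : Set P} (hκ : κ ≤ 1 / 2)
    (h : LipschitzWith κ (fun x => φ x - x)) (hD : IsOpen D) (hne : D.Nonempty) (k : ℕ) :
    lamL D k ≤ (1 + 126 * κ) * lamL (φ '' D) k := by
  obtain ⟨e, he, hM, hL, -⟩ := near_homeo hκ h
  have himg : φ '' D = e '' D := by
    refine image_congr fun x _ => (he x).symm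
  have hκe : LipschitzWith κ (fun x => e x - x) := by
    have : (fun x => e x - x) = fun x => φ x - x := by
      funext x
      rw [he]
    rw [this]
    exact h
  rw [himg]
  have hopen : IsOpen (e '' D) := e.isOpenMap D hD
  have hne' : (e '' D).Nonempty := hne.image _
  have hk0 : (0 : ℝ) ≤ κ := κ.2
  have hk1 : (κ : ℝ) ≤ 1 / 2 := by
    have := (NNReal.coe_le_coe.2 hκ)
    simpa using this
  have hpull : ∀ x, e x ∈ e '' D → x ∈ D := by
    rintro x ⟨y, hy, hyx⟩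
    rwa [← e.injective hyx]
  have hmain := lamL_le_of_map (D := e '' D) (D' := D) hopen hne'
    (a := (1 + 2 * (κ : ℝ)) ^ 4) (b := (1 + (κ : ℝ)) ^ 2) (by positivity) (by positivity)
    (LinearMap.funLeft ℝ ℝ e) (fun u hu => by
      obtain ⟨h1, h2, -, h4, -⟩ := comp_est e hκe hL hM hpull hu
      refine ⟨h1, ?_, ?_⟩
      · refine le_trans h2 (le_of_eq ?_)
        push_cast
        ring
      · refine le_trans h4 (le_of_eq ?_)
        push_cast
        rfl) k
  refine hmain.trans (mul_le_mul_of_nonneg_right ?_ (lamL_nonneg _ _))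
  have h6 : (1 + 2 * (κ : ℝ)) ^ 6 ≤ 1 + 126 * κ := by
    have ht0 : 0 ≤ 2 * (κ : ℝ) := by positivity
    have ht1 : 2 * (κ : ℝ) ≤ 1 := by linarith
    have key : ∀ t : ℝ, 0 ≤ t → t ≤ 1 → (1 + t) ^ 6 ≤ 1 + 63 * t := by
      intro t h0 h1
      have p2 : t ^ 2 ≤ t := by nlinarith
      have p3 : t ^ 3 ≤ t := by
        have := mul_le_mul_of_nonneg_right p2 h0
        nlinarith
      have p4 : t ^ 4 ≤ t := by
        have := mul_le_mul_of_nonneg_right p3 h0
        nlinarith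
      have p5 : t ^ 5 ≤ t := by
        have := mul_le_mul_of_nonneg_right p4 h0
        nlinarith
      have p6 : t ^ 6 ≤ t := by
        have := mul_le_mul_of_nonneg_right p5 h0
        nlinarith
      nlinarith
    have := key (2 * (κ : ℝ)) ht0 ht1
    linarith
  have hb : (1 + (κ : ℝ)) ^ 2 ≤ (1 + 2 * (κ : ℝ)) ^ 2 :=
    pow_le_pow_left₀ (by positivity) (by linarith) 2
  calc (1 + 2 * (κ : ℝ)) ^ 4 * (1 + (κ : ℝ)) ^ 2
      ≤ (1 + 2 * (κ : ℝ)) ^ 4 * (1 + 2 * (κ : ℝ)) ^ 2 :=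
        mul_le_mul_of_nonneg_left hb (by positivity)
    _ = (1 + 2 * (κ : ℝ)) ^ 6 := by ring
    _ ≤ _ := h6

/-- Proof. `C = 10 ^ 5` or so. With `e` of `near_homeo`, `κ ≤ 1/4`: `lamL_le_image` for `φ` and
`D` gives `lamL D k ≤ (1 + 126 κ) lamL (φ D) k`; for `e.symm` and `φ D` (the constant is
`2 κ ≤ 1/2`; `e.symm '' (φ '' D) = D`; `φ '' D` is open) it gives
`lamL (φ D) k ≤ (1 + 252 κ) lamL D k`. So
`lamL (φ D) k - lamL D k ≤ 252 κ lamL D k` and `lamL D k - lamL (φ D) k ≤ 126 κ lamL (φ D) k ≤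
126 κ (1 + 252 κ) lamL D k`. `lamL_nonneg`. -/
theorem lamL_near' : ∃ C : ℝ, 0 < C ∧ ∀ (κ : NNReal) (φ : P → P) (D : Set P), κ ≤ 1 / 4 →
    LipschitzWith κ (fun x => φ x - x) → IsOpen D → Bornology.IsBounded D → D.Nonempty →
    ∀ k, |lamL (φ '' D) k - lamL D k| ≤ C * κ * lamL D k := by
  refine ⟨10 ^ 5, by norm_num, ?_⟩
  intro κ φ D hκ h hD _ hne k
  have hk0 : (0 : ℝ) ≤ κ := κ.2
  have hk1 : (κ : ℝ) ≤ 1 / 4 := by
    have := (NNReal.coe_le_coe.2 hκ)
    simpa using this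
  have hκ2 : κ ≤ 1 / 2 := by
    rw [← NNReal.coe_le_coe]
    push_cast
    linarith
  have h2κ : 2 * κ ≤ 1 / 2 := by
    rw [← NNReal.coe_le_coe]
    push_cast
    linarith
  obtain ⟨e, he, hM, hL, hs⟩ := near_homeo hκ2 h
  have himg : φ '' D = e '' D := by
    refine image_congr fun x _ => (he x).symm
  have h1 := lamL_le_image hκ2 h hD hne k
  have hopen : IsOpen (φ '' D) := by
    rw [himg]
    exact e.isOpenMap D hD
  have hne' : (φ '' D).Nonempty := hne.image _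
  have h2 := lamL_le_image h2κ hs hopen hne' k
  have hback' : e.symm '' (φ '' D) = D := by
    rw [himg, image_image]
    have hfun : (fun x => e.symm (e x)) = id := by
      funext x
      exact e.symm_apply_apply x
    rw [hfun, image_id]
  rw [hback'] at h2
  push_cast at h2
  have h0 := lamL_nonneg D k
  have h0' := lamL_nonneg (φ '' D) k
  set a := lamL D k
  set b := lamL (φ '' D) k
  have hka : 0 ≤ (κ : ℝ) * a := mul_nonneg hk0 h0
  have h3 : b - a ≤ 252 * (κ * a) := by nlinarith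
  have h4 : a - b ≤ 126 * (κ * b) := by nlinarith
  have h5 : κ * b ≤ κ * ((1 + 63) * a) := by
    refine mul_le_mul_of_nonneg_left ?_ hk0
    nlinarith
  rw [abs_le]
  constructor
  · nlinarith
  · nlinarith

end Pool.Agent.MP4eed4eX
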