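import Pool.Agent.Lib.MP_4eed4e_an_PG.GClose

set_option autoImplicit false

/-!
Project X, block MA, module APar: Lipschitz functions on lines.
-/

namespace Pool.Agent.MP4eed4eX

open MeasureTheory Set Filter Topology Metric Pool.Agent.MP4eed4eP Pool.Agent.MP4eed4eP.PG

/-- Proof. Rademacher: for almost all `x` the function `u` is differentiable at `x`; then compose
`hasFDerivAt` with the affine maps `t ↦ (t, x.2)` and `t ↦ (x.1, t)`
(`HasFDerivAt.comp_hasDerivAt`). -/
theorem ae_partial {u : P → ℝ} (hu : ∃ K, LipschitzWith K u) :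
    ∀ᵐ x : P, HasDerivAt (fun t => u (t, x.2)) (d1 u x) x.1 ∧
      HasDerivAt (fun t => u (x.1, t)) (d2 u x) x.2 := by
  obtain ⟨K, hK⟩ := hu
  filter_upwards [hK.ae_differentiableAt (μ := volume)] with x hx
  have h := hx.hasFDerivAt
  constructor
  · have h1 : HasDerivAt (fun t : ℝ => ((t, x.2) : P)) ((1, 0) : P) x.1 :=
      (hasDerivAt_id x.1).prodMk (hasDerivAt_const x.1 x.2)
    have h2 : HasFDerivAt u (fderiv ℝ u x) ((fun t : ℝ => ((t, x.2) : P)) x.1) := h
    exact h2.comp_hasDerivAt x.1 h1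
  · have h1 : HasDerivAt (fun t : ℝ => ((x.1, t) : P)) ((0, 1) : P) x.2 :=
      (hasDerivAt_const x.2 x.1).prodMk (hasDerivAt_id x.2)
    have h2 : HasFDerivAt u (fderiv ℝ u x) ((fun t : ℝ => ((x.1, t) : P)) x.2) := h
    exact h2.comp_hasDerivAt x.2 h1

/-- Fundamental theorem of calculus for Lipschitz functions.
Proof. `LipschitzOnWith.absolutelyContinuousOnInterval`,
`AbsolutelyContinuousOnInterval.integral_deriv_eq_sub` (file
`Mathlib/MeasureTheory/Integral/IntervalIntegral/AbsolutelyContinuousFun.lean`). -/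
theorem ftc {w : ℝ → ℝ} (hw : ∃ K, LipschitzWith K w) (s t : ℝ) :
    IntervalIntegrable (deriv w) volume s t ∧ ∫ x in s..t, deriv w x = w t - w s := by
  obtain ⟨K, hK⟩ := hw
  have h : AbsolutelyContinuousOnInterval w s t :=
    (hK.lipschitzOnWith (s := uIcc s t)).absolutelyContinuousOnInterval
  exact ⟨h.intervalIntegrable_deriv, h.integral_deriv_eq_sub⟩

private theorem APar_ii {f : ℝ → ℝ} (hf : Measurable f) {B : ℝ} (hB : ∀ x, |f x| ≤ B) (s t : ℝ) :
    IntervalIntegrable f volume s t := by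
  rw [intervalIntegrable_iff]
  refine Measure.integrableOn_of_bounded (M := B) ?_ hf.aestronglyMeasurable ?_
  · simp [uIoc]
  · exact Eventually.of_forall fun x => by
      rw [Real.norm_eq_abs]
      exact hB x

private theorem APar_sq {f : ℝ → ℝ} (hf : Measurable f) {B : ℝ} (hB : ∀ x, |f x| ≤ B) (s t : ℝ) :
    IntervalIntegrable (fun x => f x ^ 2) volume s t := by
  refine APar_ii (hf.pow_const 2) (B := B ^ 2) (fun x => ?_) s t
  rw [abs_pow]
  exact pow_le_pow_left₀ (abs_nonneg _) (hB x) 2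

/-- Cauchy-Schwarz on an interval for a bounded measurable function `f`.
Proof. With `m = (∫ f) / (t - s)`: `0 ≤ ∫ (f - m)² = ∫ f² - (t - s) m²` (for `s = t` both sides
vanish); or `ENNReal`/`L²` Cauchy-Schwarz. -/
theorem cs_interval {f : ℝ → ℝ} (hf : Measurable f) {B : ℝ} (hB : ∀ x, |f x| ≤ B) {s t : ℝ}
    (hst : s ≤ t) : (∫ x in s..t, f x) ^ 2 ≤ (t - s) * ∫ x in s..t, f x ^ 2 := by
  rcases hst.eq_or_lt with rfl | hlt
  · simp
  have hc : 0 < t - s := sub_pos.2 hlt
  have h1 := APar_ii hf hB s t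
  have h2 := APar_sq hf hB s t
  set I := ∫ x in s..t, f x with hI
  set J := ∫ x in s..t, f x ^ 2 with hJ
  set m := I / (t - s) with hm
  have h3 : ∫ x in s..t, (f x - m) ^ 2 = J - 2 * m * I + (t - s) * m ^ 2 := by
    have e : ∀ x, (f x - m) ^ 2 = f x ^ 2 - 2 * m * f x + m ^ 2 := fun x => by ring
    simp_rw [e]
    rw [intervalIntegral.integral_add (h2.sub (h1.const_mul _)) (by simp),
      intervalIntegral.integral_sub h2 (h1.const_mul _), intervalIntegral.integral_const_mul,
      intervalIntegral.integral_const, smul_eq_mul]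
  have h4 : 0 ≤ ∫ x in s..t, (f x - m) ^ 2 :=
    intervalIntegral.integral_nonneg hst fun x _ => sq_nonneg _
  rw [h3] at h4
  have h5 : J - 2 * m * I + (t - s) * m ^ 2 = (((t - s) * J) - I ^ 2) / (t - s) := by
    rw [hm]
    field_simp
    ring
  rw [h5] at h4
  have h6 := (div_nonneg_iff.1 h4).resolve_right (fun h => absurd h.2 (not_le.2 hc))
  linarith [h6.1]

private theorem APar_half {w : ℝ → ℝ} (hw : ∃ K, LipschitzWith K w) {s a : ℝ} (ha : 0 ≤ a)
    (h0 : w s = 0) :
    (∫ t in s..(s + a), w t ^ 2) ≤ a ^ 2 * ∫ t in s..(s + a), deriv w t ^ 2 := by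
  obtain ⟨K, hK⟩ := hw
  have hB : ∀ x, |deriv w x| ≤ K := fun x => by
    have := norm_deriv_le_of_lipschitz hK (x₀ := x)
    rwa [Real.norm_eq_abs] at this
  have hm : Measurable (deriv w) := measurable_deriv w
  have hq := APar_sq hm hB
  have h1 : ∀ t ∈ Icc s (s + a), w t ^ 2 ≤ a * ∫ x in s..(s + a), deriv w x ^ 2 := by
    intro t ht
    have e1 := (ftc ⟨K, hK⟩ s t).2
    rw [h0, sub_zero] at e1
    have e2 := cs_interval hm hB ht.1
    rw [e1] at e2
    have e3 : (∫ x in s..t, deriv w x ^ 2) ≤ ∫ x in s..(s + a), deriv w x ^ 2 := by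
      rw [← intervalIntegral.integral_add_adjacent_intervals (hq s t) (hq t (s + a))]
      have : 0 ≤ ∫ x in t..(s + a), deriv w x ^ 2 :=
        intervalIntegral.integral_nonneg ht.2 fun x _ => sq_nonneg _
      linarith
    have e4 : 0 ≤ ∫ x in s..t, deriv w x ^ 2 :=
      intervalIntegral.integral_nonneg ht.1 fun x _ => sq_nonneg _
    calc w t ^ 2 ≤ (t - s) * ∫ x in s..t, deriv w x ^ 2 := e2
      _ ≤ a * ∫ x in s..t, deriv w x ^ 2 :=
        mul_le_mul_of_nonneg_right (by linarith [ht.2]) e4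
      _ ≤ _ := mul_le_mul_of_nonneg_left e3 ha
  have hc : Continuous fun t => w t ^ 2 := hK.continuous.pow 2
  calc (∫ t in s..(s + a), w t ^ 2)
      ≤ ∫ _t in s..(s + a), a * ∫ x in s..(s + a), deriv w x ^ 2 :=
        intervalIntegral.integral_mono_on (by linarith) (hc.intervalIntegrable _ _) (by simp) h1
    _ = a ^ 2 * ∫ t in s..(s + a), deriv w t ^ 2 := by
        rw [intervalIntegral.integral_const, smul_eq_mul]
        ring

/-- Proof. For `t ∈ [s, s + a]`: `w t ^ 2 = (∫ x in s..t, deriv w x) ^ 2 ≤ (t - s) ∫_{s}^{t} (w')² ≤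
a ∫_{s}^{s+a} (w')²` (`ftc`, `cs_interval`; `|deriv w| ≤ K`, `measurable_deriv`). Integrate over
`[s, s + a]`.
The same on `[s - a, s]`. Add. -/
theorem one_dim {w : ℝ → ℝ} (hw : ∃ K, LipschitzWith K w) {s a : ℝ} (ha : 0 ≤ a) (h0 : w s = 0) :
    ∫ t in Icc (s - a) (s + a), w t ^ 2 ≤
      a ^ 2 * ∫ t in Icc (s - a) (s + a), deriv w t ^ 2 := by
  have h1 := APar_half hw ha h0
  have hw' : ∃ K, LipschitzWith K (fun t => w (-t)) := by
    obtain ⟨K, hK⟩ := hw
    refine ⟨K, LipschitzWith.of_dist_le_mul fun x y => ?_⟩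
    have := hK.dist_le_mul (-x) (-y)
    rwa [dist_neg_neg] at this
  have h2 := APar_half (s := -s) hw' ha (by simpa using h0)
  have e1 : (∫ t in (-s)..(-s + a), w (-t) ^ 2) = ∫ t in (s - a)..s, w t ^ 2 := by
    have := intervalIntegral.integral_comp_neg (fun t => w t ^ 2) (a := -s) (b := -s + a)
    rw [this]
    congr 1 <;> ring
  have e2 : (∫ t in (-s)..(-s + a), deriv (fun t => w (-t)) t ^ 2) =
      ∫ t in (s - a)..s, deriv w t ^ 2 := by
    have e : ∀ t, deriv (fun t => w (-t)) t ^ 2 = deriv w (-t) ^ 2 := fun t => by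
      rw [deriv_comp_neg, neg_sq]
    simp_rw [e]
    have := intervalIntegral.integral_comp_neg (fun t => deriv w t ^ 2) (a := -s) (b := -s + a)
    rw [this]
    congr 1 <;> ring
  rw [e1, e2] at h2
  obtain ⟨K, hK⟩ := hw
  have hB : ∀ x, |deriv w x| ≤ K := fun x => by
    have := norm_deriv_le_of_lipschitz hK (x₀ := x)
    rwa [Real.norm_eq_abs] at this
  have hq := APar_sq (measurable_deriv w) hB
  have hc : Continuous fun t => w t ^ 2 := hK.continuous.pow 2
  have hle : s - a ≤ s + a := by linarith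
  rw [integral_Icc_eq_integral_Ioc, integral_Icc_eq_integral_Ioc,
    ← intervalIntegral.integral_of_le hle, ← intervalIntegral.integral_of_le hle,
    ← intervalIntegral.integral_add_adjacent_intervals (hc.intervalIntegrable (s - a) s)
      (hc.intervalIntegrable s (s + a)),
    ← intervalIntegral.integral_add_adjacent_intervals (hq (s - a) s) (hq s (s + a))]
  linarith

end Pool.Agent.MP4eed4eX
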