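import Pool.Agent.Lib.MP_4eed4e_an_XA.ALoc2
import Pool.Agent.Lib.MP_4eed4e_an_XA.AFar
import Pool.Agent.Lib.MP_4eed4e_an_XA.ADefs

set_option autoImplicit false

/-!
Project X, block MA, module ATk: the map `T` of M11 for a fixed index `k`.
-/

namespace Pool.Agent.MP4eed4eX

open MeasureTheory Set Filter Topology Metric Pool.Agent.MP4eed4eP Pool.Agent.MP4eed4eP.PG

/-- The map from functions on `D k` to functions on the limit domain. -/
noncomputable def TT {n : ℕ} (C : Finset (Fin n)) (O : Fin n → Set P) (s : Fin n → P)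
    (η : Fin n → P → ℝ) (q : Fin n → P) (v : Fin n → P → P) : (P → ℝ) →ₗ[ℝ] (P → ℝ) where
  toFun u x := ∑ c ∈ C, (O c).indicator (lf (η c) (q c) (v c) u) (x - s c)
  map_add' f g := by
    funext x
    simp only [Pi.add_apply, ← Finset.sum_add_distrib]
    refine Finset.sum_congr rfl fun c _ => ?_
    by_cases hx : x - s c ∈ O c
    · simp only [Set.indicator_of_mem hx, lf, Pi.add_apply]; ring
    · simp only [Set.indicator_of_notMem hx]; ring
  map_smul' r f := by
    funext x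
    simp only [RingHom.id_apply, Pi.smul_apply, smul_eq_mul, Finset.mul_sum]
    refine Finset.sum_congr rfl fun c _ => ?_
    by_cases hx : x - s c ∈ O c
    · simp only [Set.indicator_of_mem hx, lf, Pi.smul_apply, smul_eq_mul]; ring
    · simp only [Set.indicator_of_notMem hx]; ring

/-- All assumptions for a fixed index. -/
structure TH {n : ℕ} (D : Set P) (p : Fin n → P) (E : Finset (Fin n × Fin n))
    (C : Finset (Fin n)) (O : Fin n → Set P) (W : Fin n → Finset P) (s : Fin n → P)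
    (η : Fin n → P → ℝ) (v : Fin n → P → P) (K : Fin n → Set P) (κ : NNReal)
    (ρ ε₁ μ R R' δ : ℝ) : Prop where
  fig : Fig D p E
  dis : ∀ c ∈ C, ∀ c' ∈ C, c ≠ c' → ∀ x, x - s c ∈ O c → x - s c' ∉ O c'
  op : ∀ c ∈ C, IsOpen (O c)
  ball : ∀ c ∈ C, O c ⊆ closedBall 0 R
  lip : ∀ c ∈ C, ∃ K, LipschitzWith K (η c)
  h01 : ∀ c ∈ C, ∀ x, 0 ≤ η c x ∧ η c x ≤ 1
  zero : ∀ c ∈ C, ∀ x, (∃ w ∈ W c, dist x w < ρ) → η c x = 0
  one : ∀ c ∈ C, ∀ x, (∀ w ∈ W c, ε₁ ≤ dist x w) → η c x = 1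
  cut : ∀ c ∈ C, ∀ u, LipC univ u →
    ∫ x, u x ^ 2 * (d1 (η c) x ^ 2 + d2 (η c) x ^ 2) ≤ ε₁ * (l2 u + en u)
  eps : 0 ≤ ε₁
  kap : κ ≤ 1 / 2
  vlip : ∀ c ∈ C, LipschitzWith κ (v c)
  vsup : ∀ c ∈ C, ∀ y, ‖v c y‖ ≤ 1
  fr : ∀ c ∈ C, ∀ y ∈ frontier (O c), (∀ w ∈ W c, ρ ≤ dist y w) → p c + y + v c y ∉ D
  mu : 0 ≤ μ
  comp : ∀ c ∈ C, IsCompact (K c)
  vol : ∀ c ∈ C, volume ((closedBall 0 (R + 1) \ O c) \ K c) ≤ ENNReal.ofReal μ
  out : ∀ c ∈ C, ∀ y ∈ K c, p c + y + v c y ∉ D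
  sep : ∀ c ∈ C, ∀ c' ∈ C, c ≠ c' → 2 * (R + 1) < dist (p c) (p c')
  cov : ∀ x, (∀ c ∈ C, R < dist x (p c)) → ∀ i, R' + 1 ≤ dist x (p i)
  del : 0 < δ
  del1 : δ ≤ 1
  R1 : 1 ≤ R'
  thin : ∀ x, (∀ i, R' ≤ dist x (p i)) → ¬ Metric.ball x δ ⊆ D

variable {n : ℕ} {D : Set P} {p : Fin n → P} {E : Finset (Fin n × Fin n)}
  {C : Finset (Fin n)} {O : Fin n → Set P} {W : Fin n → Finset P} {s : Fin n → P}
  {η : Fin n → P → ℝ} {v : Fin n → P → P} {K : Fin n → Set P} {κ : NNReal}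
  {ρ ε₁ μ R R' δ : ℝ}

private theorem ATk_mono {A B : Set P} {u : P → ℝ} (hu : LipC A u) (h : A ⊆ B) : LipC B u :=
  ⟨hu.1, hu.2.1, hu.2.2.trans h⟩

/-- Proof. For `c ∈ C` the function `g c = (O c).indicator (lf (η c) (p c) (v c) u)` is in
`LipC (O c)` (`lf_ind`); `lipC_trans`, `en_trans` for its translate by `s c`, whose support is in
`{x | x - s c ∈ O c} ⊆ Dlim C O s`; these supports are pairwise disjoint (`h.dis`).
`lipC_sum_disj`. -/
theorem TH.est_sum (h : TH D p E C O W s η v K κ ρ ε₁ μ R R' δ) {u : P → ℝ} (hu : LipC D u) :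
    LipC (Dlim C O s) (TT C O s η p v u) ∧
    en (TT C O s η p v u) = ∑ c ∈ C, ∫ x in O c,
      (d1 (lf (η c) (p c) (v c) u) x ^ 2 + d2 (lf (η c) (p c) (v c) u) x ^ 2) ∧
    l2 (TT C O s η p v u) = ∑ c ∈ C, ∫ x in O c, lf (η c) (p c) (v c) u x ^ 2 := by
  have hg : ∀ c ∈ C, _ := fun c hc => lf_ind (h.op c hc) (h.lip c hc) (h.h01 c hc)
    (h.zero c hc) h.kap (h.vlip c hc) (h.fr c hc) hu
  have ht : ∀ c ∈ C, _ := fun c hc => lipC_trans (hg c hc).1 (s c)
  have hf : ∀ c ∈ C, LipC (Dlim C O s)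
      (fun x => (O c).indicator (lf (η c) (p c) (v c) u) (x - s c)) := fun c hc =>
    ATk_mono (ht c hc).1 fun x hx => ⟨c, hc, hx⟩
  have hts : ∀ c ∈ C, tsupport (fun x => (O c).indicator (lf (η c) (p c) (v c) u) (x - s c)) ⊆
      {x | x - s c ∈ O c} := fun c hc => (ht c hc).1.2.2
  have hd : ∀ c ∈ C, ∀ c' ∈ C, c ≠ c' →
      Disjoint (tsupport (fun x => (O c).indicator (lf (η c) (p c) (v c) u) (x - s c)))
        (tsupport (fun x => (O c').indicator (lf (η c') (p c') (v c') u) (x - s c'))) := by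
    intro c hc c' hc' hne
    refine Set.disjoint_left.2 fun x hx hx' => ?_
    exact h.dis c hc c' hc' hne x (hts c hc hx) (hts c' hc' hx')
  obtain ⟨k1, k2, k3⟩ := lipC_sum_disj C
    (fun c x => (O c).indicator (lf (η c) (p c) (v c) u) (x - s c)) hf hd
  have e0 : TT C O s η p v u =
      fun x => ∑ c ∈ C, (O c).indicator (lf (η c) (p c) (v c) u) (x - s c) := rfl
  rw [e0]
  refine ⟨k1, ?_, ?_⟩
  · rw [k2]
    refine Finset.sum_congr rfl fun c hc => ?_
    rw [(en_trans ((O c).indicator (lf (η c) (p c) (v c) u)) (s c)).1]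
    exact (hg c hc).2.1
  · rw [k3]
    refine Finset.sum_congr rfl fun c hc => ?_
    rw [(en_trans ((O c).indicator (lf (η c) (p c) (v c) u)) (s c)).2]
    exact (hg c hc).2.2

private theorem ATk_ball (h : TH D p E C O W s η v K κ ρ ε₁ μ R R' δ) {c : Fin n} (hc : c ∈ C) :
    (fun y => p c + y + v c y) '' O c ⊆ closedBall (p c) (R + 1) := by
  rintro _ ⟨y, hy, rfl⟩
  have h1 : ‖y‖ ≤ R := by
    have h2 := h.ball c hc hy
    rwa [mem_closedBall, dist_zero_right] at h2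
  have h3 := h.vsup c hc y
  rw [mem_closedBall, dist_eq_norm]
  have h4 : p c + y + v c y - p c = y + v c y := by abel
  change ‖p c + y + v c y - p c‖ ≤ R + 1
  rw [h4]
  exact (norm_add_le _ _).trans (add_le_add h1 h3)

private theorem ATk_open (h : TH D p E C O W s η v K κ ρ ε₁ μ R R' δ) {c : Fin n} (hc : c ∈ C) :
    IsOpen ((fun y => p c + y + v c y) '' O c) := by
  obtain ⟨e, he, -⟩ := exists_e (q := p c) h.kap (h.vlip c hc)
  have e1 : (fun y => p c + y + v c y) = e := by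
    funext y
    exact (he y).symm
  rw [e1]
  exact e.isOpen_image.2 (h.op c hc)

/-- Proof. `TH.est_sum`, `loc_en` for every `c`. The sets `(fun y => p c + y + v c y) '' O c` are
open (`exists_e`: images under a homeomorphism), contained in `closedBall (p c) (R + 1)` (`h.ball`,
`h.vsup`), so pairwise disjoint (`h.sep`), and the sum of the integrals of `|∇u|²` over them is at
most `en u`
(`integral_biUnion_finset`, `setIntegral_le_integral`). -/
theorem TH.est_en (h : TH D p E C O W s η v K κ ρ ε₁ μ R R' δ) {u : P → ℝ} (hu : LipC D u) {θ : ℝ}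
    (hθ : 0 < θ) (hθ1 : θ ≤ 1) :
    en (TT C O s η p v u) ≤ (1 + θ) * (1 + 2 * (κ : ℝ)) ^ 4 * en u +
      C.card * (32 * ε₁ / θ) * (l2 u + en u) := by
  have hun : LipC univ u := ATk_mono hu (subset_univ _)
  have hint : Integrable (fun x => d1 u x ^ 2 + d2 u x ^ 2) := LipC.integrable_en hu
  have hsum : ∑ c ∈ C, ∫ x in (fun y => p c + y + v c y) '' O c, (d1 u x ^ 2 + d2 u x ^ 2) ≤
      en u := by
    rw [← integral_biUnion_finset C (fun c hc => (ATk_open h hc).measurableSet) ?_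
      (fun c _ => hint.integrableOn)]
    · exact setIntegral_le_integral hint (Filter.Eventually.of_forall fun x => by positivity)
    · intro c hc c' hc' hne
      refine Set.disjoint_left.2 fun x hx hx' => ?_
      have h1 := ATk_ball h hc hx
      have h2 := ATk_ball h hc' hx'
      have h3 := h.sep c hc c' hc' hne
      rw [mem_closedBall] at h1 h2
      have h4 := dist_triangle_left (p c) (p c') x
      linarith
  rw [(h.est_sum hu).2.1]
  have hle : ∀ c ∈ C, ∫ x in O c,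
      (d1 (lf (η c) (p c) (v c) u) x ^ 2 + d2 (lf (η c) (p c) (v c) u) x ^ 2) ≤
      (1 + θ) * (1 + 2 * (κ : ℝ)) ^ 4 *
        (∫ x in (fun y => p c + y + v c y) '' O c, (d1 u x ^ 2 + d2 u x ^ 2)) +
      32 * ε₁ / θ * (l2 u + en u) := fun c hc =>
    loc_en (h.op c hc) (h.lip c hc) (h.h01 c hc) h.eps (h.cut c hc) h.kap (h.vlip c hc) hun hθ hθ1
  refine (Finset.sum_le_sum hle).trans ?_
  rw [Finset.sum_add_distrib, ← Finset.mul_sum, Finset.sum_const, nsmul_eq_mul,
    mul_assoc (C.card : ℝ)]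
  have hp : 0 ≤ (1 + θ) * (1 + 2 * (κ : ℝ)) ^ 4 := by positivity
  exact add_le_add (mul_le_mul_of_nonneg_left hsum hp) le_rfl

/-- Proof. By `h.cov` the whole plane is the union of `{x | ∀ i, R' + 1 ≤ dist x (p i)}` and of the
balls `closedBall (p c) R`, `c ∈ C`; so `l2 u` is at most the sum of the integrals of `u²` over
these sets. First set: `far_mass`. Balls: `loc_l2`, `(W c).card ≤ N`. `TH.est_sum` for the sum of the
`∫ x in O c, lf .. ^ 2`. -/
theorem TH.est_l2 (h : TH D p E C O W s η v K κ ρ ε₁ μ R R' δ) {u : P → ℝ} (hu : LipC D u) {N : ℕ}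
    (hN : ∀ c ∈ C, (W c).card ≤ N) :
    l2 u ≤ E.card * (2 * δ) ^ 2 * en u + (1 + (κ : ℝ)) ^ 2 * (l2 (TT C O s η p v u) +
      C.card * (16 * (√μ + √(N * (4 * ε₁ ^ 2)))) * (l2 u + en u)) := by
  have hint : Integrable (fun x => u x ^ 2) := LipC.integrable_sq hu
  have hS : MeasurableSet {x : P | ∀ i, R' + 1 ≤ dist x (p i)} := by
    have h1 : {x : P | ∀ i, R' + 1 ≤ dist x (p i)} = ⋂ i, {x : P | R' + 1 ≤ dist x (p i)} := by
      ext x
      simp
    rw [h1]
    exact MeasurableSet.iInter fun i =>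
      (isClosed_le continuous_const (continuous_id.dist continuous_const)).measurableSet
  have hB : ∀ c : Fin n, MeasurableSet (closedBall (p c) R) := fun c =>
    isClosed_closedBall.measurableSet
  have hsplit : l2 u ≤ (∫ x in {x : P | ∀ i, R' + 1 ≤ dist x (p i)}, u x ^ 2) +
      ∑ c ∈ C, ∫ x in closedBall (p c) R, u x ^ 2 := by
    rw [← integral_indicator hS]
    have h1 : ∀ c ∈ C, ∫ x in closedBall (p c) R, u x ^ 2 =
        ∫ x, (closedBall (p c) R).indicator (fun x => u x ^ 2) x := fun c _ =>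
      (integral_indicator (hB c)).symm
    rw [Finset.sum_congr rfl h1, ← integral_finsetSum _ (fun c _ => hint.indicator (hB c)),
      ← integral_add (hint.indicator hS) (integrable_finsetSum _ fun c _ =>
        hint.indicator (hB c))]
    refine integral_mono hint ((hint.indicator hS).add (integrable_finsetSum _ fun c _ =>
        hint.indicator (hB c))) fun x => ?_
    have hnn : ∀ c ∈ C, 0 ≤ (closedBall (p c) R).indicator (fun x => u x ^ 2) x :=
      fun c _ => indicator_nonneg (fun _ _ => sq_nonneg _) _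
    have hnn' : 0 ≤ {x : P | ∀ i, R' + 1 ≤ dist x (p i)}.indicator (fun x => u x ^ 2) x :=
      indicator_nonneg (fun _ _ => sq_nonneg _) _
    by_cases hx : ∀ c ∈ C, R < dist x (p c)
    · have h2 : x ∈ {x : P | ∀ i, R' + 1 ≤ dist x (p i)} := h.cov x hx
      have h3 := Finset.sum_nonneg hnn
      rw [indicator_of_mem h2] at hnn' ⊢
      linarith
    · push Not at hx
      obtain ⟨c, hc, hxc⟩ := hx
      have h2 : x ∈ closedBall (p c) R := hxc
      have h3 := Finset.single_le_sum hnn hc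
      rw [indicator_of_mem h2] at h3
      linarith
  have hfar := far_mass h.fig h.del h.del1 h.R1 h.thin hu
  have hA : 0 ≤ l2 u + en u := add_nonneg (l2_nonneg u) (en_nonneg u)
  have hloc : ∀ c ∈ C, ∫ x in closedBall (p c) R, u x ^ 2 ≤ (1 + (κ : ℝ)) ^ 2 *
      ((∫ x in O c, lf (η c) (p c) (v c) u x ^ 2) +
      16 * (√μ + √(N * (4 * ε₁ ^ 2))) * (l2 u + en u)) := by
    intro c hc
    refine (loc_l2 (h.op c hc) (h.lip c hc) (h.h01 c hc) h.eps (h.one c hc) h.kap (h.vlip c hc)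
      (h.vsup c hc) h.mu (h.comp c hc) (h.vol c hc) (h.out c hc) hu).trans ?_
    refine mul_le_mul_of_nonneg_left ?_ (by positivity)
    refine add_le_add le_rfl (mul_le_mul_of_nonneg_right ?_ hA)
    refine mul_le_mul_of_nonneg_left ?_ (by norm_num)
    refine add_le_add le_rfl (Real.sqrt_le_sqrt ?_)
    refine mul_le_mul_of_nonneg_right ?_ (by positivity)
    exact_mod_cast hN c hc
  refine hsplit.trans (add_le_add hfar ((Finset.sum_le_sum hloc).trans ?_))
  rw [← Finset.mul_sum, Finset.sum_add_distrib, Finset.sum_const, nsmul_eq_mul,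
    (h.est_sum hu).2.2, mul_assoc (C.card : ℝ)]

end Pool.Agent.MP4eed4eX
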